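import Mathlib

/-!
# Linear systems of triples with preassigned colours
-/

namespace Pool.Agent.helper45.Sem

/-- A system of triples of vertices, some of the vertices having a preassigned colour. -/
structure Inst where
  V : Type
  E : Type
  tri : E → Fin 3 → V
  pr : V → Option (Fin 3)
  finV : Finite V
  finE : Finite E

/-- two triples share at most one vertex -/
structure Lin (K : Inst) : Prop where
  inj : ∀ e, Function.Injective (K.tri e)
  lin : ∀ e e' i j i' j', i ≠ j → K.tri e i = K.tri e' i' → K.tri e j = K.tri e' j' → e = e'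

/-- the vertices, with three constants -/
abbrev Vt (K : Inst) : Type := Fin 3 ⊕ K.V

/-- the gadgets forcing the preassigned colours -/
abbrev Gad (K : Inst) : Type := {q : K.V × Fin 3 // ∃ k, K.pr q.1 = some k ∧ q.2 ≠ k}

/-- the facets -/
abbrev Ft (K : Inst) : Type := K.E ⊕ Gad K

/-- incidence -/
def inc {K : Inst} : Vt K → Ft K → Prop
  | .inl _, .inl _ => False
  | .inr x, .inl e => ∃ i, K.tri e i = x
  | .inl l, .inr q => l = q.1.2 ∨ K.pr q.1.1 = some l
  | .inr x, .inr q => x = q.1.1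

/-- colourable -/
def Sat (K : Inst) : Prop := ∃ χ : K.V → Fin 3, (∀ x k, K.pr x = some k → χ x = k) ∧
  ∀ e, ¬ Function.Injective fun i => χ (K.tri e i)

/-- any two constants lie in a facet -/
def CP (K : Inst) : Prop := ∀ l m : Fin 3, ∃ F : Ft K, inc (.inl l : Vt K) F ∧ inc (.inl m : Vt K) F

section
variable {K : Inst}

theorem inc_e {v : Vt K} {e : K.E} : inc v (.inl e : Ft K) ↔ ∃ i, v = .inr (K.tri e i) := by
  cases v with
  | inl k =>
    constructor
    · intro h; exact h.elim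
    · rintro ⟨i, h⟩; cases h
  | inr x =>
    constructor
    · rintro ⟨i, h⟩; exact ⟨i, by rw [h]⟩
    · rintro ⟨i, h⟩; cases h; exact ⟨i, rfl⟩

theorem inc_g {v : Vt K} {q : Gad K} {k : Fin 3} (hk : K.pr q.1.1 = some k) :
    inc v (.inr q : Ft K) ↔ v = .inl q.1.2 ∨ v = .inl k ∨ v = .inr q.1.1 := by
  cases v with
  | inl l =>
    change (l = q.1.2 ∨ K.pr q.1.1 = some l) ↔ _
    rw [hk]
    simp [eq_comm]
  | inr x =>
    change x = q.1.1 ↔ _
    simp

/-- a gadget facet -/
def gd (x : K.V) (l k : Fin 3) (h : K.pr x = some k) (hl : l ≠ k) : Ft K := .inr ⟨(x, l), k, h, hl⟩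

theorem inc_gd {v : Vt K} {x : K.V} {l k : Fin 3} {h : K.pr x = some k} {hl : l ≠ k} :
    inc v (gd x l k h hl) ↔ v = .inl l ∨ v = .inl k ∨ v = .inr x :=
  inc_g (q := ⟨(x, l), k, h, hl⟩) h

theorem ft_cases (F : Ft K) : (∃ e, F = .inl e) ∨ ∃ x l k h hl, F = gd x l k h hl := by
  rcases F with e | ⟨⟨x, l⟩, k, h, hl⟩
  · exact Or.inl ⟨e, rfl⟩
  · exact Or.inr ⟨x, l, k, h, hl, rfl⟩

/-- two distinct vertices which are not constants lie in at most one facet -/
theorem uniq_e (hL : Lin K) {x y : K.V} (hxy : x ≠ y) {F : Ft K} (hx : inc (.inr x : Vt K) F)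
    (hy : inc (.inr y : Vt K) F) : ∃ e, F = .inl e ∧
      ∀ F' : Ft K, inc (.inr x : Vt K) F' → inc (.inr y : Vt K) F' → F' = F := by
  have key : ∀ F : Ft K, inc (.inr x : Vt K) F → inc (.inr y : Vt K) F → ∃ e, F = .inl e := by
    intro F hx hy
    rcases ft_cases F with h | ⟨z, l, k, h, hl, rfl⟩
    · exact h
    · rw [inc_gd] at hx hy
      simp only [reduceCtorEq, Sum.inr.injEq, false_or] at hx hy
      exact absurd (hx.trans hy.symm) hxy
  obtain ⟨e, rfl⟩ := key F hx hy
  refine ⟨e, rfl, ?_⟩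
  intro F' hx' hy'
  obtain ⟨e', rfl⟩ := key F' hx' hy'
  rw [inc_e] at hx hy hx' hy'
  obtain ⟨i, hi⟩ := hx
  obtain ⟨j, hj⟩ := hy
  obtain ⟨i', hi'⟩ := hx'
  obtain ⟨j', hj'⟩ := hy'
  cases hi
  cases hj
  have h1 : K.tri e i = K.tri e' i' := Sum.inr_injective hi'
  have h2 : K.tri e j = K.tri e' j' := Sum.inr_injective hj'
  rw [hL.lin e e' i j i' j' (fun h => hxy (by rw [h])) h1 h2]

/-- the facets containing a constant and a vertex -/
theorem uniq_g {l : Fin 3} {x : K.V} {F : Ft K} (hl : inc (.inl l : Vt K) F)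
    (hx : inc (.inr x : Vt K) F) : ∃ k, K.pr x = some k ∧ (l ≠ k → ∀ h hl', F = gd x l k h hl') := by
  rcases ft_cases F with ⟨e, rfl⟩ | ⟨z, m, k, h, hm, rfl⟩
  · exact hl.elim
  · rw [inc_gd] at hl hx
    simp only [reduceCtorEq, Sum.inr.injEq, false_or, Sum.inl.injEq, or_false] at hl hx
    subst hx
    refine ⟨k, h, ?_⟩
    intro hlk h' hl'
    rcases hl with rfl | rfl
    · rfl
    · exact absurd rfl hlk

theorem third {l k : Fin 3} (h : l ≠ k) : ∃ m, m ≠ k ∧ m ≠ l ∧ ∀ j, j = k ∨ j = l ∨ j = m := by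
  revert h; revert l k; decide

/-- the structure of the sets of vertices that lie in no facet -/
theorem nonface (hL : Lin K) (hC : CP K) (σ : Set (Vt K)) (hne : σ.Nonempty)
    (hσ : ¬ ∃ F : Ft K, ∀ v ∈ σ, inc v F) :
    (∃ p ∈ σ, ∃ q ∈ σ, ¬ ∃ F : Ft K, inc p F ∧ inc q F) ∨
    (∃ (x y : K.V) (e : K.E) (t : Vt K), .inr x ∈ σ ∧ .inr y ∈ σ ∧ x ≠ y ∧
      inc (.inr x : Vt K) (.inl e : Ft K) ∧ inc (.inr y : Vt K) (.inl e : Ft K) ∧ t ∈ σ ∧
      ¬ inc t (.inl e : Ft K)) ∨
    (∀ k : Fin 3, .inl k ∈ σ) ∨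
    (∃ (x : K.V) (k : Fin 3), K.pr x = some k ∧ .inr x ∈ σ ∧ ∀ l, l ≠ k → .inl l ∈ σ) := by
  by_contra hcon
  simp only [not_or] at hcon
  obtain ⟨hβ, hγ, hδ, hε⟩ := hcon
  have hβ' : ∀ p ∈ σ, ∀ q ∈ σ, ∃ F : Ft K, inc p F ∧ inc q F := by
    intro p hp q hq
    by_contra h
    exact hβ ⟨p, hp, q, hq, h⟩
  rw [not_forall] at hδ
  obtain ⟨k₀, hk₀⟩ := hδ
  by_cases h2 : ∃ x y : K.V, x ≠ y ∧ .inr x ∈ σ ∧ .inr y ∈ σ
  · obtain ⟨x, y, hxy, hx, hy⟩ := h2
    obtain ⟨F, hxF, hyF⟩ := hβ' _ hx _ hy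
    obtain ⟨e, rfl, -⟩ := uniq_e hL hxy hxF hyF
    apply hσ
    refine ⟨.inl e, ?_⟩
    intro t ht
    by_contra htF
    exact hγ ⟨x, y, e, t, hx, hy, hxy, hxF, hyF, ht, htF⟩
  · push Not at h2
    by_cases h1 : ∃ x : K.V, .inr x ∈ σ
    · obtain ⟨x, hx⟩ := h1
      by_cases h0 : ∃ l : Fin 3, .inl l ∈ σ
      · obtain ⟨l, hl⟩ := h0
        obtain ⟨F, hlF, hxF⟩ := hβ' _ hl _ hx
        obtain ⟨k, hk, -⟩ := uniq_g hlF hxF
        have h3 : ∃ l₁, l₁ ≠ k ∧ .inl l₁ ∉ σ := by
          by_contra hcon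
          push Not at hcon
          exact hε ⟨x, k, hk, hx, hcon⟩
        obtain ⟨l₁, hl₁, hl₁σ⟩ := h3
        obtain ⟨m, hm, hml, hall⟩ := third hl₁
        apply hσ
        refine ⟨gd x m k hk hm, ?_⟩
        intro v hv
        rw [inc_gd]
        rcases v with j | y
        · rcases hall j with rfl | rfl | rfl
          · exact Or.inr (Or.inl rfl)
          · exact absurd hv hl₁σ
          · exact Or.inl rfl
        · refine Or.inr (Or.inr ?_)
          by_contra hne'
          exact h2 y x (fun h => hne' (by rw [h])) hv hx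
      · push Not at h0
        obtain ⟨F, hF, -⟩ := hβ' _ hx _ hx
        apply hσ
        refine ⟨F, ?_⟩
        intro v hv
        rcases v with j | y
        · exact absurd hv (h0 j)
        · have : y = x := by
            by_contra hne'
            exact h2 y x hne' hv hx
          rw [this]; exact hF
    · push Not at h1
      obtain ⟨v, hv⟩ := hne
      rcases v with l | y
      · have hlk : l ≠ k₀ := fun h => hk₀ (by rw [← h]; exact hv)
        obtain ⟨m, -, -, hall⟩ := third hlk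
        obtain ⟨F, hlF, hmF⟩ := hC l m
        apply hσ
        refine ⟨F, ?_⟩
        intro v hv
        rcases v with j | y
        · rcases hall j with rfl | rfl | rfl
          · exact absurd hv hk₀
          · exact hlF
          · exact hmF
        · exact absurd hv (h1 y)
      · exact absurd hv (h1 y)

open Classical in
/-- a colouring making two vertices of a triple and any other vertex outside it rainbow -/
noncomputable def colE (y : K.V) (e : K.E) (v : Vt K) : Fin 3 :=
  if v = .inr y then 1 else if inc v (.inl e : Ft K) then 0 else 2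

/-- every facet misses a colour -/
def Miss (χ : Vt K → Fin 3) : Prop := ∀ F : Ft K, ∃ k, ∀ v, inc v F → χ v ≠ k

theorem miss_colE (hL : Lin K) {y : K.V} {e : K.E} (hy : inc (.inr y : Vt K) (.inl e : Ft K)) :
    Miss (colE y e) := by
  classical
  intro F
  by_cases hF : F = .inl e
  · subst hF
    refine ⟨2, ?_⟩
    intro v hv
    unfold colE
    split_ifs <;> simp
  · by_cases hyF : inc (.inr y : Vt K) F
    · refine ⟨0, ?_⟩
      intro v hv h0
      unfold colE at h0
      split_ifs at h0 with h1 h2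
      · simp at h0
      · rcases v with k | z
        · exact h2.elim
        · have hyz : y ≠ z := fun h => h1 (by rw [h])
          obtain ⟨-, -, huniq⟩ := uniq_e hL hyz hy h2
          exact hF (huniq F hyF hv)
      · simp at h0
    · refine ⟨1, ?_⟩
      intro v hv h1
      unfold colE at h1
      split_ifs at h1 with h2 h3
      · rw [h2] at hv
        exact hyF hv
      · simp at h1
      · simp at h1

end

end Pool.Agent.helper45.Sem
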