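import Mathlib

/-!
# Finite digraphs of large chromatic number which are locally bipartite
-/

namespace Pool.Agent.helper45.Sem

/-- A finite digraph with a rank. -/
structure Dg where
  V : Type
  A : V → V → Prop
  rk : V → ℕ
  hrk : ∀ x y, A x y → rk x < rk y
  fin : Finite V

/-- no proper colouring with `n` colours -/
def Chr (D : Dg) (n : ℕ) : Prop := ∀ c : D.V → Fin n, ∃ x y, D.A x y ∧ c x = c y

/-- sets with at most `s` vertices are bipartite -/
def Bip (D : Dg) (s : ℕ) : Prop := ∀ F : Finset D.V, F.card ≤ s →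
  ∃ c : D.V → Bool, ∀ x ∈ F, ∀ y ∈ F, D.A x y → c x ≠ c y

theorem Chr.of_card {D : Dg} {n : ℕ} (h : Chr D n) {C : Type*} [Finite C] (hC : Nat.card C ≤ n)
    (c : D.V → C) : ∃ x y, D.A x y ∧ c x = c y := by
  have e := Finite.equivFin C
  obtain ⟨x, y, hxy, hc⟩ := h fun v => Fin.castLE hC (e (c v))
  exact ⟨x, y, hxy, e.injective (Fin.castLE_injective hC hc)⟩

theorem Chr.mono {D : Dg} {n m : ℕ} (h : Chr D n) (hm : m ≤ n) : Chr D m := fun c =>
  h.of_card (by rw [Nat.card_eq_fintype_card, Fintype.card_fin]; exact hm) c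

theorem Bip.mono {D : Dg} {n m : ℕ} (h : Bip D n) (hm : m ≤ n) : Bip D m := fun F hF =>
  h F (hF.trans hm)

theorem Dg.irrefl (D : Dg) (x : D.V) : ¬ D.A x x := fun h => lt_irrefl _ (D.hrk x x h)

/-- the digraph of arcs -/
def arc (D : Dg) : Dg where
  V := {p : D.V × D.V // D.A p.1 p.2}
  A p q := p.1.2 = q.1.1
  rk p := D.rk p.1.1
  hrk p q h := by
    rw [← h]
    exact D.hrk _ _ p.2
  fin := by
    have := D.fin
    infer_instance

theorem chr_arc {D : Dg} {n : ℕ} (h : Chr D (2 ^ n)) : Chr (arc D) n := by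
  classical
  intro c
  obtain ⟨x, y, hxy, he⟩ := h.of_card (C := Finset (Fin n)) (by simp)
    (fun v => Finset.univ.filter fun k => ∃ (w : D.V) (hw : D.A v w), c ⟨(v, w), hw⟩ = k)
  have h1 : c ⟨(x, y), hxy⟩ ∈ Finset.univ.filter fun k => ∃ (w : D.V) (hw : D.A x w),
      c ⟨(x, w), hw⟩ = k := by
    rw [Finset.mem_filter]
    exact ⟨Finset.mem_univ _, y, hxy, rfl⟩
  rw [he, Finset.mem_filter] at h1
  obtain ⟨-, w, hw, hc⟩ := h1
  exact ⟨⟨(x, y), hxy⟩, ⟨(y, w), hw⟩, rfl, hc.symm⟩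

theorem bip_arc {D : Dg} {s : ℕ} (h : Bip D s) : Bip (arc D) (s + 1) := by
  classical
  intro F hF
  rcases F.eq_empty_or_nonempty with rfl | hne
  · exact ⟨fun _ => true, fun x hx => absurd hx (Finset.notMem_empty x)⟩
  obtain ⟨a₀, ha₀, hmin⟩ := F.exists_min_image (arc D).rk hne
  set M : Finset D.V := ((F.erase a₀).image fun a => a.1.1).filter
    fun v => ∃ a ∈ F, a.1.2 = v with hM
  have hMc : M.card ≤ s := by
    calc M.card ≤ ((F.erase a₀).image fun a => a.1.1).card := Finset.card_filter_le _ _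
      _ ≤ (F.erase a₀).card := Finset.card_image_le
      _ ≤ s := by rw [Finset.card_erase_of_mem ha₀]; omega
  have hmid : ∀ a ∈ F, ∀ b ∈ F, a.1.2 = b.1.1 → b.1.1 ∈ M := by
    intro a ha b hb hab
    rw [hM, Finset.mem_filter]
    refine ⟨?_, a, ha, hab⟩
    rw [Finset.mem_image]
    refine ⟨b, ?_, rfl⟩
    rw [Finset.mem_erase]
    refine ⟨?_, hb⟩
    rintro rfl
    have h1 := hmin a ha
    have h2 := (arc D).hrk a b hab
    omega
  obtain ⟨c, hc⟩ := h M hMc
  refine ⟨fun a => if a.1.2 ∈ M then c a.1.2 else !(c a.1.1), ?_⟩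
  intro a ha b hb hab
  have hv := hmid a ha b hb hab
  have hab' : a.1.2 = b.1.1 := hab
  have ha' : a.1.2 ∈ M := by rw [hab']; exact hv
  change (if a.1.2 ∈ M then c a.1.2 else !(c a.1.1)) ≠ (if b.1.2 ∈ M then c b.1.2 else !(c b.1.1))
  rw [if_pos ha', hab']
  by_cases hb2 : b.1.2 ∈ M
  · rw [if_pos hb2]
    exact hc _ hv _ hb2 b.2
  · rw [if_neg hb2]
    cases c b.1.1 <;> simp

theorem exists_dg (s : ℕ) : ∀ n : ℕ, ∃ D : Dg, Chr D n ∧ Bip D (s + 1) := by
  induction s with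
  | zero =>
    intro n
    refine ⟨⟨Fin (n + 1), fun x y => x < y, fun x => x, fun x y h => h, inferInstance⟩, ?_, ?_⟩
    · intro c
      obtain ⟨x, y, hxy, hc⟩ := Fintype.exists_ne_map_eq_of_card_lt c (by simp)
      rcases lt_or_gt_of_ne hxy with h | h
      · exact ⟨x, y, h, hc⟩
      · exact ⟨y, x, h, hc.symm⟩
    · intro F hF
      refine ⟨fun _ => true, ?_⟩
      intro x hx y hy hxy
      rw [Finset.card_le_one] at hF
      rw [hF x (by simpa using hx) y (by simpa using hy)] at hxy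
      exact absurd hxy (lt_irrefl _)
  | succ s ih =>
    intro n
    obtain ⟨D, h1, h2⟩ := ih (2 ^ n)
    exact ⟨arc D, chr_arc h1, bip_arc h2⟩

theorem exists_dg' (B : ℕ) : ∃ D : Dg, Chr D B ∧ Bip D B := by
  obtain ⟨D, h1, h2⟩ := exists_dg B B
  exact ⟨D, h1, h2.mono (Nat.le_succ B)⟩

end Pool.Agent.helper45.Sem
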