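import Mathlib
import Pool.Agent.helper45.Inc.Rees
import Pool.Agent.helper45.Sem.Inst

/-!
# The semilattice of a linear system of triples
-/

universe u v

open Pool.Agent.helper9.Incl Pool.Agent.helper45.Inc

namespace Pool.Agent.helper45.Sem

/-- the letter `a` occurs in `w` -/
def oc {α : Type v} (w : FreeSemigroup α) (a : α) : Prop := a = w.head ∨ a ∈ w.tail

section
variable {α : Type v}

theorem oc_of {y a : α} : oc (FreeSemigroup.of y) a ↔ a = y := by
  simp [oc]

theorem oc_mul {x y : FreeSemigroup α} {a : α} : oc (x * y) a ↔ oc x a ∨ oc y a := by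
  simp only [oc, FreeSemigroup.head_mul, FreeSemigroup.tail_mul, List.mem_append, List.mem_cons]
  tauto

theorem oc_head (w : FreeSemigroup α) : oc w w.head := Or.inl rfl

theorem oc_absorb {T : Type u} [Semigroup T] (hc : ∀ x y : T, x * y = y * x)
    (hi : ∀ x : T, x * x = x) (φ : FreeSemigroup α →ₙ* T) (w : FreeSemigroup α) (a : α)
    (ha : oc w a) : φ (FreeSemigroup.of a) * φ w = φ w := by
  induction w using FreeSemigroup.recOnMul with
  | ih1 x => rw [oc_of] at ha; rw [ha, hi]
  | ih2 x y hx hy =>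
    rw [oc_mul] at ha
    rw [map_mul]
    rcases ha with ha | ha
    · rw [← mul_assoc, hx ha]
    · rw [← mul_assoc, hc _ (φ (FreeSemigroup.of x)), mul_assoc, hy ha]

theorem oc_absorb' {T : Type u} [Semigroup T] (φ : FreeSemigroup α →ₙ* T) (t : T)
    (w : FreeSemigroup α) (h : ∀ a, oc w a → φ (FreeSemigroup.of a) * t = t) : φ w * t = t := by
  induction w using FreeSemigroup.recOnMul with
  | ih1 x => exact h x (oc_of.mpr rfl)
  | ih2 x y hx hy =>
    rw [map_mul, mul_assoc, hy fun a ha => h a (oc_mul.mpr (Or.inr ha))]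
    exact hx fun a ha => h a (oc_mul.mpr (Or.inl ha))

theorem oc_lift {β : Type v} (ω : β → FreeSemigroup α) (w : FreeSemigroup β) (a : α) :
    oc (FreeSemigroup.lift ω w) a ↔ ∃ b, oc w b ∧ oc (ω b) a := by
  induction w using FreeSemigroup.recOnMul with
  | ih1 x =>
    rw [FreeSemigroup.lift_of]
    constructor
    · intro h; exact ⟨x, oc_of.mpr rfl, h⟩
    · rintro ⟨b, hb, h⟩
      rw [oc_of] at hb
      rw [← hb]; exact h
  | ih2 x y hx hy =>
    rw [map_mul, oc_mul, hx, hy]
    constructor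
    · rintro (⟨b, hb, h⟩ | ⟨b, hb, h⟩)
      · exact ⟨b, oc_mul.mpr (Or.inl hb), h⟩
      · exact ⟨b, oc_mul.mpr (Or.inr hb), h⟩
    · rintro ⟨b, hb, h⟩
      rcases oc_mul.mp hb with hb | hb
      · exact Or.inl ⟨b, hb, h⟩
      · exact Or.inr ⟨b, hb, h⟩

end

variable {K : Inst}

/-- the facets containing all letters of `w` -/
def ev (w : FreeSemigroup (Vt K)) : Set (Ft K) := {F | ∀ v, oc w v → inc v F}

theorem ev_mul (x y : FreeSemigroup (Vt K)) : ev (x * y) = ev x ∩ ev y := by
  ext F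
  constructor
  · intro h
    exact ⟨fun v hv => h v (oc_mul.mpr (Or.inl hv)), fun v hv => h v (oc_mul.mpr (Or.inr hv))⟩
  · rintro ⟨h1, h2⟩ v hv
    rcases oc_mul.mp hv with hv | hv
    · exact h1 v hv
    · exact h2 v hv

/-- the semilattice of the intersections of the sets of facets through vertices -/
inductive IS (K : Inst) : Type u
  | mk (A : Set (Ft K)) (h : ∃ w : FreeSemigroup (Vt K), ev w = A) : IS K

namespace IS

/-- the set of facets -/
def A : IS.{u} K → Set (Ft K)
  | .mk A _ => A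

theorem ex (x : IS.{u} K) : ∃ w, ev w = x.A := by
  obtain ⟨A, h⟩ := x
  exact h

theorem ext {x y : IS.{u} K} (h : x.A = y.A) : x = y := by
  obtain ⟨A, hA⟩ := x
  obtain ⟨B, hB⟩ := y
  change A = B at h
  subst h
  rfl

instance : Mul (IS.{u} K) where
  mul x y := .mk (x.A ∩ y.A) (by
    obtain ⟨a, ha⟩ := x.ex
    obtain ⟨b, hb⟩ := y.ex
    exact ⟨a * b, by rw [ev_mul, ha, hb]⟩)

theorem mul_A (x y : IS.{u} K) : (x * y).A = x.A ∩ y.A := rfl

instance : Semigroup (IS.{u} K) where
  mul_assoc x y z := ext (by rw [mul_A, mul_A, mul_A, mul_A, Set.inter_assoc])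

/-- the image of a vertex -/
def vt (v : Vt K) : IS.{u} K := .mk (ev (FreeSemigroup.of v)) ⟨_, rfl⟩

theorem vt_A (v : Vt K) : (vt v : IS.{u} K).A = {F | inc v F} := by
  ext F
  change (∀ w, oc (FreeSemigroup.of v) w → inc w F) ↔ inc v F
  simp [oc_of]

end IS

/-- evaluation of words -/
theorem ev_eval (φ : Word →ₙ* IS.{u} K) (ω : ℕ → FreeSemigroup (Vt K))
    (hω : ∀ y, ev (ω y) = (φ (FreeSemigroup.of y)).A) (w : Word) :
    (φ w).A = ev (FreeSemigroup.lift ω w) := by
  induction w using FreeSemigroup.recOnMul with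
  | ih1 x => rw [FreeSemigroup.lift_of, hω]
  | ih2 x y hx hy => rw [map_mul, map_mul, IS.mul_A, hx, hy, ev_mul]

/-- a facet has three vertices, two of which lie in no other facet -/
theorem free_pair (hL : Lin K) (F : Ft K) : ∃ p q r : Vt K,
    (∀ v, inc v F → v = p ∨ v = q ∨ v = r) ∧
    ∀ F' : Ft K, inc p F' → inc q F' → F' = F := by
  rcases ft_cases F with ⟨e, rfl⟩ | ⟨x, l, k, h, hl, rfl⟩
  · refine ⟨.inr (K.tri e 0), .inr (K.tri e 1), .inr (K.tri e 2), ?_, ?_⟩
    · intro v hv
      rw [inc_e] at hv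
      obtain ⟨i, rfl⟩ := hv
      fin_cases i
      · exact Or.inl rfl
      · exact Or.inr (Or.inl rfl)
      · exact Or.inr (Or.inr rfl)
    · intro F' h1 h2
      obtain ⟨-, -, huniq⟩ := uniq_e hL (x := K.tri e 0) (y := K.tri e 1)
        (fun h => absurd (hL.inj e h) (by decide)) (F := .inl e) ⟨0, rfl⟩ ⟨1, rfl⟩
      exact huniq F' h1 h2
  · refine ⟨.inl l, .inr x, .inl k, ?_, ?_⟩
    · intro v hv
      rw [inc_gd] at hv
      tauto
    · intro F' h1 h2
      obtain ⟨k', hk', h3⟩ := uniq_g h1 h2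
      rw [h] at hk'
      cases hk'
      exact h3 hl h hl

/-- a nonempty intersection is an intersection of two members -/
theorem two_letters (hL : Lin K) (ω : ℕ → FreeSemigroup (Vt K)) (u : Word)
    (hne : (ev (FreeSemigroup.lift ω u)).Nonempty) :
    ∃ y₁ y₂, oc u y₁ ∧ oc u y₂ ∧ ev (ω y₁) ∩ ev (ω y₂) ⊆ ev (FreeSemigroup.lift ω u) := by
  obtain ⟨F₀, hF₀⟩ := hne
  obtain ⟨p, q, r, hall, hfree⟩ := free_pair hL F₀
  have sub : ∀ a b : Vt K, (∀ v, oc (FreeSemigroup.lift ω u) v → v = a ∨ v = b) →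
      ∃ y₁ y₂, oc u y₁ ∧ oc u y₂ ∧ ev (ω y₁) ∩ ev (ω y₂) ⊆ ev (FreeSemigroup.lift ω u) := by
    intro a b hab
    by_cases ha : oc (FreeSemigroup.lift ω u) a
    · by_cases hb : oc (FreeSemigroup.lift ω u) b
      · obtain ⟨y₁, h1, h1'⟩ := (oc_lift ω u a).mp ha
        obtain ⟨y₂, h2, h2'⟩ := (oc_lift ω u b).mp hb
        refine ⟨y₁, y₂, h1, h2, ?_⟩
        rintro F ⟨hF1, hF2⟩ v hv
        rcases hab v hv with rfl | rfl
        · exact hF1 _ h1'
        · exact hF2 _ h2'
      · refine ⟨u.head, u.head, oc_head u, oc_head u, ?_⟩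
        rintro F ⟨hF1, -⟩ v hv
        have h1 : v = a := by
          rcases hab v hv with h | h
          · exact h
          · rw [h] at hv; exact absurd hv hb
        have h2 : (ω u.head).head = a := by
          have h3 := (oc_lift ω u _).mpr ⟨u.head, oc_head u, oc_head (ω u.head)⟩
          rcases hab _ h3 with h | h
          · exact h
          · rw [h] at h3; exact absurd h3 hb
        rw [h1, ← h2]
        exact hF1 _ (oc_head _)
    · refine ⟨u.head, u.head, oc_head u, oc_head u, ?_⟩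
      rintro F ⟨hF1, -⟩ v hv
      have h1 : v = b := by
        rcases hab v hv with h | h
        · rw [h] at hv; exact absurd hv ha
        · exact h
      have h2 : (ω u.head).head = b := by
        have h3 := (oc_lift ω u _).mpr ⟨u.head, oc_head u, oc_head (ω u.head)⟩
        rcases hab _ h3 with h | h
        · rw [h] at h3; exact absurd h3 ha
        · exact h
      rw [h1, ← h2]
      exact hF1 _ (oc_head _)
  by_cases hp : oc (FreeSemigroup.lift ω u) p
  · by_cases hq : oc (FreeSemigroup.lift ω u) q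
    · obtain ⟨y₁, h1, h1'⟩ := (oc_lift ω u p).mp hp
      obtain ⟨y₂, h2, h2'⟩ := (oc_lift ω u q).mp hq
      refine ⟨y₁, y₂, h1, h2, ?_⟩
      rintro F ⟨hF1, hF2⟩
      rw [hfree F (hF1 _ h1') (hF2 _ h2')]
      exact hF₀
    · apply sub p r
      intro v hv
      rcases hall v (hF₀ v hv) with h | h | h
      · exact Or.inl h
      · rw [h] at hv; exact absurd hv hq
      · exact Or.inr h
  · apply sub q r
    intro v hv
    rcases hall v (hF₀ v hv) with h | h | h
    · rw [h] at hv; exact absurd hv hp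
    · exact Or.inl h
    · exact Or.inr h

end Pool.Agent.helper45.Sem
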