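import Mathlib
import Pool.Agent.helper45.Sem.Fac

/-!
# Semilattices of linear systems as members of an inclusive variety
-/

universe u v

open Pool.Agent.helper9.Incl Pool.Agent.helper45.Inc

namespace Pool.Agent.helper45.Sem

/-- the class of semilattices -/
def IsSL (S : Type u) [Semigroup S] : Prop := (∀ x y : S, x * y = y * x) ∧ ∀ x : S, x * x = x

/-- three elements above their product, the products of two of them being different from it -/
structure Hol {T : Type u} [Semigroup T] (c : Fin 3 → T) (t : T) : Prop where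
  sl : IsSL T
  prod : c 0 * c 1 * c 2 = t
  ne : ∀ k l, k ≠ l → c k * c l ≠ t

/-- two elements with product `t` and a third one whose products with them are not `t` -/
structure N2 {T : Type u} [Semigroup T] (x y z t : T) : Prop where
  sl : IsSL T
  prod : x * z = t
  ge : y * t = t
  ne1 : x * y ≠ t
  ne2 : y * z ≠ t

section
variable {T : Type u} [Semigroup T]

theorem Hol.ge {c : Fin 3 → T} {t : T} (h : Hol c t) (k : Fin 3) : c k * t = t := by
  obtain ⟨⟨hc, hi⟩, hp, -⟩ := h
  have h0 : c 0 * t = t := by rw [← hp, ← mul_assoc, ← mul_assoc, hi]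
  have h2 : c 2 * t = t := by rw [← hp, hc, mul_assoc, hi]
  have h1 : c 1 * t = t := by
    rw [← hp, hc (c 0) (c 1), ← mul_assoc, ← mul_assoc, hi]
  fin_cases k
  · exact h0
  · exact h1
  · exact h2

theorem Hol.ge2 {c : Fin 3 → T} {t : T} (h : Hol c t) (k l : Fin 3) : c k * c l * t = t := by
  rw [mul_assoc, h.ge, h.ge]

/-- an element absorbed by all three is absorbed by `t` -/
theorem Hol.absorb {c : Fin 3 → T} {t : T} (h : Hol c t) {p : T} (hp : ∀ k, c k * p = p) :
    t * p = p := by
  rw [← h.prod, mul_assoc, hp, mul_assoc, hp, hp]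

theorem third' (k : Fin 3) : ∃ l m, l ≠ m ∧ ∀ j, j ≠ k → j = l ∨ j = m := by
  revert k; decide

end

variable {K : Inst}

/-- words over the vertices evaluated in a semilattice -/
theorem case1 {V : SgClass.{u}} {S : Type u} [Semigroup S] (hS : V S) (hsl : IsSL S) {t : S}
    (f : Vt K → S) (hf : ∀ v, f v * t = t)
    (hF : ∀ F : Ft K, ∃ s, s ≠ t ∧ s * t = t ∧ ∀ v, inc v F → f v * s = s)
    (ω : ℕ → FreeSemigroup (Vt K)) (u : Word)
    (hu : t * FreeSemigroup.lift f (FreeSemigroup.lift ω u) =
      FreeSemigroup.lift f (FreeSemigroup.lift ω u)) :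
    ∃ (S : Type u) (_ : Semigroup S), V S ∧ ∃ ψ : Word →ₙ* S, ∀ w, ψ u = ψ w →
      ev (FreeSemigroup.lift ω w) = (∅ : Set (Ft K)) := by
  refine ⟨S, inferInstance, hS, (FreeSemigroup.lift f).comp (FreeSemigroup.lift ω), ?_⟩
  intro w hw
  rw [MulHom.comp_apply, MulHom.comp_apply] at hw
  have h1 : FreeSemigroup.lift f (FreeSemigroup.lift ω u) * t = t :=
    oc_absorb' _ _ _ fun v _ => by rw [FreeSemigroup.lift_of]; exact hf v
  rw [hsl.1, hu] at h1
  rw [h1] at hw
  rw [Set.eq_empty_iff_forall_notMem]
  intro F hFw
  obtain ⟨s, hst, hs, hsF⟩ := hF F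
  apply hst
  have h2 : FreeSemigroup.lift f (FreeSemigroup.lift ω w) * s = s :=
    oc_absorb' _ _ _ fun v hv => by rw [FreeSemigroup.lift_of]; exact hsF v (hFw v hv)
  rw [← hw, hsl.1, hs] at h2
  exact h2.symm

/-- the point `t` is reached if the three values occur -/
theorem reach {T : Type u} [Semigroup T] {c : Fin 3 → T} {t : T} (h : Hol c t) (f : Vt K → T)
    (U : FreeSemigroup (Vt K)) (hU : ∀ k, ∃ v, oc U v ∧ f v = c k) :
    t * FreeSemigroup.lift f U = FreeSemigroup.lift f U := by
  apply h.absorb
  intro k
  obtain ⟨v, hv, hk⟩ := hU k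
  have := oc_absorb h.sl.1 h.sl.2 (FreeSemigroup.lift f) U v hv
  rw [FreeSemigroup.lift_of, hk] at this
  exact this

/-- a facet missing a colour -/
theorem miss_s {T : Type u} [Semigroup T] {c : Fin 3 → T} {t : T} (h : Hol c t)
    {χ : Vt K → Fin 3} (hχ : Miss χ) (F : Ft K) : ∃ s, s ≠ t ∧ s * t = t ∧
      ∀ v, inc v F → c (χ v) * s = s := by
  obtain ⟨k, hk⟩ := hχ F
  obtain ⟨l, m, hlm, hall⟩ := third' k
  refine ⟨c l * c m, h.ne l m hlm, h.ge2 l m, ?_⟩
  intro v hv
  rcases hall _ (hk v hv) with h1 | h1
  · rw [h1, ← mul_assoc, h.sl.2]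
  · rw [h1, h.sl.1 (c l), ← mul_assoc, h.sl.2]

/-- **Membership.** -/
theorem mem_IS {V : SgClass.{u}} (hV : IsInclVariety V) {T : Type u} [Semigroup T] (hT : V T)
    {c : Fin 3 → T} {t : T} (h : Hol c t) {T₂ : Type u} [Semigroup T₂] (hT₂ : V T₂)
    {x y z t₂ r : T₂} (h2 : N2 x y z t₂) (hr : r * t₂ ≠ t₂) (hL : Lin K) (hC : CP K)
    (π : K.V → T) (hπt : ∀ v, π v * t = t) (hπp : ∀ v k, K.pr v = some k → π v = c k)
    (hπe : ∀ e, π (K.tri e 0) * π (K.tri e 1) * π (K.tri e 2) ≠ t) : V (IS.{u} K) := by
  classical
  apply mem_of_div hV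
  intro u φ
  choose ω hω using fun y => (φ (FreeSemigroup.of y)).ex
  have hev := ev_eval φ ω hω
  obtain ⟨hc2, hi2⟩ := h2.sl
  have hxt : x * t₂ = t₂ := by rw [← h2.prod, ← mul_assoc, hi2]
  have hzt : z * t₂ = t₂ := by rw [← h2.prod, hc2 x, ← mul_assoc, hi2]
  have hyt : y ≠ t₂ := by
    intro hy
    apply h2.ne1
    rw [hy, hxt]
  have hxn : x ≠ t₂ := by
    intro hx
    apply h2.ne1
    rw [hx, hc2, h2.ge]
  have hzn : z ≠ t₂ := by
    intro hz
    apply h2.ne2
    rw [hz, h2.ge]
  by_cases hu : ev (FreeSemigroup.lift ω u) = ∅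
  · suffices hs : ∃ (S : Type u) (_ : Semigroup S), V S ∧ ∃ ψ : Word →ₙ* S, ∀ w, ψ u = ψ w →
        ev (FreeSemigroup.lift ω w) = (∅ : Set (Ft K)) by
      obtain ⟨S, iS, hS, ψ, hψ⟩ := hs
      refine ⟨S, iS, hS, ψ, ?_⟩
      intro w hw
      apply IS.ext
      rw [hev, hev, hu, hψ w hw]
    set U := FreeSemigroup.lift ω u with hU
    have hnf := nonface hL hC {v | oc U v} ⟨_, oc_head U⟩ (by
      rintro ⟨F, hF⟩
      have : F ∈ ev U := hF
      rw [hu] at this
      exact this)
    rcases hnf with ⟨p, hp, q, hq, hpq⟩ | ⟨a, b, e, v₀, ha, hb, hab, hae, hbe, hv₀, hve⟩ | hδ |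
      ⟨a, k, hk, ha, hal⟩
    · by_cases hpq' : p = q
      · subst hpq'
        apply case1 hT₂ h2.sl (t := t₂) (fun v => if v = p then t₂ else y) ?_ ?_ ω u ?_
        · intro v
          split_ifs
          · exact hi2 _
          · exact h2.ge
        · intro F
          refine ⟨y, hyt, h2.ge, ?_⟩
          intro v hv
          rw [if_neg, hi2]
          rintro rfl
          exact hpq ⟨F, hv, hv⟩
        · have := oc_absorb hc2 hi2 (FreeSemigroup.lift fun v => if v = p then t₂ else y) U p hp
          rw [FreeSemigroup.lift_of, if_pos rfl] at this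
          exact this
      · apply case1 hT₂ h2.sl (t := t₂) (fun v => if v = p then x else if v = q then z else y)
          ?_ ?_ ω u ?_
        · intro v
          split_ifs
          · exact hxt
          · exact hzt
          · exact h2.ge
        · intro F
          by_cases hpF : inc p F
          · have hqF : ¬ inc q F := fun hq => hpq ⟨F, hpF, hq⟩
            refine ⟨x * y, h2.ne1, by rw [mul_assoc, h2.ge, hxt], ?_⟩
            intro v hv
            split_ifs with h3 h4
            · rw [← mul_assoc, hi2]
            · rw [h4] at hv; exact absurd hv hqF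
            · rw [hc2 x, ← mul_assoc, hi2]
          · refine ⟨y * z, h2.ne2, by rw [mul_assoc, hzt, h2.ge], ?_⟩
            intro v hv
            split_ifs with h3 h4
            · rw [h3] at hv; exact absurd hv hpF
            · rw [hc2 y, ← mul_assoc, hi2]
            · rw [← mul_assoc, hi2]
        · set f : Vt K → T₂ := fun v => if v = p then x else if v = q then z else y with hf
          have h3 := oc_absorb hc2 hi2 (FreeSemigroup.lift f) U p hp
          have h4 := oc_absorb hc2 hi2 (FreeSemigroup.lift f) U q hq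
          rw [FreeSemigroup.lift_of] at h3 h4
          have h5 : f p = x := by rw [hf]; exact if_pos rfl
          have h6 : f q = z := by
            rw [hf]
            change (if q = p then x else if q = q then z else y) = z
            rw [if_neg (Ne.symm hpq'), if_pos rfl]
          rw [h5] at h3
          rw [h6] at h4
          rw [← h2.prod, mul_assoc, h4, h3]
    · apply case1 hT h.sl (t := t) (fun v => c (colE b e v)) (fun v => h.ge _) ?_ ω u ?_
      · exact miss_s h (miss_colE hL hbe)
      · apply reach h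
        intro k
        fin_cases k
        · refine ⟨.inr a, ha, ?_⟩
          change c (colE b e (.inr a)) = c 0
          unfold colE
          rw [if_neg (fun h => hab (Sum.inr_injective h)), if_pos hae]
        · refine ⟨.inr b, hb, ?_⟩
          change c (colE b e (.inr b)) = c 1
          unfold colE
          rw [if_pos rfl]
        · refine ⟨v₀, hv₀, ?_⟩
          change c (colE b e v₀) = c 2
          unfold colE
          rw [if_neg, if_neg hve]
          rintro rfl
          exact hve hbe
    all_goals
      set f : Vt K → T := fun v => Sum.elim c π v with hf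
      have hfF : ∀ F : Ft K, ∃ s, s ≠ t ∧ s * t = t ∧ ∀ v, inc v F → f v * s = s := by
        intro F
        rcases ft_cases F with ⟨e, rfl⟩ | ⟨a, l, k, hk, hl, rfl⟩
        · refine ⟨_, hπe e, by rw [mul_assoc, hπt, mul_assoc, hπt, hπt], ?_⟩
          intro v hv
          rw [inc_e] at hv
          obtain ⟨i, rfl⟩ := hv
          change π (K.tri e i) * _ = _
          have hc := h.sl.1
          have hi := h.sl.2
          fin_cases i
          · change π (K.tri e 0) * _ = _
            rw [← mul_assoc, ← mul_assoc, hi]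
          · change π (K.tri e 1) * _ = _
            rw [hc (π (K.tri e 0)) (π (K.tri e 1)), ← mul_assoc, ← mul_assoc, hi]
          · change π (K.tri e 2) * _ = _
            rw [hc _ (π (K.tri e 2)), ← mul_assoc, hi]
        · refine ⟨c l * c k, h.ne l k hl, h.ge2 l k, ?_⟩
          intro v hv
          rw [inc_gd] at hv
          rcases hv with rfl | rfl | rfl
          · change c l * _ = _
            rw [← mul_assoc, h.sl.2]
          · change c k * _ = _
            rw [h.sl.1 (c l), ← mul_assoc, h.sl.2]
          · change π a * _ = _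
            rw [hπp a k hk, h.sl.1 (c l), ← mul_assoc, h.sl.2]
      apply case1 hT h.sl (t := t) f ?_ hfF ω u (reach h f U ?_)
      · intro v
        rcases v with k' | a'
        · exact h.ge k'
        · exact hπt a'
    · intro k
      exact ⟨.inl k, hδ k, rfl⟩
    · intro l
      by_cases hlk : l = k
      · subst hlk
        exact ⟨.inr a, ha, hπp a l hk⟩
      · exact ⟨.inl l, hal l hlk, rfl⟩
  · obtain ⟨y₁, y₂, h1, h1', hsub⟩ := two_letters hL ω u (Set.nonempty_iff_ne_empty.mpr hu)
    set t' := ev (FreeSemigroup.lift ω u) with ht'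
    have hsup : ∀ w : Word, ∀ y, oc w y → ev (FreeSemigroup.lift ω w) ⊆ ev (ω y) := by
      intro w y hy F hF v hv
      exact hF v ((oc_lift ω w v).mpr ⟨y, hy, hv⟩)
    set θ : ℕ → T₂ := fun y' => if ¬ t' ⊆ ev (ω y') then r else if ev (ω y') = t' then t₂ else
      if ev (ω y') = ev (ω y₁) then x else if ev (ω y') = ev (ω y₂) then z else y with hθ
    refine ⟨T₂, inferInstance, hT₂, FreeSemigroup.lift θ, ?_⟩
    have hgood : ∀ y', t' ⊆ ev (ω y') → θ y' * t₂ = t₂ := by
      intro y' hy'
      rw [hθ]
      change (if ¬ t' ⊆ ev (ω y') then r else _) * t₂ = t₂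
      rw [if_neg (not_not.mpr hy')]
      split_ifs
      · exact hi2 _
      · exact hxt
      · exact hzt
      · exact h2.ge
    have hval : FreeSemigroup.lift θ u = t₂ := by
      have h3 : FreeSemigroup.lift θ u * t₂ = t₂ := by
        apply oc_absorb'
        intro y' hy'
        rw [FreeSemigroup.lift_of]
        exact hgood y' (hsup u y' hy')
      have h4 : t₂ * FreeSemigroup.lift θ u = FreeSemigroup.lift θ u := by
        have e1 := oc_absorb hc2 hi2 (FreeSemigroup.lift θ) u y₁ h1
        have e2 := oc_absorb hc2 hi2 (FreeSemigroup.lift θ) u y₂ h1'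
        rw [FreeSemigroup.lift_of] at e1 e2
        have g1 : θ y₁ = if ev (ω y₁) = t' then t₂ else x := by
          rw [hθ]
          change (if ¬ t' ⊆ ev (ω y₁) then r else _) = _
          rw [if_neg (not_not.mpr (hsup u y₁ h1)), if_pos rfl]
        have g2 : ev (ω y₁) ≠ t' → θ y₂ = if ev (ω y₂) = t' then t₂ else z := by
          intro hne
          rw [hθ]
          change (if ¬ t' ⊆ ev (ω y₂) then r else _) = _
          rw [if_neg (not_not.mpr (hsup u y₂ h1'))]
          by_cases h5 : ev (ω y₂) = t'
          · rw [if_pos h5, if_pos h5]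
          · rw [if_neg h5, if_neg h5, if_neg, if_pos rfl]
            intro h6
            apply hne
            apply Set.Subset.antisymm _ (hsup u y₁ h1)
            intro F hF
            exact hsub ⟨hF, by rw [h6]; exact hF⟩
        by_cases h5 : ev (ω y₁) = t'
        · rw [g1, if_pos h5] at e1
          exact e1
        · by_cases h6 : ev (ω y₂) = t'
          · rw [g2 h5, if_pos h6] at e2
            exact e2
          · rw [g1, if_neg h5] at e1
            rw [g2 h5, if_neg h6] at e2
            rw [← h2.prod, mul_assoc, e2, e1]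
      rw [hc2, h3] at h4
      exact h4.symm
    intro w hw
    rw [hval] at hw
    have hall : ∀ y', oc w y' → t' ⊆ ev (ω y') := by
      intro y' hy'
      by_contra hcon
      have e1 := oc_absorb hc2 hi2 (FreeSemigroup.lift θ) w y' hy'
      rw [FreeSemigroup.lift_of, ← hw] at e1
      have g1 : θ y' = r := by
        rw [hθ]
        change (if ¬ t' ⊆ ev (ω y') then r else _) = _
        rw [if_pos hcon]
      rw [g1] at e1
      exact hr e1
    have hle : t' ⊆ ev (FreeSemigroup.lift ω w) := by
      intro F hF v hv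
      obtain ⟨y', hy', hv'⟩ := (oc_lift ω w v).mp hv
      exact hall y' hy' hF v hv'
    apply IS.ext
    rw [hev, hev]
    apply Set.Subset.antisymm hle
    by_cases hex : ∃ y', oc w y' ∧ ev (ω y') = t'
    · obtain ⟨y', hy', he⟩ := hex
      rw [← he]
      exact hsup w y' hy'
    · push Not at hex
      have hne1 : ∃ y', oc w y' ∧ ev (ω y') = ev (ω y₁) := by
        by_contra hcon
        push Not at hcon
        have e1 : FreeSemigroup.lift θ w * (y * z) = y * z := by
          apply oc_absorb'
          intro y' hy'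
          rw [FreeSemigroup.lift_of, hθ]
          change (if ¬ t' ⊆ ev (ω y') then r else _) * _ = _
          rw [if_neg (not_not.mpr (hall y' hy')), if_neg (hex y' hy'), if_neg (hcon y' hy')]
          split_ifs
          · rw [hc2 y, ← mul_assoc, hi2]
          · rw [← mul_assoc, hi2]
        rw [← hw] at e1
        apply h2.ne2
        rw [← e1, hc2, mul_assoc, hzt, h2.ge]
      have hne2 : ∃ y', oc w y' ∧ ev (ω y') = ev (ω y₂) := by
        by_contra hcon
        push Not at hcon
        have e1 : FreeSemigroup.lift θ w * (x * y) = x * y := by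
          apply oc_absorb'
          intro y' hy'
          rw [FreeSemigroup.lift_of, hθ]
          change (if ¬ t' ⊆ ev (ω y') then r else _) * _ = _
          rw [if_neg (not_not.mpr (hall y' hy')), if_neg (hex y' hy')]
          rw [if_neg (hcon y' hy')]
          split_ifs
          · rw [← mul_assoc, hi2]
          · rw [hc2 x, ← mul_assoc, hi2]
        rw [← hw] at e1
        apply h2.ne1
        rw [← e1, hc2, mul_assoc, h2.ge, hxt]
      obtain ⟨a, ha, ha'⟩ := hne1
      obtain ⟨b, hb, hb'⟩ := hne2
      intro F hF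
      apply hsub
      exact ⟨by rw [← ha']; exact hsup w a ha hF, by rw [← hb']; exact hsup w b hb hF⟩

end Pool.Agent.helper45.Sem
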