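import Mathlib
import Pool.Agent.helper45.Sem.Mem

/-!
# Inclusions separating the semilattices of linear systems
-/

universe u v

open Pool.Agent.helper9.Incl Pool.Agent.helper45.Inc

namespace Pool.Agent.helper45.Sem

/-- maps of vertices preserving facets such that the constants have no common facet -/
def Mp (K K' : Inst) : Prop := ∃ f : Vt K → Vt K',
  (∀ F : Ft K, ∃ F' : Ft K', ∀ v, inc v F → inc (f v) F') ∧
  ¬ ∃ F' : Ft K', ∀ k : Fin 3, inc (f (.inl k)) F'

theorem fin3_all : ∀ i j m : Fin 3, i ≠ j → i ≠ m → j ≠ m → ∀ a, a = i ∨ a = j ∨ a = m := by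
  decide

theorem fin3_ne : ∀ k l m : Fin 3, l ≠ m → (∀ j, j ≠ k → j = l ∨ j = m) → l ≠ k ∧ m ≠ k := by
  decide

theorem no_const {K : Inst} (F : Ft K) : ¬ ∀ k : Fin 3, inc (.inl k : Vt K) F := by
  intro h
  rcases ft_cases F with ⟨e, rfl⟩ | ⟨x, l, k, hk, hl, rfl⟩
  · exact h 0
  · obtain ⟨m, hm, hml, -⟩ := third hl
    have := h m
    rw [inc_gd] at this
    simp only [Sum.inl.injEq, reduceCtorEq, or_false] at this
    rcases this with h1 | h1
    · exact hml h1
    · exact hm h1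

theorem three {K : Inst} (F : Ft K) : ∃ p q r : Vt K, inc p F ∧ inc q F ∧ inc r F ∧
    ∀ v, inc v F → v = p ∨ v = q ∨ v = r := by
  rcases ft_cases F with ⟨e, rfl⟩ | ⟨x, l, k, h, hl, rfl⟩
  · refine ⟨.inr (K.tri e 0), .inr (K.tri e 1), .inr (K.tri e 2), ⟨0, rfl⟩, ⟨1, rfl⟩, ⟨2, rfl⟩, ?_⟩
    intro v hv
    rw [inc_e] at hv
    obtain ⟨i, rfl⟩ := hv
    fin_cases i
    · exact Or.inl rfl
    · exact Or.inr (Or.inl rfl)
    · exact Or.inr (Or.inr rfl)
  · refine ⟨.inl l, .inl k, .inr x, ?_, ?_, ?_, ?_⟩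
    · rw [inc_gd]; exact Or.inl rfl
    · rw [inc_gd]; exact Or.inr (Or.inl rfl)
    · rw [inc_gd]; exact Or.inr (Or.inr rfl)
    · intro v hv
      rwa [inc_gd] at hv

theorem kernel (K : Inst) (hC : CP K) : ∃ (u : Word) (φ : Word →ₙ* IS.{u} K), ∀ K' : Inst,
    Lin K' → CP K' → ¬ Mp K K' → ∀ ψ : Word →ₙ* IS.{u} K', ∃ w, ψ u = ψ w ∧ φ u ≠ φ w := by
  classical
  have := K.finV
  obtain ⟨ι, hι⟩ := exists_surjective_nat (Vt K)
  set n : Vt K → ℕ := Function.surjInv hι with hn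
  have hnι : ∀ v, ι (n v) = v := Function.surjInv_eq hι
  refine ⟨FreeSemigroup.of (n (.inl 0)) * FreeSemigroup.of (n (.inl 1)) *
    FreeSemigroup.of (n (.inl 2)), FreeSemigroup.lift fun y => IS.vt (ι y), ?_⟩
  intro K' hL' hC' hM ψ
  set u : Word := FreeSemigroup.of (n (.inl 0)) * FreeSemigroup.of (n (.inl 1)) *
    FreeSemigroup.of (n (.inl 2)) with hu
  set φ : Word →ₙ* IS.{u} K := FreeSemigroup.lift fun y => IS.vt (ι y) with hφ
  by_contra hcon
  push Not at hcon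
  apply hM
  have hφv : ∀ v, (φ (FreeSemigroup.of (n v))).A = {F | inc v F} := by
    intro v
    rw [hφ, FreeSemigroup.lift_of, hnι, IS.vt_A]
  have hφu : (φ u).A = ∅ := by
    rw [Set.eq_empty_iff_forall_notMem]
    intro F hF
    rw [hu, map_mul, map_mul, IS.mul_A, IS.mul_A, hφv, hφv, hφv] at hF
    apply no_const F
    intro k
    fin_cases k
    · exact hF.1.1
    · exact hF.1.2
    · exact hF.2
  choose ω hω using fun y => (ψ (FreeSemigroup.of y)).ex
  have hev := ev_eval ψ ω hω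
  have hlet : ∀ y, oc u y ↔ ∃ k : Fin 3, y = n (.inl k) := by
    intro y
    rw [hu, oc_mul, oc_mul, oc_of, oc_of, oc_of]
    constructor
    · rintro ((h | h) | h)
      · exact ⟨0, h⟩
      · exact ⟨1, h⟩
      · exact ⟨2, h⟩
    · rintro ⟨k, h⟩
      fin_cases k
      · exact Or.inl (Or.inl h)
      · exact Or.inl (Or.inr h)
      · exact Or.inr h
  have hu0 : ev (FreeSemigroup.lift ω u) = ∅ := by
    by_contra hne
    obtain ⟨y₁, y₂, h1, h2, hsub⟩ := two_letters hL' ω u (Set.nonempty_iff_ne_empty.mpr hne)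
    have h3 : ψ u = ψ (FreeSemigroup.of y₁ * FreeSemigroup.of y₂) := by
      apply IS.ext
      have h3' : (ψ (FreeSemigroup.of y₁ * FreeSemigroup.of y₂)).A = ev (ω y₁) ∩ ev (ω y₂) := by
        rw [map_mul, IS.mul_A, ← hω, ← hω]
      rw [h3', hev]
      apply Set.Subset.antisymm _ hsub
      intro F hF
      exact ⟨fun v hv => hF v ((oc_lift ω u v).mpr ⟨y₁, h1, hv⟩),
        fun v hv => hF v ((oc_lift ω u v).mpr ⟨y₂, h2, hv⟩)⟩
    have h4 := congrArg IS.A (hcon _ h3)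
    obtain ⟨k, rfl⟩ := (hlet y₁).mp h1
    obtain ⟨l, rfl⟩ := (hlet y₂).mp h2
    rw [hφu, map_mul, IS.mul_A, hφv, hφv] at h4
    obtain ⟨F, hk, hl⟩ := hC k l
    have h5 : F ∈ ({F | inc (.inl k : Vt K) F} ∩ {F | inc (.inl l : Vt K) F} : Set (Ft K)) :=
      ⟨hk, hl⟩
    rw [← h4] at h5
    exact h5
  have hfac : ∀ F : Ft K, ∃ F' : Ft K', ∀ v, inc v F → ∀ v', oc (ω (n v)) v' → inc v' F' := by
    intro F
    obtain ⟨p, q, r, hp, hq, hr, hall⟩ := three F
    set w : Word := FreeSemigroup.of (n p) * FreeSemigroup.of (n q) * FreeSemigroup.of (n r)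
      with hw
    have h1 : (φ w).A ≠ ∅ := by
      intro h
      have : F ∈ (φ w).A := by
        rw [hw, map_mul, map_mul, IS.mul_A, IS.mul_A, hφv, hφv, hφv]
        exact ⟨⟨hp, hq⟩, hr⟩
      rw [h] at this
      exact this
    have h2 : (ψ w).A ≠ ∅ := by
      intro h
      apply h1
      have h3 : ψ u = ψ w := IS.ext (by rw [h, hev, hu0])
      rw [← hcon _ h3, hφu]
    rw [hev] at h2
    obtain ⟨F', hF'⟩ := Set.nonempty_iff_ne_empty.mpr h2
    refine ⟨F', ?_⟩
    intro v hv v' hv'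
    apply hF'
    rw [oc_lift]
    refine ⟨n v, ?_, hv'⟩
    rw [hw, oc_mul, oc_mul, oc_of, oc_of, oc_of]
    rcases hall v hv with rfl | rfl | rfl
    · exact Or.inl (Or.inl rfl)
    · exact Or.inl (Or.inr rfl)
    · exact Or.inr rfl
  have hpair : ∀ k l : Fin 3, ∃ F' : Ft K', (∀ v', oc (ω (n (.inl k))) v' → inc v' F') ∧
      ∀ v', oc (ω (n (.inl l))) v' → inc v' F' := by
    intro k l
    obtain ⟨F, hk, hl⟩ := hC k l
    obtain ⟨F', hF'⟩ := hfac F
    exact ⟨F', hF' _ hk, hF' _ hl⟩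
  have hg : ∃ g : Fin 3 → Vt K', (∀ k, oc (ω (n (.inl k))) (g k)) ∧
      ¬ ∃ F' : Ft K', ∀ k, inc (g k) F' := by
    by_contra hng
    push Not at hng
    have key : ∀ p q r : Vt K', oc (FreeSemigroup.lift ω u) p → oc (FreeSemigroup.lift ω u) q →
        oc (FreeSemigroup.lift ω u) r → ∃ F' : Ft K', inc p F' ∧ inc q F' ∧ inc r F' := by
      intro p q r hp hq hr
      obtain ⟨y, hy, hp⟩ := (oc_lift ω u p).mp hp
      obtain ⟨i, rfl⟩ := (hlet y).mp hy
      obtain ⟨y, hy, hq⟩ := (oc_lift ω u q).mp hq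
      obtain ⟨j, rfl⟩ := (hlet y).mp hy
      obtain ⟨y, hy, hr⟩ := (oc_lift ω u r).mp hr
      obtain ⟨m, rfl⟩ := (hlet y).mp hy
      by_cases hij : i = j
      · subst hij
        obtain ⟨F', h1, h2⟩ := hpair i m
        exact ⟨F', h1 _ hp, h1 _ hq, h2 _ hr⟩
      by_cases him : i = m
      · subst him
        obtain ⟨F', h1, h2⟩ := hpair i j
        exact ⟨F', h1 _ hp, h2 _ hq, h1 _ hr⟩
      by_cases hjm : j = m
      · subst hjm
        obtain ⟨F', h1, h2⟩ := hpair i j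
        exact ⟨F', h1 _ hp, h2 _ hq, h2 _ hr⟩
      have hall := fin3_all i j m hij him hjm
      obtain ⟨F', hF'⟩ := hng (fun a => if a = i then p else if a = j then q else r) (by
        intro a
        rcases hall a with rfl | rfl | rfl
        · rw [if_pos rfl]; exact hp
        · rw [if_neg (Ne.symm hij), if_pos rfl]; exact hq
        · rw [if_neg (Ne.symm him), if_neg (Ne.symm hjm)]; exact hr)
      refine ⟨F', ?_, ?_, ?_⟩
      · have := hF' i
        rwa [if_pos rfl] at this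
      · have := hF' j
        rwa [if_neg (Ne.symm hij), if_pos rfl] at this
      · have := hF' m
        rwa [if_neg (Ne.symm him), if_neg (Ne.symm hjm)] at this
    have hnf := nonface hL' hC' {v | oc (FreeSemigroup.lift ω u) v} ⟨_, oc_head _⟩ (by
      rintro ⟨F, hF⟩
      have : F ∈ ev (FreeSemigroup.lift ω u) := hF
      rw [hu0] at this
      exact this)
    rcases hnf with ⟨p, hp, q, hq, hpq⟩ | ⟨a, b, e, v₀, ha, hb, hab, hae, hbe, hv₀, hve⟩ | hδ |
      ⟨a, k, hk, ha, hal⟩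
    · obtain ⟨F', h1, h2, -⟩ := key p q q hp hq hq
      exact hpq ⟨F', h1, h2⟩
    · obtain ⟨F', h1, h2, h3⟩ := key _ _ _ ha hb hv₀
      obtain ⟨-, -, huniq⟩ := uniq_e hL' hab hae hbe
      rw [huniq F' h1 h2] at h3
      exact hve h3
    · obtain ⟨F', h1, h2, h3⟩ := key _ _ _ (hδ 0) (hδ 1) (hδ 2)
      apply no_const F'
      intro k
      fin_cases k
      · exact h1
      · exact h2
      · exact h3
    · obtain ⟨l, m, hlm, hall⟩ := third' k
      have hlk := fin3_ne k l m hlm hall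
      obtain ⟨F', h1, h2, h3⟩ := key _ _ _ ha (hal l hlk.1) (hal m hlk.2)
      obtain ⟨k', hk', hF'⟩ := uniq_g h2 h1
      rw [hk] at hk'
      cases hk'
      rw [hF' hlk.1 hk hlk.1, inc_gd] at h3
      simp only [Sum.inl.injEq, reduceCtorEq, or_false] at h3
      rcases h3 with h3 | h3
      · exact hlm h3.symm
      · exact hlk.2 h3
  obtain ⟨g, hg1, hg2⟩ := hg
  have hf : ∃ f : Vt K → Vt K', (∀ v, oc (ω (n v)) (f v)) ∧ ∀ k, f (.inl k) = g k := by
    refine ⟨fun v => match v with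
      | .inl k => g k
      | .inr x => (ω (n (.inr x))).head, ?_, fun k => rfl⟩
    rintro (k | x)
    · exact hg1 k
    · exact oc_head _
  obtain ⟨f, hf1, hf2⟩ := hf
  refine ⟨f, ?_, ?_⟩
  · intro F
    obtain ⟨F', hF'⟩ := hfac F
    exact ⟨F', fun v hv => hF' v hv _ (hf1 v)⟩
  · rintro ⟨F', hF'⟩
    exact hg2 ⟨F', fun k => by rw [← hf2]; exact hF' k⟩

end Pool.Agent.helper45.Sem
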