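import Mathlib
import Pool.Agent.helper45.Sem.Kern
import Pool.Agent.helper45.Sem.Dig

/-!
# Systems built from copies of a system along a digraph
-/

namespace Pool.Agent.helper45.Sem

variable {K : Inst}

/-! ### Maps -/

/-- facets go into facets -/
def Pres {K K' : Inst} (f : Vt K → Vt K') : Prop :=
  ∀ F : Ft K, ∃ F' : Ft K', ∀ v, inc v F → inc (f v) F'

/-- maps sending the constants to constants -/
def Mc (K K' : Inst) (θ : Fin 3 → Fin 3) : Prop :=
  ∃ f : Vt K → Vt K', Pres f ∧ ∀ k, f (.inl k) = .inl (θ k)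

theorem pres_mk {K K' : Inst} {f : Vt K → Vt K'}
    (hE : ∀ e, ∃ F' : Ft K', ∀ i, inc (f (.inr (K.tri e i))) F')
    (hG : ∀ x k l, K.pr x = some k → l ≠ k → ∃ F' : Ft K', inc (f (.inl l)) F' ∧
      inc (f (.inl k)) F' ∧ inc (f (.inr x)) F') : Pres f := by
  intro F
  rcases ft_cases F with ⟨e, rfl⟩ | ⟨x, l, k, h, hl, rfl⟩
  · obtain ⟨F', hF'⟩ := hE e
    refine ⟨F', ?_⟩
    intro v hv
    rw [inc_e] at hv
    obtain ⟨i, rfl⟩ := hv
    exact hF' i
  · obtain ⟨F', h1, h2, h3⟩ := hG x k l h hl
    refine ⟨F', ?_⟩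
    intro v hv
    rw [inc_gd] at hv
    rcases hv with rfl | rfl | rfl
    · exact h1
    · exact h2
    · exact h3

theorem sat_of_miss (χ : Vt K → Fin 3) (hm : Miss χ)
    (hi : Function.Injective fun k : Fin 3 => χ (.inl k)) : Sat K := by
  have hb : Function.Bijective fun k : Fin 3 => χ (.inl k) := Finite.injective_iff_bijective.mp hi
  choose g hg using fun k => hb.2 k
  have hg' : ∀ k, χ (.inl (g k)) = k := hg
  have hgi : Function.Injective g := by
    intro a b hab
    have h1 := hg' a
    rw [hab, hg' b] at h1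
    exact h1.symm
  refine ⟨fun x => g (χ (.inr x)), ?_, ?_⟩
  · intro x k hk
    apply hi
    change χ (.inl (g (χ (.inr x)))) = χ (.inl k)
    rw [hg']
    by_contra hne
    obtain ⟨j, hj⟩ := hb.2 (χ (.inr x))
    have hj' : χ (.inl j) = χ (.inr x) := hj
    have hjk : j ≠ k := by
      rintro rfl
      exact hne hj'.symm
    obtain ⟨m, hm1, hm2, hall⟩ := third hjk
    obtain ⟨c, hc⟩ := hm (gd x m k hk hm1)
    have c1 := hc (.inl m) (inc_gd.mpr (Or.inl rfl))
    have c2 := hc (.inl k) (inc_gd.mpr (Or.inr (Or.inl rfl)))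
    have c3 := hc (.inr x) (inc_gd.mpr (Or.inr (Or.inr rfl)))
    rw [← hj'] at c3
    have h4 := hg' c
    rcases hall (g c) with h | h | h
    · rw [h] at h4; exact c2 h4
    · rw [h] at h4; exact c3 h4
    · rw [h] at h4; exact c1 h4
  · intro e he
    obtain ⟨c, hc⟩ := hm (.inl e)
    have h1 : Function.Injective fun i => χ (.inr (K.tri e i)) := fun i j hij => he (by
      change g (χ _) = g (χ _)
      rw [show χ (.inr (K.tri e i)) = χ (.inr (K.tri e j)) from hij])
    obtain ⟨i, hi'⟩ := (Finite.injective_iff_bijective.mp h1).2 c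
    exact hc _ (inc_e.mpr ⟨i, rfl⟩) hi'

/-- constants can be sent to constants -/
theorem Mp.norm {K K' : Inst} (hU : ¬ Sat K) (hC : CP K) (hL' : Lin K') (hC' : CP K')
    (h : Mp K K') : ∃ θ, Function.Injective θ ∧ Mc K K' θ := by
  classical
  obtain ⟨f, hf, hnf⟩ := h
  have h0 := nonface hL' hC' (Set.range fun k : Fin 3 => f (.inl k)) ⟨_, 0, rfl⟩ (by
    rintro ⟨F, hF⟩
    exact hnf ⟨F, fun k => hF _ ⟨k, rfl⟩⟩)
  rcases h0 with ⟨_, ⟨k, rfl⟩, _, ⟨l, rfl⟩, hpq⟩ | ⟨a, b, e, _, ⟨i, hi⟩, ⟨j, hj⟩, hab, hae, hbe,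
    ⟨m, rfl⟩, hme⟩ | hδ | ⟨x, k, hk, ⟨i, hi⟩, hal⟩
  · obtain ⟨F, h1, h2⟩ := hC k l
    obtain ⟨F', hF'⟩ := hf F
    exact absurd ⟨F', hF' _ h1, hF' _ h2⟩ hpq
  · exfalso
    have hi' : f (.inl i) = .inr a := hi
    have hj' : f (.inl j) = .inr b := hj
    have hij : i ≠ j := by
      rintro rfl
      rw [hi'] at hj'
      exact hab (Sum.inr_injective hj')
    have him : i ≠ m := by
      rintro rfl
      change ¬ inc (f (.inl i)) _ at hme
      rw [hi'] at hme
      exact hme hae
    have hjm : j ≠ m := by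
      rintro rfl
      change ¬ inc (f (.inl j)) _ at hme
      rw [hj'] at hme
      exact hme hbe
    apply hU
    apply sat_of_miss fun v => colE b e (f v)
    · intro F
      obtain ⟨F', hF'⟩ := hf F
      obtain ⟨c, hc⟩ := miss_colE hL' hbe F'
      exact ⟨c, fun v hv => hc _ (hF' v hv)⟩
    · have e1 : colE b e (f (.inl i)) = 0 := by
        rw [hi']
        unfold colE
        rw [if_neg (fun h => hab (Sum.inr_injective h)), if_pos hae]
      have e2 : colE b e (f (.inl j)) = 1 := by
        rw [hj']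
        unfold colE
        rw [if_pos rfl]
      have e3 : colE b e (f (.inl m)) = 2 := by
        unfold colE
        rw [if_neg, if_neg hme]
        intro h
        apply hme
        change inc (f (.inl m)) _
        rw [h]; exact hbe
      have hcol : ∀ p, (p = i ∧ colE b e (f (.inl p)) = 0) ∨ (p = j ∧ colE b e (f (.inl p)) = 1) ∨
          (p = m ∧ colE b e (f (.inl p)) = 2) := by
        intro p
        rcases fin3_all i j m hij him hjm p with h | h | h
        · exact Or.inl ⟨h, by rw [h]; exact e1⟩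
        · exact Or.inr (Or.inl ⟨h, by rw [h]; exact e2⟩)
        · exact Or.inr (Or.inr ⟨h, by rw [h]; exact e3⟩)
      intro p q hpq
      have hpq' : colE b e (f (.inl p)) = colE b e (f (.inl q)) := hpq
      rcases hcol p with ⟨h1, h2⟩ | ⟨h1, h2⟩ | ⟨h1, h2⟩ <;>
      rcases hcol q with ⟨h3, h4⟩ | ⟨h3, h4⟩ | ⟨h3, h4⟩ <;>
      first
        | exact h1.trans h3.symm
        | (exfalso; rw [h2, h4] at hpq'; exact absurd hpq' (by decide))
  · choose g hg using hδ
    have hg' : ∀ k, f (.inl (g k)) = .inl k := hg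
    have hgi : Function.Injective g := by
      intro p q hpq
      have h1 := hg' p
      rw [hpq, hg' q] at h1
      exact (Sum.inl_injective h1).symm
    choose θ hθ using fun k => (Finite.injective_iff_bijective.mp hgi).2 k
    refine ⟨θ, ?_, f, hf, ?_⟩
    · intro p q hpq
      rw [← hθ p, ← hθ q, hpq]
    · intro k
      conv_lhs => rw [← hθ k]
      exact hg' _
  · have hi' : f (.inl i) = .inr x := hi
    choose! g hg using hal
    have hg' : ∀ l, l ≠ k → f (.inl (g l)) = .inl l := hg
    have hother : ∀ j, j ≠ i → ∃ l, l ≠ k ∧ f (.inl j) = .inl l := by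
      obtain ⟨l, m, hlm, hkall⟩ := third' k
      obtain ⟨hlk, hmk⟩ := fin3_ne k l m hlm hkall
      have h1 : g l ≠ i := by
        intro h
        have := hg' l hlk
        rw [h, hi'] at this
        cases this
      have h2 : g m ≠ i := by
        intro h
        have := hg' m hmk
        rw [h, hi'] at this
        cases this
      have h3 : g l ≠ g m := by
        intro h
        have h4 := hg' l hlk
        rw [h, hg' m hmk] at h4
        exact hlm (Sum.inl_injective h4).symm
      intro j hj
      rcases fin3_all i (g l) (g m) (Ne.symm h1) (Ne.symm h2) h3 j with rfl | rfl | rfl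
      · exact absurd rfl hj
      · exact ⟨l, hlk, hg' l hlk⟩
      · exact ⟨m, hmk, hg' m hmk⟩
    set f' : Vt K → Vt K' := fun v => if v = .inl i then .inl k else f v with hf'
    have hf'i : f' (.inl i) = .inl k := by rw [hf']; exact if_pos rfl
    have hf'o : ∀ v, v ≠ .inl i → f' v = f v := by
      intro v hv
      rw [hf']; exact if_neg hv
    have hex : ∀ j, ∃ l, f' (.inl j) = .inl l := by
      intro j
      by_cases hj : j = i
      · subst hj; exact ⟨k, hf'i⟩
      · obtain ⟨l, -, hl⟩ := hother j hj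
        exact ⟨l, by rw [hf'o _ (fun h => hj (Sum.inl_injective h)), hl]⟩
    choose θ hθ using hex
    refine ⟨θ, ?_, f', ?_, hθ⟩
    · have hsurj : Function.Surjective θ := by
        intro l
        by_cases hl : l = k
        · subst hl
          refine ⟨i, ?_⟩
          have := hθ i
          rw [hf'i] at this
          exact (Sum.inl_injective this).symm
        · refine ⟨g l, ?_⟩
          have h1 := hθ (g l)
          rw [hf'o, hg' l hl] at h1
          · exact (Sum.inl_injective h1).symm
          · intro h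
            have h2 := hg' l hl
            rw [h, hi'] at h2
            cases h2
      exact (Finite.injective_iff_surjective.mpr hsurj)
    · intro F
      obtain ⟨F', hF'⟩ := hf F
      refine ⟨F', ?_⟩
      intro v hv
      by_cases hvi : v = .inl i
      · subst hvi
        rw [hf'i]
        have h1 := hF' _ hv
        rw [hi'] at h1
        have h2 : ∃ j, j ≠ i ∧ inc (.inl j : Vt K) F := by
          rcases ft_cases F with ⟨e, rfl⟩ | ⟨y, l, k', hk', hl, rfl⟩
          · exact hv.elim
          · rw [inc_gd] at hv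
            simp only [Sum.inl.injEq, reduceCtorEq, or_false] at hv
            rcases hv with rfl | rfl
            · exact ⟨k', Ne.symm hl, inc_gd.mpr (Or.inr (Or.inl rfl))⟩
            · exact ⟨l, hl, inc_gd.mpr (Or.inl rfl)⟩
        obtain ⟨j, hji, hjF⟩ := h2
        obtain ⟨l, hlk, hl⟩ := hother j hji
        have h3 := hF' _ hjF
        rw [hl] at h3
        obtain ⟨k', hk', hF2⟩ := uniq_g h3 h1
        rw [hk] at hk'
        cases hk'
        rw [hF2 hlk hk hlk, inc_gd]
        exact Or.inr (Or.inl rfl)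
      · rw [hf'o v hvi]
        exact hF' v hv

/-! ### The construction -/

/-- codes of the vertices of the three extra triples -/
def cd : Fin 3 → Fin 3 → Fin 7 := ![![1, 2, 0], ![3, 4, 0], ![0, 5, 6]]

theorem cd_inj : ∀ j a b, cd j a = cd j b → a = b := by decide

/-- the vertex with a given code -/
def dec (ℓ : K.V) (n : Fin 7) : K.V ⊕ Fin 6 := if h : n.val < 6 then .inr ⟨n.val, h⟩ else .inl ℓ

theorem dec_inj (ℓ : K.V) : Function.Injective (dec ℓ) := by
  intro a b hab
  unfold dec at hab
  split_ifs at hab with h1 h2 h2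
  · have := Sum.inr_injective hab
    rw [Fin.mk.injEq] at this
    exact Fin.ext this
  · apply Fin.ext
    omega

theorem dec_inl {ℓ x : K.V} {n : Fin 7} (h : dec ℓ n = .inl x) : n = 6 ∧ x = ℓ := by
  unfold dec at h
  split_ifs at h with h1
  refine ⟨?_, (Sum.inl_injective h).symm⟩
  apply Fin.ext
  change n.val = 6
  omega

/-- the triples of one copy -/
def tr (ℓ : K.V) : K.E ⊕ Fin 3 → Fin 3 → K.V ⊕ Fin 6
  | .inl e, i => .inl (K.tri e i)
  | .inr j, i => dec ℓ (cd j i)

open Classical in
/-- the preassigned colours of one copy -/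
noncomputable def prW (ℓ : K.V) : K.V ⊕ Fin 6 → Option (Fin 3)
  | .inl v => if v = ℓ then none else K.pr v
  | .inr j => ![none, some 0, some 1, some 0, some 2, some 2] j

theorem tr_inj (hL : Lin K) (ℓ : K.V) (d : K.E ⊕ Fin 3) : Function.Injective (tr ℓ d) := by
  rcases d with e | j
  · intro a b hab
    exact hL.inj e (Sum.inl_injective hab)
  · intro a b hab
    exact cd_inj j a b (dec_inj ℓ hab)

theorem cd_lin : ∀ j j' a b a' b', a ≠ b → cd j a = cd j' a' → cd j b = cd j' b' → j = j' := by
  decide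

theorem cd_six : ∀ j a b, cd j a = 6 → cd j b = 6 → a = b := by decide

end Pool.Agent.helper45.Sem
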