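import Mathlib
import Pool.Agent.helper45.Sem.Kg

/-!
# Copies of a system along a digraph: linearity, colourings, maps
-/

namespace Pool.Agent.helper45.Sem

section
variable (K : Inst) (ℓ : K.V)

/-- the vertices of the extra triple of an arc -/
def arcT {G : Type} (g g' : G) : Fin 3 → (G × (K.V ⊕ Fin 6)) ⊕ (G × G) :=
  ![.inl (g', .inr 0), .inr (g, g'), .inl (g, .inl ℓ)]

/-- copies of `K` for the vertices of the digraph `A`, with the vertex `ℓ` of a copy forced to
have colour `0` by its own copy and by the copies of its outneighbours -/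
noncomputable def KG (G : Type) [hG : Finite G] (A : G → G → Prop) : Inst where
  V := (G × (K.V ⊕ Fin 6)) ⊕ (G × G)
  E := (G × (K.E ⊕ Fin 3)) ⊕ {p : G × G // A p.1 p.2}
  tri
    | .inl (g, d), i => .inl (g, tr ℓ d i)
    | .inr p, i => arcT K ℓ p.1.1 p.1.2 i
  pr
    | .inl (_, z) => prW ℓ z
    | .inr _ => some 1
  finV := by
    have := K.finV
    infer_instance
  finE := by
    have := K.finE
    infer_instance

end

section
variable {K : Inst} {ℓ : K.V} {G : Type} [hG : Finite G] {A : G → G → Prop}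

theorem tr_lin (hL : Lin K) (d d' : K.E ⊕ Fin 3) (i j i' j' : Fin 3) (hij : i ≠ j)
    (h1 : tr ℓ d i = tr ℓ d' i') (h2 : tr ℓ d j = tr ℓ d' j') : d = d' := by
  rcases d with e | d <;> rcases d' with e' | d'
  · rw [hL.lin e e' i j i' j' hij (Sum.inl_injective h1) (Sum.inl_injective h2)]
  · exfalso
    obtain ⟨-, h3⟩ := dec_inl (ℓ := ℓ) h1.symm
    obtain ⟨-, h4⟩ := dec_inl (ℓ := ℓ) h2.symm
    exact hij (hL.inj e (h3.trans h4.symm))
  · exfalso
    obtain ⟨h3, -⟩ := dec_inl (ℓ := ℓ) h1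
    obtain ⟨h4, -⟩ := dec_inl (ℓ := ℓ) h2
    exact hij (cd_six d i j h3 h4)
  · rw [cd_lin d d' i j i' j' hij (dec_inj ℓ h1) (dec_inj ℓ h2)]

omit hG in
theorem arcT_one {g g' h : G} {z : K.V ⊕ Fin 6} {i : Fin 3} (hz : arcT K ℓ g g' i = .inl (h, z)) :
    (i = 0 ∧ h = g') ∨ (i = 2 ∧ h = g) := by
  fin_cases i
  · left
    have : (Sum.inl (g', Sum.inr 0) : (G × (K.V ⊕ Fin 6)) ⊕ (G × G)) = .inl (h, z) := hz
    have h1 := Sum.inl_injective this
    rw [Prod.mk.injEq] at h1
    exact ⟨rfl, h1.1.symm⟩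
  · exfalso
    have : (Sum.inr (g, g') : (G × (K.V ⊕ Fin 6)) ⊕ (G × G)) = .inl (h, z) := hz
    cases this
  · right
    have : (Sum.inl (g, Sum.inl ℓ) : (G × (K.V ⊕ Fin 6)) ⊕ (G × G)) = .inl (h, z) := hz
    have h1 := Sum.inl_injective this
    rw [Prod.mk.injEq] at h1
    exact ⟨rfl, h1.1.symm⟩

omit hG in
theorem arcT_inj (g g' : G) : Function.Injective (arcT K ℓ g g') := by
  intro a b hab
  fin_cases a <;> fin_cases b <;> first | rfl | (exfalso; simp [arcT] at hab)

omit hG in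
theorem arcT_eq {g g' h h' : G} {i j i' j' : Fin 3} (hij : i ≠ j)
    (h1 : arcT K ℓ g g' i = arcT K ℓ h h' i') (h2 : arcT K ℓ g g' j = arcT K ℓ h h' j') :
    (g, g') = (h, h') := by
  fin_cases i <;> fin_cases j <;> fin_cases i' <;> fin_cases j' <;>
    simp [arcT] at h1 h2 hij ⊢ <;> tauto

theorem lin_KG (hL : Lin K) (hA : ∀ g, ¬ A g g) : Lin (KG K ℓ G A) where
  inj e := by
    rcases e with ⟨g, d⟩ | ⟨⟨g, g'⟩, h⟩
    · intro a b hab
      have h1 : (Sum.inl (g, tr ℓ d a) : (G × (K.V ⊕ Fin 6)) ⊕ (G × G)) =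
        .inl (g, tr ℓ d b) := hab
      have h2 := Sum.inl_injective h1
      rw [Prod.mk.injEq] at h2
      exact tr_inj hL ℓ d h2.2
    · exact arcT_inj g g'
  lin e e' i j i' j' hij h1 h2 := by
    rcases e with ⟨g, d⟩ | ⟨⟨g, g'⟩, h⟩ <;> rcases e' with ⟨k, d'⟩ | ⟨⟨k, k'⟩, h'⟩
    · have h3 : (Sum.inl (g, tr ℓ d i) : (G × (K.V ⊕ Fin 6)) ⊕ (G × G)) =
        .inl (k, tr ℓ d' i') := h1
      have h4 : (Sum.inl (g, tr ℓ d j) : (G × (K.V ⊕ Fin 6)) ⊕ (G × G)) =
        .inl (k, tr ℓ d' j') := h2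
      have h3 := Sum.inl_injective h3
      have h4 := Sum.inl_injective h4
      rw [Prod.mk.injEq] at h3 h4
      rw [h3.1, tr_lin hL d d' i j i' j' hij h3.2 h4.2]
    · exfalso
      have h3 : arcT K ℓ k k' i' = .inl (g, tr ℓ d i) := h1.symm
      have h4 : arcT K ℓ k k' j' = .inl (g, tr ℓ d j) := h2.symm
      have h5 : i' ≠ j' := by
        rintro rfl
        rw [h3] at h4
        have h6 := Sum.inl_injective h4
        rw [Prod.mk.injEq] at h6
        exact hij (tr_inj hL ℓ d h6.2)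
      have h6 : k = k' := by
        rcases arcT_one h3 with ⟨e1, e2⟩ | ⟨e1, e2⟩ <;> rcases arcT_one h4 with ⟨e3, e4⟩ | ⟨e3, e4⟩
        · exact absurd (e1.trans e3.symm) h5
        · exact e4.symm.trans e2
        · exact e2.symm.trans e4
        · exact absurd (e1.trans e3.symm) h5
      apply hA k
      have h7 : A k k' := h'
      rwa [← h6] at h7
    · exfalso
      have h3 : arcT K ℓ g g' i = .inl (k, tr ℓ d' i') := h1
      have h4 : arcT K ℓ g g' j = .inl (k, tr ℓ d' j') := h2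
      have h6 : g = g' := by
        rcases arcT_one h3 with ⟨e1, e2⟩ | ⟨e1, e2⟩ <;> rcases arcT_one h4 with ⟨e3, e4⟩ | ⟨e3, e4⟩
        · exact absurd (e1.trans e3.symm) hij
        · exact e4.symm.trans e2
        · exact e2.symm.trans e4
        · exact absurd (e1.trans e3.symm) hij
      apply hA g
      have h7 : A g g' := h
      rwa [← h6] at h7
    · have h3 : arcT K ℓ g g' i = arcT K ℓ k k' i' := h1
      have h4 : arcT K ℓ g g' j = arcT K ℓ k k' j' := h2
      have h5 := arcT_eq hij h3 h4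
      rw [Prod.mk.injEq] at h5
      obtain ⟨rfl, rfl⟩ := h5
      rfl

theorem cp_of {K : Inst} (h : ∀ k, ∃ x, K.pr x = some k) : CP K := by
  intro l m
  obtain ⟨x, hx⟩ := h l
  by_cases hlm : m = l
  · subst hlm
    obtain ⟨m', -, -, -⟩ := third' m
    obtain ⟨j, hj⟩ : ∃ j : Fin 3, j ≠ m := by
      clear * -
      revert m
      decide
    exact ⟨gd x j m hx hj, inc_gd.mpr (Or.inr (Or.inl rfl)), inc_gd.mpr (Or.inr (Or.inl rfl))⟩
  · exact ⟨gd x m l hx hlm, inc_gd.mpr (Or.inr (Or.inl rfl)), inc_gd.mpr (Or.inl rfl)⟩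

theorem cp_KG [hne : Nonempty G] : CP (KG K ℓ G A) := by
  obtain ⟨g⟩ := hne
  apply cp_of
  intro k
  fin_cases k
  · exact ⟨.inl (g, .inr 1), rfl⟩
  · exact ⟨.inl (g, .inr 2), rfl⟩
  · exact ⟨.inl (g, .inr 4), rfl⟩

theorem rb1 : ∀ a : Fin 3, ¬ Function.Injective ![0, 1, a] → a ≠ 2 := by decide
theorem rb2 : ∀ a : Fin 3, ¬ Function.Injective ![0, 2, a] → a ≠ 1 := by decide
theorem rb3 : ∀ a : Fin 3, a ≠ 1 → a ≠ 2 → a = 0 := by decide

theorem unsat_KG (hp : K.pr ℓ = some 0) (hU : ¬ Sat K) (hA : ∃ g g', A g g') :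
    ¬ Sat (KG K ℓ G A) := by
  classical
  rintro ⟨χ, hχ, hr⟩
  obtain ⟨g, g', hgg⟩ := hA
  have hpr : ∀ g j k, (![none, some 0, some 1, some 0, some 2, some 2] : Fin 6 → _) j = some k →
      χ (.inl (g, .inr j)) = k := fun g j k h => hχ (.inl (g, .inr j)) k h
  have hw : ∀ g, χ (.inl (g, .inr 0)) = 0 := by
    intro g
    have h1 := hr (.inl (g, .inr 0))
    have h2 := hr (.inl (g, .inr 1))
    have e1 : (fun i => χ ((KG K ℓ G A).tri (.inl (g, .inr 0)) i)) =
        ![0, 1, χ (.inl (g, .inr 0))] := by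
      funext i
      fin_cases i
      · exact hpr g 1 0 rfl
      · exact hpr g 2 1 rfl
      · rfl
    have e2 : (fun i => χ ((KG K ℓ G A).tri (.inl (g, .inr 1)) i)) =
        ![0, 2, χ (.inl (g, .inr 0))] := by
      funext i
      fin_cases i
      · exact hpr g 3 0 rfl
      · exact hpr g 4 2 rfl
      · rfl
    rw [e1] at h1
    rw [e2] at h2
    exact rb3 _ (rb2 _ h2) (rb1 _ h1)
  have hℓ : χ (.inl (g, .inl ℓ)) = 0 := by
    have h1 := hr (.inl (g, .inr 2))
    have h2 := hr (.inr ⟨(g, g'), hgg⟩)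
    have e1 : (fun i => χ ((KG K ℓ G A).tri (.inl (g, .inr 2)) i)) =
        ![0, 2, χ (.inl (g, .inl ℓ))] := by
      funext i
      fin_cases i
      · exact hw g
      · exact hpr g 5 2 rfl
      · rfl
    have e2 : (fun i => χ ((KG K ℓ G A).tri (.inr ⟨(g, g'), hgg⟩) i)) =
        ![0, 1, χ (.inl (g, .inl ℓ))] := by
      funext i
      fin_cases i
      · exact hw g'
      · exact hχ (.inr (g, g')) 1 rfl
      · rfl
    rw [e1] at h1
    rw [e2] at h2
    exact rb3 _ (rb2 _ h1) (rb1 _ h2)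
  apply hU
  refine ⟨fun v => χ (.inl (g, .inl v)), ?_, ?_⟩
  · intro x k hk
    by_cases hx : x = ℓ
    · subst hx
      rw [hp] at hk
      cases hk
      exact hℓ
    · apply hχ (.inl (g, .inl x)) k
      change (if x = ℓ then none else K.pr x) = some k
      rw [if_neg hx]
      exact hk
  · intro e
    exact hr (.inl (g, .inl e))

/-- the one vertex system -/
noncomputable abbrev K1 (K : Inst) (ℓ : K.V) : Inst := KG K ℓ Unit fun _ _ => True

/-- the two vertex system -/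
noncomputable abbrev K2 (K : Inst) (ℓ : K.V) : Inst := KG K ℓ Bool fun a b => a ≠ b

theorem rich {D : Dg} [hD : Finite D.V] {L : Inst} {θ : Fin 3 → Fin 3}
    (hchr : Chr D (Nat.card (K.V ⊕ Fin 6 → Vt L))) (h : Mc (KG K ℓ D.V D.A) L θ) :
    Mc (K1 K ℓ) L θ := by
  have := L.finV
  have := K.finV
  obtain ⟨f, hf, hc⟩ := h
  obtain ⟨g, g', hA, hgg⟩ := hchr.of_card le_rfl (C := K.V ⊕ Fin 6 → Vt L)
    (fun g z => f (.inr (.inl (g, z))))
  have hgg' : ∀ z, f (.inr (.inl (g, z))) = f (.inr (.inl (g', z))) := fun z => congrFun hgg z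
  refine ⟨fun v => match v with
    | .inl k => f (.inl k)
    | .inr (.inl (_, z)) => f (.inr (.inl (g, z)))
    | .inr (.inr _) => f (.inr (.inr (g, g'))), ?_, hc⟩
  apply pres_mk
  · rintro (⟨_, d⟩ | p)
    · obtain ⟨F', hF'⟩ := hf (.inl (.inl (g, d)))
      exact ⟨F', fun i => hF' (.inr (.inl (g, tr ℓ d i))) ⟨i, rfl⟩⟩
    · obtain ⟨F', hF'⟩ := hf (.inl (.inr ⟨(g, g'), hA⟩))
      refine ⟨F', fun i => ?_⟩
      fin_cases i
      · have h1 := hF' (.inr (.inl (g', .inr 0))) ⟨0, rfl⟩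
        rw [← hgg'] at h1
        exact h1
      · exact hF' (.inr (.inr (g, g'))) ⟨1, rfl⟩
      · exact hF' (.inr (.inl (g, .inl ℓ))) ⟨2, rfl⟩
  · rintro (⟨_, z⟩ | p) k l hk hl
    · obtain ⟨F', hF'⟩ := hf (gd (K := KG K ℓ D.V D.A) (.inl (g, z)) l k hk hl)
      exact ⟨F', hF' _ (inc_gd.mpr (Or.inl rfl)), hF' _ (inc_gd.mpr (Or.inr (Or.inl rfl))),
        hF' _ (inc_gd.mpr (Or.inr (Or.inr rfl)))⟩
    · obtain ⟨F', hF'⟩ := hf (gd (K := KG K ℓ D.V D.A) (.inr (g, g')) l k hk hl)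
      exact ⟨F', hF' _ (inc_gd.mpr (Or.inl rfl)), hF' _ (inc_gd.mpr (Or.inr (Or.inl rfl))),
        hF' _ (inc_gd.mpr (Or.inr (Or.inr rfl)))⟩

open Classical in
/-- the copies involved in a vertex -/
noncomputable def used {D : Dg} [hD : Finite D.V] : Vt (KG K ℓ D.V D.A) → Finset D.V
  | .inl _ => ∅
  | .inr (.inl (g, _)) => {g}
  | .inr (.inr (g, g')) => {g, g'}

theorem card_used {D : Dg} [hD : Finite D.V] (v : Vt (KG K ℓ D.V D.A)) : (used v).card ≤ 2 := by
  classical
  rcases v with k | ⟨g, z⟩ | ⟨g, g'⟩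
  · exact Nat.zero_le _
  · exact (Finset.card_singleton g).le.trans (by omega)
  · exact Finset.card_le_two

theorem inc_of_eq {K : Inst} {v v' : Vt K} {F : Ft K} (h : v = v') (h' : inc v' F) : inc v F :=
  h ▸ h'

theorem loc {D : Dg} [hD : Finite D.V] {H : Inst} {θ : Fin 3 → Fin 3}
    (hbip : Bip D (2 * Nat.card (Vt H))) (h : Mc H (KG K ℓ D.V D.A) θ) : Mc H (K2 K ℓ) θ := by
  classical
  have := H.finV
  have := Fintype.ofFinite (Vt H)
  obtain ⟨f, hf, hc⟩ := h
  set F₀ : Finset D.V := Finset.univ.biUnion fun v => used (f v) with hF₀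
  have hcard : F₀.card ≤ 2 * Nat.card (Vt H) := by
    calc F₀.card ≤ ∑ v : Vt H, (used (f v)).card := Finset.card_biUnion_le
      _ ≤ ∑ _v : Vt H, 2 := Finset.sum_le_sum fun v _ => card_used _
      _ = 2 * Nat.card (Vt H) := by
        rw [Finset.sum_const, Finset.card_univ, smul_eq_mul, Nat.card_eq_fintype_card, mul_comm]
  obtain ⟨c, hc2⟩ := hbip F₀ hcard
  have hmem : ∀ v g, g ∈ used (f v) → g ∈ F₀ := fun v g hg => by
    rw [hF₀, Finset.mem_biUnion]
    exact ⟨v, Finset.mem_univ _, hg⟩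
  let r : Vt (KG K ℓ D.V D.A) → Vt (K2 K ℓ) := fun v => match v with
    | .inl k => .inl k
    | .inr (.inl (g, z)) => .inr (.inl (c g, z))
    | .inr (.inr (g, g')) => .inr (.inr (c g, c g'))
  refine ⟨fun v => r (f v), ?_, ?_⟩
  · intro F
    obtain ⟨F', hF'⟩ := hf F
    rcases F' with (⟨g, d⟩ | ⟨⟨g, g'⟩, hA⟩) | ⟨⟨y, l⟩, k, hk, hl⟩
    · refine ⟨.inl (.inl (c g, d)), ?_⟩
      intro v hv
      have h1 := hF' v hv
      obtain ⟨i, hi⟩ := (inc_e (K := KG K ℓ D.V D.A)).mp h1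
      exact inc_of_eq (congrArg r hi) ⟨i, rfl⟩
    · by_cases hg : g ∈ F₀
      · by_cases hg' : g' ∈ F₀
        · refine ⟨.inl (.inr ⟨(c g, c g'), hc2 g hg g' hg' hA⟩), ?_⟩
          intro v hv
          have h1 := hF' v hv
          obtain ⟨i, hi⟩ := (inc_e (K := KG K ℓ D.V D.A)).mp h1
          refine inc_of_eq (congrArg r hi) ?_
          fin_cases i
          · exact ⟨0, rfl⟩
          · exact ⟨1, rfl⟩
          · exact ⟨2, rfl⟩
        · refine ⟨.inl (.inl (c g, .inr 2)), ?_⟩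
          intro v hv
          have h1 := hF' v hv
          obtain ⟨i, hi⟩ := (inc_e (K := KG K ℓ D.V D.A)).mp h1
          fin_cases i
          · exfalso
            apply hg'
            apply hmem v
            rw [hi]
            exact Finset.mem_singleton_self _
          · exfalso
            apply hg'
            apply hmem v
            rw [hi]
            exact Finset.mem_insert_of_mem (Finset.mem_singleton_self _)
          · exact inc_of_eq (congrArg r hi) ⟨2, rfl⟩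
      · refine ⟨.inl (.inl (c g', .inr 0)), ?_⟩
        intro v hv
        have h1 := hF' v hv
        obtain ⟨i, hi⟩ := (inc_e (K := KG K ℓ D.V D.A)).mp h1
        fin_cases i
        · exact inc_of_eq (congrArg r hi) ⟨2, rfl⟩
        · exfalso
          apply hg
          apply hmem v
          rw [hi]
          exact Finset.mem_insert_self _ _
        · exfalso
          apply hg
          apply hmem v
          rw [hi]
          exact Finset.mem_singleton_self _
    · have key : ∃ y' : (K2 K ℓ).V, ∃ hk' : (K2 K ℓ).pr y' = some k, r (.inr y) = .inr y' := by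
        rcases y with ⟨g, z⟩ | ⟨g, g'⟩
        · exact ⟨.inl (c g, z), hk, rfl⟩
        · exact ⟨.inr (c g, c g'), hk, rfl⟩
      obtain ⟨y', hk', hy'⟩ := key
      refine ⟨gd y' l k hk' hl, ?_⟩
      intro v hv
      have h1 := hF' v hv
      rw [inc_g (q := ⟨(y, l), k, hk, hl⟩) hk] at h1
      change inc (r (f v)) _
      rw [inc_gd]
      rcases h1 with h1 | h1 | h1
      · left; rw [h1]
      · right; left; rw [h1]
      · right; right; rw [h1]; exact hy'
  · intro k
    change r (f (.inl k)) = _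
    rw [hc k]

end

end Pool.Agent.helper45.Sem
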