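import Mathlib
import Pool.Agent.helper45.Sem.Kg2

/-!
# No map from the one vertex system to the two vertex system
-/

namespace Pool.Agent.helper45.Sem

/-- a critical linear system with a marked vertex of preassigned colour `0` -/
structure Base (K : Inst) (ℓ : K.V) : Prop where
  lin : Lin K
  pr : K.pr ℓ = some 0
  unsat : ¬ Sat K
  crit : ∀ e₁, ∃ χ : K.V → Fin 3, (∀ x k, K.pr x = some k → χ x = k) ∧
    ∀ e, e ≠ e₁ → ¬ Function.Injective fun i => χ (K.tri e i)
  free : ∀ κ : Fin 3, κ ≠ 0 → ∃ χ : K.V → Fin 3, (∀ x k, x ≠ ℓ → K.pr x = some k → χ x = k) ∧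
    χ ℓ = κ ∧ ∀ e, ¬ Function.Injective fun i => χ (K.tri e i)

theorem as1 : ∀ a : Fin 3, a ≠ 2 → ¬ Function.Injective ![0, 1, a] := by decide
theorem as2 : ∀ a : Fin 3, a ≠ 1 → ¬ Function.Injective ![0, 2, a] := by decide

theorem assign (P Q C B R : Bool → Prop)
    (h : ∀ i, ¬ (R i ∧ P false ∧ P true ∧ Q false ∧ Q true ∧ C i ∧ B i)) :
    ∃ w l : Bool → Fin 3, ∀ i, (P i → w i ≠ 2) ∧ (Q i → w i ≠ 1) ∧
      (C i → ¬ Function.Injective ![w i, 2, l i]) ∧
      (B i → ¬ Function.Injective ![w (!i), 1, l i]) ∧ (R i → l i ≠ 0) := by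
  classical
  by_cases p0 : P false
  swap
  · refine ⟨fun i => if i then 0 else 2, fun i => if i then 2 else 1, ?_⟩
    rintro (_ | _)
    · exact ⟨fun h => absurd h p0, fun _ => by decide, fun _ => by decide, fun _ => by decide,
        fun _ => by decide⟩
    · exact ⟨fun _ => by decide, fun _ => by decide, fun _ => by decide, fun _ => by decide,
        fun _ => by decide⟩
  by_cases q0 : Q false
  swap
  · refine ⟨fun i => if i then 0 else 1, fun i => if i then 2 else 1, ?_⟩
    rintro (_ | _)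
    · exact ⟨fun _ => by decide, fun h => absurd h q0, fun _ => by decide, fun _ => by decide,
        fun _ => by decide⟩
    · exact ⟨fun _ => by decide, fun _ => by decide, fun _ => by decide, fun _ => by decide,
        fun _ => by decide⟩
  by_cases p1 : P true
  swap
  · refine ⟨fun i => if i then 2 else 0, fun i => if i then 1 else 2, ?_⟩
    rintro (_ | _)
    · exact ⟨fun _ => by decide, fun _ => by decide, fun _ => by decide, fun _ => by decide,
        fun _ => by decide⟩
    · exact ⟨fun h => absurd h p1, fun _ => by decide, fun _ => by decide, fun _ => by decide,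
        fun _ => by decide⟩
  by_cases q1 : Q true
  swap
  · refine ⟨fun i => if i then 1 else 0, fun i => if i then 1 else 2, ?_⟩
    rintro (_ | _)
    · exact ⟨fun _ => by decide, fun _ => by decide, fun _ => by decide, fun _ => by decide,
        fun _ => by decide⟩
    · exact ⟨fun _ => by decide, fun h => absurd h q1, fun _ => by decide, fun _ => by decide,
        fun _ => by decide⟩
  refine ⟨fun _ => 0, fun i => if R i then (if C i then 2 else 1) else 0, fun i => ?_⟩
  refine ⟨fun _ => (by decide : (0 : Fin 3) ≠ 2), fun _ => (by decide : (0 : Fin 3) ≠ 1), ?_, ?_, ?_⟩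
  · intro hC
    change ¬ Function.Injective ![0, 2, if R i then (if C i then 2 else 1) else 0]
    by_cases hR : R i
    · rw [if_pos hR, if_pos hC]; decide
    · rw [if_neg hR]; decide
  · intro hB
    change ¬ Function.Injective ![0, 1, if R i then (if C i then 2 else 1) else 0]
    by_cases hR : R i
    · have hC : ¬ C i := fun hC => h i ⟨hR, p0, p1, q0, q1, hC, hB⟩
      rw [if_pos hR, if_neg hC]; decide
    · rw [if_neg hR]; decide
  · intro hR
    change (if R i then (if C i then (2 : Fin 3) else 1) else 0) ≠ 0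
    rw [if_pos hR]
    split_ifs <;> decide

theorem exists_missing {g : Fin 3 → Fin 3} (h : ¬ Function.Injective g) : ∃ c, ∀ i, g i ≠ c := by
  by_contra hcon
  push Not at hcon
  exact h (Finite.injective_iff_surjective.mpr hcon)

theorem missing_two (a b : Fin 3) : ∃ c : Fin 3, c ≠ a ∧ c ≠ b := by
  revert a b; decide

/-- the triple `e` covers the triple `e'` -/
def Cov {K K' : Inst} (f : Vt K → Vt K') (e : K.E) (e' : K'.E) : Prop :=
  ∀ j, ∃ i, f (.inr (K.tri e i)) = .inr (K'.tri e' j)

theorem cov_inj {K K' : Inst} (hL' : Lin K') {f : Vt K → Vt K'} {e : K.E} {e₁ e₂ : K'.E}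
    (h1 : Cov f e e₁) (h2 : Cov f e e₂) : e₁ = e₂ := by
  choose σ hσ using h1
  choose τ hτ using h2
  have hσi : Function.Injective σ := by
    intro a b hab
    have h3 := hσ a
    rw [hab, hσ b] at h3
    exact (hL'.inj e₁ (Sum.inr_injective h3)).symm
  have hσs := (Finite.injective_iff_surjective.mp hσi)
  obtain ⟨a, ha⟩ := hσs (τ 0)
  obtain ⟨b, hb⟩ := hσs (τ 1)
  have e1 : K'.tri e₁ a = K'.tri e₂ 0 := by
    apply Sum.inr_injective (α := Fin 3)
    rw [← hσ a, ← hτ 0, ha]
  have e2 : K'.tri e₁ b = K'.tri e₂ 1 := by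
    apply Sum.inr_injective (α := Fin 3)
    rw [← hσ b, ← hτ 1, hb]
  refine hL'.lin e₁ e₂ a b 0 1 ?_ e1 e2
  rintro rfl
  rw [e1] at e2
  exact absurd (hL'.inj e₂ e2) (by decide)

section
variable {K : Inst} {ℓ : K.V}

/-- the triples of the two vertex system relevant for one of the copies -/
def rel (i : Bool) : K.E ⊕ Fin 6 → (K2 K ℓ).E
  | .inl e => .inl (i, .inl e)
  | .inr j => ![.inl (false, .inr 0), .inl (false, .inr 1), .inl (true, .inr 0),
      .inl (true, .inr 1), .inl (i, .inr 2), .inr ⟨(i, !i), by cases i <;> simp⟩] j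

theorem rel_inj (i : Bool) : Function.Injective (rel (K := K) (ℓ := ℓ) i) := by
  rintro (e | a) (e' | b) h
  · have h1 : (Sum.inl (i, Sum.inl e) : (Bool × (K.E ⊕ Fin 3)) ⊕ {p : Bool × Bool // p.1 ≠ p.2}) =
      .inl (i, .inl e') := h
    have h2 := Sum.inl_injective h1
    rw [Prod.mk.injEq] at h2
    rw [Sum.inl_injective h2.2]
  · exfalso
    fin_cases b
    · have h1 : (Sum.inl (i, Sum.inl e) : (Bool × (K.E ⊕ Fin 3)) ⊕ {p : Bool × Bool // p.1 ≠ p.2}) =
        .inl (false, .inr 0) := h
      simp at h1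
    · have h1 : (Sum.inl (i, Sum.inl e) : (Bool × (K.E ⊕ Fin 3)) ⊕ {p : Bool × Bool // p.1 ≠ p.2}) =
        .inl (false, .inr 1) := h
      simp at h1
    · have h1 : (Sum.inl (i, Sum.inl e) : (Bool × (K.E ⊕ Fin 3)) ⊕ {p : Bool × Bool // p.1 ≠ p.2}) =
        .inl (true, .inr 0) := h
      simp at h1
    · have h1 : (Sum.inl (i, Sum.inl e) : (Bool × (K.E ⊕ Fin 3)) ⊕ {p : Bool × Bool // p.1 ≠ p.2}) =
        .inl (true, .inr 1) := h
      simp at h1
    · have h1 : (Sum.inl (i, Sum.inl e) : (Bool × (K.E ⊕ Fin 3)) ⊕ {p : Bool × Bool // p.1 ≠ p.2}) =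
        .inl (i, .inr 2) := h
      simp at h1
    · have h1 : (Sum.inl (i, Sum.inl e) : (Bool × (K.E ⊕ Fin 3)) ⊕ {p : Bool × Bool // p.1 ≠ p.2}) =
        .inr ⟨(i, !i), by cases i <;> simp⟩ := h
      simp at h1
  · exfalso
    fin_cases a
    · have h1 : (Sum.inl (i, Sum.inl e') : (Bool × (K.E ⊕ Fin 3)) ⊕ {p : Bool × Bool // p.1 ≠ p.2})
        = .inl (false, .inr 0) := h.symm
      simp at h1
    · have h1 : (Sum.inl (i, Sum.inl e') : (Bool × (K.E ⊕ Fin 3)) ⊕ {p : Bool × Bool // p.1 ≠ p.2})
        = .inl (false, .inr 1) := h.symm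
      simp at h1
    · have h1 : (Sum.inl (i, Sum.inl e') : (Bool × (K.E ⊕ Fin 3)) ⊕ {p : Bool × Bool // p.1 ≠ p.2})
        = .inl (true, .inr 0) := h.symm
      simp at h1
    · have h1 : (Sum.inl (i, Sum.inl e') : (Bool × (K.E ⊕ Fin 3)) ⊕ {p : Bool × Bool // p.1 ≠ p.2})
        = .inl (true, .inr 1) := h.symm
      simp at h1
    · have h1 : (Sum.inl (i, Sum.inl e') : (Bool × (K.E ⊕ Fin 3)) ⊕ {p : Bool × Bool // p.1 ≠ p.2})
        = .inl (i, .inr 2) := h.symm
      simp at h1
    · have h1 : (Sum.inl (i, Sum.inl e') : (Bool × (K.E ⊕ Fin 3)) ⊕ {p : Bool × Bool // p.1 ≠ p.2})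
        = .inr ⟨(i, !i), by cases i <;> simp⟩ := h.symm
      simp at h1
  · congr 1
    have key : ∀ (i : Bool) (a b : Fin 6),
        (![.inl (false, 0), .inl (false, 1), .inl (true, 0), .inl (true, 1), .inl (i, 2),
          .inr ()] a : (Bool × Fin 3) ⊕ Unit) =
        ![.inl (false, 0), .inl (false, 1), .inl (true, 0), .inl (true, 1), .inl (i, 2),
          .inr ()] b → a = b := by
      decide
    apply key i
    let q : (Bool × (K.E ⊕ Fin 3)) ⊕ {p : Bool × Bool // p.1 ≠ p.2} → (Bool × Fin 3) ⊕ Unit :=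
      fun z => match z with
      | .inl (g, .inl _) => .inl (g, 0)
      | .inl (g, .inr j) => .inl (g, j)
      | .inr _ => .inr ()
    have hq := congrArg q h
    fin_cases a <;> fin_cases b <;> exact hq

theorem star (hB : Base K ℓ) {θ : Fin 3 → Fin 3} (hθ : Function.Injective θ) :
    ¬ Mc (K1 K ℓ) (K2 K ℓ) θ := by
  classical
  have hL2 : Lin (K2 K ℓ) := lin_KG hB.lin fun g h => h rfl
  have := K.finE
  rintro ⟨f, hf, hc⟩
  let Us : (K2 K ℓ).E → Prop := fun e' => ∃ e, Cov f e e'
  have hmiss : ∀ i, ∃ z, ¬ Us (rel i z) := by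
    intro i
    by_contra hcon
    push Not at hcon
    choose m hm using hcon
    have hinj : Function.Injective m := by
      intro a b hab
      have h1 := hm a
      rw [hab] at h1
      exact rel_inj i (cov_inj hL2 h1 (hm b))
    have hfin : Finite (K1 K ℓ).E := (K1 K ℓ).finE
    have h1 := Nat.card_le_card_of_injective m hinj
    have h2 : Nat.card (K.E ⊕ Fin 6) = Nat.card K.E + 6 := by
      rw [Nat.card_sum, Nat.card_eq_fintype_card (α := Fin 6), Fintype.card_fin]
    have h3 : Nat.card (K1 K ℓ).E = Nat.card K.E + 4 := by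
      change Nat.card ((Unit × (K.E ⊕ Fin 3)) ⊕ {p : Unit × Unit // True}) = _
      rw [Nat.card_sum, Nat.card_prod, Nat.card_sum, Nat.card_eq_fintype_card (α := Fin 3),
        Fintype.card_fin, Nat.card_unique, Nat.card_eq_fintype_card (α := {p : Unit × Unit // True})]
      simp
    omega
  obtain ⟨w, l, hwl⟩ := assign (fun i => Us (.inl (i, .inr 0))) (fun i => Us (.inl (i, .inr 1)))
    (fun i => Us (.inl (i, .inr 2))) (fun i => Us (.inr ⟨(i, !i), by cases i <;> simp⟩))
    (fun i => ∀ e, Us (.inl (i, .inl e))) (by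
      rintro i ⟨hR, p0, p1, q0, q1, hC, hB'⟩
      obtain ⟨z, hz⟩ := hmiss i
      apply hz
      rcases z with e | j
      · exact hR e
      · fin_cases j
        · exact p0
        · exact q0
        · exact p1
        · exact q1
        · exact hC
        · exact hB')
  have hχ : ∀ g : Bool, ∃ χ : K.V → Fin 3, (∀ x k, x ≠ ℓ → K.pr x = some k → χ x = k) ∧
      χ ℓ = l g ∧ ∀ e, Us (.inl (g, .inl e)) → ¬ Function.Injective fun i => χ (K.tri e i) := by
    intro g
    by_cases hl : l g = 0
    · have hR : ¬ ∀ e, Us (.inl (g, .inl e)) := fun h => (hwl g).2.2.2.2 h hl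
      rw [not_forall] at hR
      obtain ⟨e₁, he₁⟩ := hR
      obtain ⟨χ, h1, h2⟩ := hB.crit e₁
      refine ⟨χ, fun x k _ h => h1 x k h, ?_, ?_⟩
      · rw [hl]; exact h1 ℓ 0 hB.pr
      · intro e he
        apply h2
        rintro rfl
        exact he₁ he
    · obtain ⟨χ, h1, h2, h3⟩ := hB.free (l g) hl
      exact ⟨χ, h1, h2, fun e _ => h3 e⟩
  choose χ hχ1 hχ2 hχ3 using hχ
  let X : (K2 K ℓ).V → Fin 3 := fun v => match v with
    | .inl (g, .inl v) => χ g v
    | .inl (g, .inr j) => ![w g, 0, 1, 0, 2, 2] j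
    | .inr _ => 1
  have hXpr : ∀ x k, (K2 K ℓ).pr x = some k → X x = k := by
    rintro (⟨g, v | j⟩ | p) k hk
    · change (if v = ℓ then none else K.pr v) = some k at hk
      by_cases hv : v = ℓ
      · rw [if_pos hv] at hk; cases hk
      · rw [if_neg hv] at hk
        exact hχ1 g v k hv hk
    · change ![none, some 0, some 1, some 0, some 2, some 2] j = some k at hk
      change ![w g, 0, 1, 0, 2, 2] j = k
      fin_cases j <;> first | (simp at hk; done) | (exact Option.some_injective _ hk)
    · exact Option.some_injective _ hk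
  have hXr : ∀ e', Us e' → ¬ Function.Injective fun i => X ((K2 K ℓ).tri e' i) := by
    rintro (⟨g, e | j⟩ | ⟨⟨g, g'⟩, hgg⟩) he
    · exact hχ3 g e he
    · fin_cases j
      · have e1 : (fun i => X ((K2 K ℓ).tri (.inl (g, .inr 0)) i)) = ![0, 1, w g] := by
          funext i; fin_cases i <;> rfl
        change ¬ Function.Injective fun i => X ((K2 K ℓ).tri (.inl (g, .inr 0)) i)
        rw [e1]
        exact as1 _ ((hwl g).1 he)
      · have e1 : (fun i => X ((K2 K ℓ).tri (.inl (g, .inr 1)) i)) = ![0, 2, w g] := by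
          funext i; fin_cases i <;> rfl
        change ¬ Function.Injective fun i => X ((K2 K ℓ).tri (.inl (g, .inr 1)) i)
        rw [e1]
        exact as2 _ ((hwl g).2.1 he)
      · have e1 : (fun i => X ((K2 K ℓ).tri (.inl (g, .inr 2)) i)) = ![w g, 2, l g] := by
          funext i
          fin_cases i
          · rfl
          · rfl
          · exact hχ2 g
        change ¬ Function.Injective fun i => X ((K2 K ℓ).tri (.inl (g, .inr 2)) i)
        rw [e1]
        exact (hwl g).2.2.1 he
    · have hg' : g' = !g := by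
        have : g ≠ g' := hgg
        revert this
        cases g <;> cases g' <;> simp
      subst hg'
      have e1 : (fun i => X ((K2 K ℓ).tri (.inr ⟨(g, !g), hgg⟩) i)) = ![w (!g), 1, l g] := by
        funext i
        fin_cases i
        · rfl
        · rfl
        · exact hχ2 g
      rw [e1]
      exact (hwl g).2.2.2.1 he
  let Y : Vt (K2 K ℓ) → Fin 3 := fun v => match v with
    | .inl k => k
    | .inr x => X x
  have hm : Miss fun v => Y (f v) := by
    intro F
    obtain ⟨F', hF'⟩ := hf F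
    rcases ft_cases F' with ⟨e', rfl⟩ | ⟨x, a, k, hk, hak, rfl⟩
    · rcases ft_cases F with ⟨e, rfl⟩ | ⟨y, b, k, hk, hbk, rfl⟩
      · by_cases hu : Cov f e e'
        · obtain ⟨c, hc'⟩ := exists_missing (hXr e' ⟨e, hu⟩)
          refine ⟨c, ?_⟩
          intro v hv
          obtain ⟨i, hi⟩ := inc_e.mp (hF' v hv)
          change Y (f v) ≠ c
          rw [hi]
          exact hc' i
        · unfold Cov at hu
          rw [not_forall] at hu
          obtain ⟨j, hj⟩ := hu
          obtain ⟨j₁, j₂, -, hall⟩ := third' j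
          obtain ⟨c, hc1, hc2⟩ := missing_two (X ((K2 K ℓ).tri e' j₁)) (X ((K2 K ℓ).tri e' j₂))
          refine ⟨c, ?_⟩
          intro v hv
          obtain ⟨i, hi⟩ := inc_e.mp (hF' v hv)
          obtain ⟨i', rfl⟩ := inc_e.mp hv
          have hij : i ≠ j := by
            rintro rfl
            exact hj ⟨i', hi⟩
          change Y (f _) ≠ c
          rw [hi]
          rcases hall i hij with rfl | rfl
          · exact hc1.symm
          · exact hc2.symm
      · exfalso
        have h1 := hF' (.inl k) (inc_gd.mpr (Or.inr (Or.inl rfl)))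
        rw [hc] at h1
        exact h1
    · obtain ⟨c, hc1, hc2⟩ := missing_two a k
      refine ⟨c, ?_⟩
      intro v hv
      change Y (f v) ≠ c
      rcases inc_gd.mp (hF' v hv) with h | h | h
      · rw [h]; exact hc1.symm
      · rw [h]; exact hc2.symm
      · rw [h]
        change X x ≠ c
        rw [hXpr x k hk]; exact hc2.symm
  refine unsat_KG (G := Unit) (A := fun _ _ => True) hB.pr hB.unsat ⟨(), (), trivial⟩
    (sat_of_miss _ hm ?_)
  intro a b hab
  have h1 : Y (f (.inl a)) = Y (f (.inl b)) := hab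
  rw [hc, hc] at h1
  exact hθ h1

end

end Pool.Agent.helper45.Sem
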