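import Mathlib
import Pool.Agent.helper45.Sem.Kg3

/-!
# Critical subsystems
-/

namespace Pool.Agent.helper45.Sem

/-- the subsystem with the triples in `S` -/
def sb (K : Inst) (S : Set K.E) (σ : Fin 3 → Fin 3) : Inst where
  V := K.V
  E := {e // e ∈ S}
  tri e := K.tri e.1
  pr v := (K.pr v).map σ
  finV := K.finV
  finE := by
    have := K.finE
    infer_instance

theorem sat_sb {K : Inst} {S : Set K.E} {σ : Fin 3 ≃ Fin 3} :
    Sat (sb K S σ) ↔ ∃ χ : K.V → Fin 3, (∀ x k, K.pr x = some k → χ x = k) ∧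
      ∀ e ∈ S, ¬ Function.Injective fun i => χ (K.tri e i) := by
  constructor
  · rintro ⟨χ, h1, h2⟩
    refine ⟨fun v => σ.symm (χ v), ?_, ?_⟩
    · intro x k hk
      have h3 : χ x = σ k := by
        apply h1 x
        change (K.pr x).map σ = _
        rw [hk]; rfl
      change σ.symm (χ x) = k
      rw [h3, Equiv.symm_apply_apply]
    · intro e he hinj
      refine h2 ⟨e, he⟩ ?_
      intro i j hij
      apply hinj
      change σ.symm (χ _) = σ.symm (χ _)
      rw [show χ (K.tri e i) = χ (K.tri e j) from hij]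
  · rintro ⟨χ, h1, h2⟩
    refine ⟨fun v => σ (χ v), ?_, ?_⟩
    · intro x k hk
      have hk' : (K.pr x).map σ = some k := hk
      rw [Option.map_eq_some_iff] at hk'
      obtain ⟨m, hm, rfl⟩ := hk'
      change σ (χ x) = σ m
      rw [h1 x m hm]
    · rintro ⟨e, he⟩ hinj
      refine h2 e he ?_
      intro i j hij
      apply hinj
      exact congrArg σ (show χ (K.tri e i) = χ (K.tri e j) from hij)

theorem exists_base {K : Inst} (hL : Lin K) (hU : ¬ Sat K)
    (hleaf : ∀ e e' i i', K.tri e i = K.tri e' i' → (K.pr (K.tri e i)).isSome → e = e') :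
    ∃ (K' : Inst) (ℓ : K'.V) (σ : Fin 3 ≃ Fin 3) (ι : K'.V → K.V) (κ : K'.E → K.E), Base K' ℓ ∧
      (∀ v k, K'.pr v = some k → K.pr (ι v) = some (σ k)) ∧
      ∀ e i, ι (K'.tri e i) = K.tri (κ e) i := by
  classical
  have := K.finE
  let P : Set K.E → Prop := fun S => ∃ χ : K.V → Fin 3, (∀ x k, K.pr x = some k → χ x = k) ∧
      ∀ e ∈ S, ¬ Function.Injective fun i => χ (K.tri e i)
  have hne : {S : Set K.E | ¬ P S}.Nonempty := by
    refine ⟨Set.univ, ?_⟩
    rintro ⟨χ, h1, h2⟩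
    exact hU ⟨χ, h1, fun e => h2 e (Set.mem_univ _)⟩
  obtain ⟨S, hS, hmin⟩ := (wellFounded_lt (α := Set K.E)).has_min _ hne
  have hmin' : ∀ S' : Set K.E, S' ⊂ S → P S' := by
    intro S' hS'
    by_contra h
    exact hmin S' h hS'
  have hex : ∃ e ∈ S, ∃ i k, K.pr (K.tri e i) = some k := by
    by_contra hcon
    push Not at hcon
    apply hS
    refine ⟨fun v => (K.pr v).getD 0, ?_, ?_⟩
    · intro x k hk
      change (K.pr x).getD 0 = k
      rw [hk]; rfl
    · intro e he hinj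
      have h0 : ∀ i, (K.pr (K.tri e i)).getD 0 = 0 := by
        intro i
        cases h : K.pr (K.tri e i) with
        | none => rfl
        | some k => exact absurd h (hcon e he i k)
      have h1 : (0 : Fin 3) = 1 := hinj (by
        change (K.pr (K.tri e 0)).getD 0 = (K.pr (K.tri e 1)).getD 0
        rw [h0, h0])
      exact absurd h1 (by decide)
  obtain ⟨e₀, he₀, i₀, k₀, hk₀⟩ := hex
  let σ : Fin 3 ≃ Fin 3 := Equiv.swap 0 k₀
  have hσσ : ∀ k, σ (σ k) = k := fun k => Equiv.swap_apply_self 0 k₀ k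
  have hU' : ¬ Sat (sb K S σ) := fun h => hS (sat_sb.mp h)
  have hσ0 : σ k₀ = 0 := Equiv.swap_apply_right 0 k₀
  have hpr0 : (K.pr (K.tri e₀ i₀)).map σ = some 0 := by
    rw [hk₀]
    change some (σ k₀) = some 0
    rw [hσ0]
  have hcrit : ∀ e₁ : {e // e ∈ S}, ∃ χ : K.V → Fin 3,
      (∀ x k, (K.pr x).map σ = some k → χ x = k) ∧
      ∀ e : {e // e ∈ S}, e ≠ e₁ → ¬ Function.Injective fun i => χ (K.tri e.1 i) := by
    rintro ⟨e₁, he₁⟩
    obtain ⟨χ, h1, h2⟩ := hmin' (S \ {e₁}) (Set.sdiff_singleton_ssubset.mpr he₁)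
    refine ⟨fun v => σ (χ v), ?_, ?_⟩
    · intro x k hk
      rw [Option.map_eq_some_iff] at hk
      obtain ⟨m, hm, rfl⟩ := hk
      change σ (χ x) = σ m
      rw [h1 x m hm]
    · rintro ⟨e, he⟩ hne hinj
      refine h2 e ⟨he, fun h => hne (Subtype.ext h)⟩ ?_
      intro i j hij
      apply hinj
      change σ (χ _) = σ (χ _)
      rw [show χ (K.tri e i) = χ (K.tri e j) from hij]
  refine ⟨sb K S σ, K.tri e₀ i₀, σ, fun v => v, fun e => e.1, ⟨?_, hpr0, hU', hcrit, ?_⟩, ?_,
    fun e i => rfl⟩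
  · refine ⟨fun e => hL.inj e.1, ?_⟩
    rintro ⟨e, he⟩ ⟨e', he'⟩ i j i' j' hij h1 h2
    exact Subtype.ext (hL.lin e e' i j i' j' hij h1 h2)
  · intro κ hκ
    obtain ⟨χ₀, h1, h2⟩ := hcrit ⟨e₀, he₀⟩
    have hrb : Function.Injective fun i => χ₀ (K.tri e₀ i) := by
      by_contra hcon
      apply hU'
      refine ⟨χ₀, h1, ?_⟩
      rintro ⟨e, he⟩
      by_cases h : e = e₀
      · subst h; exact hcon
      · exact h2 ⟨e, he⟩ (fun h' => h (congrArg Subtype.val h'))
    have h0 : χ₀ (K.tri e₀ i₀) = 0 := h1 _ 0 hpr0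
    refine ⟨fun v => if v = K.tri e₀ i₀ then κ else χ₀ v, ?_, if_pos rfl, ?_⟩
    · intro x k hx hk
      change (if x = K.tri e₀ i₀ then κ else χ₀ x) = k
      rw [if_neg hx]
      exact h1 x k hk
    · rintro ⟨e, he⟩ hinj
      by_cases h : e = e₀
      · subst h
        obtain ⟨j, hj⟩ := (Finite.injective_iff_surjective.mp hrb) κ
        have hj' : χ₀ (K.tri e j) = κ := hj
        have hji : j ≠ i₀ := by
          rintro rfl
          rw [h0] at hj'
          exact hκ hj'.symm
        apply hji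
        apply hinj
        change (if K.tri e j = K.tri e i₀ then κ else χ₀ (K.tri e j)) =
          (if K.tri e i₀ = K.tri e i₀ then κ else χ₀ (K.tri e i₀))
        rw [if_pos rfl, if_neg (fun h => hji (hL.inj e h))]
        exact hj'
      · refine h2 ⟨e, he⟩ (fun h' => h (congrArg Subtype.val h')) ?_
        have hne : ∀ i, K.tri e i ≠ K.tri e₀ i₀ := by
          intro i hi
          exact h (hleaf e e₀ i i₀ hi (by rw [hi, hk₀]; rfl))
        intro i j hij
        apply hinj
        change (if K.tri e i = K.tri e₀ i₀ then κ else χ₀ (K.tri e i)) =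
          (if K.tri e j = K.tri e₀ i₀ then κ else χ₀ (K.tri e j))
        rw [if_neg (hne i), if_neg (hne j)]
        exact hij
  · intro v k hk
    have hk' : (K.pr v).map σ = some k := hk
    rw [Option.map_eq_some_iff] at hk'
    obtain ⟨m, hm, rfl⟩ := hk'
    rw [hσσ]
    exact hm

end Pool.Agent.helper45.Sem
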