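import Mathlib
import Pool.Agent.SEM.Col

/-!
# Failure of the colouring condition: the second configuration and a finite subsystem
-/

universe u v

open Pool.Agent.helper9.Incl Pool.Agent.helper45.Inc Pool.Agent.SEM

namespace Pool.Agent.helper45.Sem

section
variable {T : Type u} [Semigroup T]

theorem n2_of_not_col (hT : IsSL T) (h : ¬ Col T) :
    ∃ x y z t₂ r : T, N2 x y z t₂ ∧ r * t₂ ≠ t₂ := by
  classical
  by_contra hcon
  push Not at hcon
  obtain ⟨hc, hi⟩ := hT
  have hN : ∀ x y z t₂ r : T, x * z = t₂ → y * t₂ = t₂ → x * y ≠ t₂ → y * z ≠ t₂ →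
      r * t₂ = t₂ := fun x y z t₂ r h1 h2 h3 h4 => hcon x y z t₂ r ⟨⟨hc, hi⟩, h1, h2, h3, h4⟩
  apply h
  intro a b c t habc hab hbc hac
  have hat : a * t = t := by rw [← habc, ← mul_assoc, ← mul_assoc, hi]
  have hct : c * t = t := by rw [← habc, hc, mul_assoc, hi]
  have hbt : b * t = t := by
    rw [← habc, hc a b, ← mul_assoc, ← mul_assoc, hi]
  -- laws for rearranging
  have lc : ∀ x y z : T, x * (y * z) = y * (x * z) := fun x y z => by
    rw [← mul_assoc, hc x y, mul_assoc]
  have hii : ∀ x y : T, x * (x * y) = x * y := fun x y => by rw [← mul_assoc, hi]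
  have hne : ∀ {t₀ : T}, t₀ ≠ t → t₀ * t = t → t * t₀ ≠ t₀ := by
    intro t₀ h1 h2 h3
    rw [hc, h2] at h3
    exact h1 h3.symm
  refine ⟨fun x => if x * (a * c) = t then 1 else if x * a ≠ x * (a * c) then 0 else 2,
    ?_, ?_, ?_, ?_⟩
  · have h1 : a * (a * c) ≠ t := by rw [hii]; exact hac
    have h2 : a * a ≠ a * (a * c) := by
      rw [hi, hii]
      intro h3
      apply hab
      calc a * b = a * c * b := congrArg (· * b) h3
        _ = a * b * c := by rw [mul_assoc, hc c b, ← mul_assoc]
        _ = t := habc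
    change (if a * (a * c) = t then (1 : Fin 3) else if a * a ≠ a * (a * c) then 0 else 2) = 0
    rw [if_neg h1, if_pos h2]
  · have h1 : b * (a * c) = t := by rw [lc, ← mul_assoc]; exact habc
    change (if b * (a * c) = t then (1 : Fin 3) else if b * a ≠ b * (a * c) then 0 else 2) = 1
    rw [if_pos h1]
  · have h1 : c * (a * c) ≠ t := by rw [lc, hi]; exact hac
    have h2 : ¬ c * a ≠ c * (a * c) := by
      rw [not_not, lc, hi, hc]
    change (if c * (a * c) = t then (1 : Fin 3) else if c * a ≠ c * (a * c) then 0 else 2) = 2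
    rw [if_neg h1, if_neg h2]
  · intro x y z hx hy hz cx cy cz
    change (if x * (a * c) = t then (1 : Fin 3) else if x * a ≠ x * (a * c) then 0 else 2) = 0
      at cx
    change (if y * (a * c) = t then (1 : Fin 3) else if y * a ≠ y * (a * c) then 0 else 2) = 1
      at cy
    change (if z * (a * c) = t then (1 : Fin 3) else if z * a ≠ z * (a * c) then 0 else 2) = 2
      at cz
    have x1 : x * (a * c) ≠ t := by
      intro h; rw [if_pos h] at cx; exact absurd cx (by decide)
    have x2 : x * a ≠ x * (a * c) := by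
      intro h; rw [if_neg x1, if_neg (not_not.mpr h)] at cx; exact absurd cx (by decide)
    have y1 : y * (a * c) = t := by
      by_contra h
      rw [if_neg h] at cy
      split_ifs at cy <;> exact absurd cy (by decide)
    have z1 : z * (a * c) ≠ t := by
      intro h; rw [if_pos h] at cz; exact absurd cz (by decide)
    have z2 : z * a = z * (a * c) := by
      by_contra h
      rw [if_neg z1, if_pos h] at cz; exact absurd cz (by decide)
    have hact : (a * c) * t = t := by rw [mul_assoc, hct, hat]
    have t0t : x * (a * c) * t = t := by rw [mul_assoc, hact, hx]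
    -- x c = x a c
    have q1 : x * c = x * (a * c) := by
      by_contra hxc
      refine hne x1 t0t (hN (x * a) x (x * c) _ t ?_ ?_ ?_ ?_)
      · rw [mul_assoc, lc a x c, hii]
      · rw [hii]
      · rw [hc, hii]; exact x2
      · rw [hii]; exact hxc
    have q2 : a * c = x * (a * c) := by
      by_contra hac'
      refine hne x1 t0t (hN (x * a) a (a * c) _ t ?_ ?_ ?_ ?_)
      · rw [mul_assoc, hii]
      · rw [lc, hii]
      · rw [mul_assoc, hi]; exact x2
      · rw [hii]; exact hac'
    have t2t : z * (a * c) * t = t := by rw [mul_assoc, hact, hz]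
    have hxzac : x * (z * (a * c)) = z * (a * c) := by rw [lc, ← q2]
    have q3 : z * x = z * (a * c) := by
      by_contra hzx
      refine hne z1 t2t (hN z x a _ t z2 hxzac hzx ?_)
      intro h3
      apply x2
      rw [← q2]
      -- x a = z a c, so x a = x a * c
      have h4 : x * a * (a * c) = x * a := by
        rw [h3, mul_assoc, hi]
      rw [mul_assoc, hii, ← q2] at h4
      exact h4.symm
    rw [hc x y, mul_assoc, hc x z, q3, lc, y1, hz]

/-- a finite set of triples that cannot be coloured -/
theorem exists_finite {X : Type u} (C : Set (Fin 3 → X)) (c : Fin 3 → X)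
    (hU : ¬ ∃ χ : X → Fin 3, (∀ k, χ (c k) = k) ∧ ∀ e ∈ C, ¬ Function.Injective fun i => χ (e i)) :
    ∃ C₀ : Set (Fin 3 → X), C₀ ⊆ C ∧ C₀.Finite ∧ ¬ ∃ χ : X → Fin 3, (∀ k, χ (c k) = k) ∧
      ∀ e ∈ C₀, ¬ Function.Injective fun i => χ (e i) := by
  classical
  have hcl : ∀ e : Fin 3 → X, IsClosed {χ : X → Fin 3 | ¬ Function.Injective fun i => χ (e i)} := by
    intro e
    have h1 : Continuous fun χ : X → Fin 3 => fun i => χ (e i) :=
      continuous_pi fun i => continuous_apply (e i)
    exact (isClosed_discrete {g : Fin 3 → Fin 3 | ¬ Function.Injective g}).preimage h1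
  have hs : IsCompact {χ : X → Fin 3 | ∀ k, χ (c k) = k} := by
    apply IsClosed.isCompact
    have h2 : {χ : X → Fin 3 | ∀ k, χ (c k) = k} = ⋂ k, {χ : X → Fin 3 | χ (c k) = k} := by
      ext χ
      simp
    rw [h2]
    exact isClosed_iInter fun k => isClosed_singleton.preimage
      (f := fun χ : X → Fin 3 => χ (c k)) (continuous_apply (c k))
  obtain ⟨s, hs2⟩ := hs.elim_finite_subfamily_closed
    (fun e : C => {χ : X → Fin 3 | ¬ Function.Injective fun i => χ (e.1 i)}) (fun e => hcl e.1) (by
      rw [Set.eq_empty_iff_forall_notMem]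
      rintro χ ⟨h1, h2⟩
      apply hU
      refine ⟨χ, h1, ?_⟩
      intro e he
      rw [Set.mem_iInter] at h2
      exact h2 ⟨e, he⟩)
  refine ⟨Subtype.val '' (s : Set C), ?_, (s.finite_toSet).image _, ?_⟩
  · rintro _ ⟨e, -, rfl⟩
    exact e.2
  · rintro ⟨χ, h1, h2⟩
    rw [Set.eq_empty_iff_forall_notMem] at hs2
    apply hs2 χ
    refine ⟨h1, ?_⟩
    rw [Set.mem_iInter₂]
    intro e he
    exact h2 e.1 ⟨e, he, rfl⟩

end

end Pool.Agent.helper45.Sem
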