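import Mathlib
import Pool.Agent.helper45.Sem.Kg3
import Pool.Agent.helper45.Inc.Rees

/-!
# The antichain
-/

universe u v

open Pool.Agent.helper9.Incl Pool.Agent.helper45.Inc

namespace Pool.Agent.helper45.Sem

/-- the system of copies along a digraph -/
noncomputable def KD (K : Inst) (ℓ : K.V) (D : Dg) : Inst :=
  have := D.fin
  KG K ℓ D.V D.A

/-- the number of colours used against a target -/
noncomputable def chn (K L : Inst) : ℕ := Nat.card (K.V ⊕ Fin 6 → Vt L)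

theorem no_map {K : Inst} {ℓ : K.V} (hB : Base K ℓ) {D D' : Dg} (hD : Chr D 1) (hD' : Chr D' 1)
    (h : (Bip D' (2 * Nat.card (Vt (KD K ℓ D))) ∧ Chr D (chn K (K2 K ℓ))) ∨
      (Chr D (chn K (KD K ℓ D')) ∧ Bip D' (2 * Nat.card (Vt (K1 K ℓ))))) :
    ¬ Mp (KD K ℓ D) (KD K ℓ D') := by
  have := D.fin
  have := D'.fin
  obtain ⟨x, y, hxy, -⟩ := hD fun _ => 0
  obtain ⟨x', y', hxy', -⟩ := hD' fun _ => 0
  have : Nonempty D.V := ⟨x⟩
  have : Nonempty D'.V := ⟨x'⟩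
  intro hmp
  have hmp' : Mp (KG K ℓ D.V D.A) (KG K ℓ D'.V D'.A) := hmp
  obtain ⟨θ, hθ, hmc⟩ := Mp.norm (unsat_KG hB.pr hB.unsat ⟨x, y, hxy⟩) cp_KG
    (lin_KG hB.lin D'.irrefl) cp_KG hmp'
  rcases h with ⟨h1, h2⟩ | ⟨h1, h2⟩
  · exact star hB hθ (rich h2 (loc h1 hmc))
  · exact star hB hθ (loc h2 (rich h1 hmc))

/-- the digraphs and their bounds -/
noncomputable def sq (K : Inst) (ℓ : K.V) : ℕ → ℕ × Dg
  | 0 => (chn K (K2 K ℓ) + 2 * Nat.card (Vt (K1 K ℓ)) + 1,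
      (exists_dg' (chn K (K2 K ℓ) + 2 * Nat.card (Vt (K1 K ℓ)) + 1)).choose)
  | n + 1 =>
    ((sq K ℓ n).1 + chn K (KD K ℓ (sq K ℓ n).2) + 2 * Nat.card (Vt (KD K ℓ (sq K ℓ n).2)),
      (exists_dg' ((sq K ℓ n).1 + chn K (KD K ℓ (sq K ℓ n).2) +
        2 * Nat.card (Vt (KD K ℓ (sq K ℓ n).2)))).choose)

theorem sq_spec (K : Inst) (ℓ : K.V) (n : ℕ) :
    Chr (sq K ℓ n).2 (sq K ℓ n).1 ∧ Bip (sq K ℓ n).2 (sq K ℓ n).1 := by
  cases n with
  | zero => exact (exists_dg' _).choose_spec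
  | succ n => exact (exists_dg' _).choose_spec

theorem sq_succ (K : Inst) (ℓ : K.V) (n : ℕ) : (sq K ℓ (n + 1)).1 =
    (sq K ℓ n).1 + chn K (KD K ℓ (sq K ℓ n).2) + 2 * Nat.card (Vt (KD K ℓ (sq K ℓ n).2)) := rfl

theorem sq_mono (K : Inst) (ℓ : K.V) : Monotone fun n => (sq K ℓ n).1 := by
  apply monotone_nat_of_le_succ
  intro n
  rw [sq_succ]
  omega

theorem sq_zero (K : Inst) (ℓ : K.V) (n : ℕ) :
    chn K (K2 K ℓ) + 2 * Nat.card (Vt (K1 K ℓ)) + 1 ≤ (sq K ℓ n).1 :=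
  sq_mono K ℓ (Nat.zero_le n)

theorem sq_lt (K : Inst) (ℓ : K.V) {n m : ℕ} (h : n < m) :
    chn K (KD K ℓ (sq K ℓ n).2) + 2 * Nat.card (Vt (KD K ℓ (sq K ℓ n).2)) ≤ (sq K ℓ m).1 := by
  have h1 : (sq K ℓ (n + 1)).1 ≤ (sq K ℓ m).1 := sq_mono K ℓ h
  rw [sq_succ] at h1
  omega

theorem anti {K : Inst} {ℓ : K.V} (hB : Base K ℓ) {n m : ℕ} (h : n ≠ m) :
    ¬ Mp (KD K ℓ (sq K ℓ n).2) (KD K ℓ (sq K ℓ m).2) := by
  obtain ⟨c1, b1⟩ := sq_spec K ℓ n
  obtain ⟨c2, b2⟩ := sq_spec K ℓ m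
  have z1 := sq_zero K ℓ n
  have z2 := sq_zero K ℓ m
  refine no_map hB (c1.mono (by omega)) (c2.mono (by omega)) ?_
  rcases lt_or_gt_of_ne h with h | h
  · have := sq_lt K ℓ h
    exact Or.inl ⟨b2.mono (by omega), c1.mono (by omega)⟩
  · have := sq_lt K ℓ h
    exact Or.inr ⟨c1.mono (by omega), b2.mono (by omega)⟩

theorem continuum_base {V : SgClass.{u}} (hV : IsInclVariety V) {T : Type u} [Semigroup T]
    (hT : V T) {c : Fin 3 → T} {t : T} (h : Hol c t) {T₂ : Type u} [Semigroup T₂] (hT₂ : V T₂)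
    {x y z t₂ r : T₂} (h2 : N2 x y z t₂) (hr : r * t₂ ≠ t₂) {K : Inst} {ℓ : K.V} (hB : Base K ℓ)
    (π : K.V → T) (hπt : ∀ v, π v * t = t) (hπp : ∀ v k, K.pr v = some k → π v = c k)
    (hπe : ∀ e, π (K.tri e 0) * π (K.tri e 1) * π (K.tri e 2) ≠ t) :
    ∃ F : Set ℕ → SgClass.{u}, Function.Injective F ∧ ∀ A, F A ∈ InclSub V := by
  classical
  obtain ⟨hc, hi⟩ := h.sl
  have hne : ∀ n, Nonempty (sq K ℓ n).2.V := by
    intro n
    have h1 := sq_zero K ℓ n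
    obtain ⟨x, -⟩ := ((sq_spec K ℓ n).1.mono (show 1 ≤ _ by omega)) fun _ => 0
    exact ⟨x⟩
  have hL : ∀ n, Lin (KD K ℓ (sq K ℓ n).2) := by
    intro n
    have := (sq K ℓ n).2.fin
    exact lin_KG hB.lin (sq K ℓ n).2.irrefl
  have hC : ∀ n, CP (KD K ℓ (sq K ℓ n).2) := by
    intro n
    have := (sq K ℓ n).2.fin
    have := hne n
    exact cp_KG
  have hab : ∀ k l : Fin 3, k ≠ l → c k * c l * c k ≠ t := by
    intro k l hkl
    rw [mul_assoc, hc (c l), ← mul_assoc, hi]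
    exact h.ne k l hkl
  refine continuum_of_antichain hV (fun n => IS.{u} (KD K ℓ (sq K ℓ n).2)) ?_ ?_
  · intro n
    have := (sq K ℓ n).2.fin
    have hLn := hL n
    have hCn := hC n
    change V (IS.{u} (KD K ℓ (sq K ℓ n).2))
    generalize (sq K ℓ n).2 = D at *
    let p : (D.V × (K.V ⊕ Fin 6)) ⊕ (D.V × D.V) → T := fun v => match v with
      | .inl (_, .inl v) => π v
      | .inl (_, .inr j) => ![c 0, c 0, c 1, c 0, c 2, c 2] j
      | .inr _ => c 1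
    refine mem_IS hV hT h hT₂ h2 hr hLn hCn p ?_ ?_ ?_
    · rintro (⟨g, v | j⟩ | q)
      · exact hπt v
      · fin_cases j
        · exact h.ge 0
        · exact h.ge 0
        · exact h.ge 1
        · exact h.ge 0
        · exact h.ge 2
        · exact h.ge 2
      · exact h.ge 1
    · rintro (⟨g, v | j⟩ | q) k hk
      · change (if v = ℓ then none else K.pr v) = some k at hk
        by_cases hv : v = ℓ
        · rw [if_pos hv] at hk; cases hk
        · rw [if_neg hv] at hk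
          exact hπp v k hk
      · change ![none, some 0, some 1, some 0, some 2, some 2] j = some k at hk
        change ![c 0, c 0, c 1, c 0, c 2, c 2] j = c k
        fin_cases j <;> first | (simp at hk; done) | (cases Option.some_injective _ hk; rfl)
      · have h3 : (1 : Fin 3) = k := Option.some_injective _ hk
        change c 1 = c k
        rw [h3]
    · rintro (⟨g, e | j⟩ | ⟨⟨g, g'⟩, hgg⟩)
      · exact hπe e
      · fin_cases j
        · exact hab 0 1 (by decide)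
        · exact hab 0 2 (by decide)
        · change c 0 * c 2 * π ℓ ≠ t
          rw [hπp ℓ 0 hB.pr]
          exact hab 0 2 (by decide)
      · change c 0 * c 1 * π ℓ ≠ t
        rw [hπp ℓ 0 hB.pr]
        exact hab 0 1 (by decide)
  · intro n
    obtain ⟨w, φ, hw⟩ := kernel.{u} (KD K ℓ (sq K ℓ n).2) (hC n)
    exact ⟨w, φ, fun k hk => hw _ (hL k) (hC k) (anti hB hk.symm)⟩

end Pool.Agent.helper45.Sem
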