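import Mathlib
import Pool.Agent.helper45.Sem.Seq
import Pool.Agent.helper45.Sem.Crit
import Pool.Agent.helper45.Sem.Reg
import Pool.Agent.SEM.L

/-!
# Failure of the colouring condition gives a continuum of subvarieties
-/

universe u v

open Pool.Agent.helper9.Incl Pool.Agent.helper45.Inc Pool.Agent.SEM

namespace Pool.Agent.helper45.Sem

theorem Hol.perm {T : Type u} [Semigroup T] {c : Fin 3 → T} {t : T} (h : Hol c t)
    (σ : Fin 3 ≃ Fin 3) : Hol (fun k => c (σ k)) t := by
  obtain ⟨⟨hc, hi⟩, hp, hn⟩ := h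
  refine ⟨⟨hc, hi⟩, ?_, fun k l hkl => hn _ _ fun h => hkl (σ.injective h)⟩
  have key : ∀ i j k : Fin 3, i ≠ j → i ≠ k → j ≠ k → c i * c j * c k = c 0 * c 1 * c 2 := by
    intro i j k
    fin_cases i <;> fin_cases j <;> fin_cases k <;> intro h1 h2 h3 <;>
      first
      | exact absurd rfl h1
      | exact absurd rfl h2
      | exact absurd rfl h3
      | rfl
      | (change c 0 * c 2 * c 1 = c 0 * c 1 * c 2
         rw [mul_assoc, mul_assoc, hc (c 2)])
      | (change c 1 * c 0 * c 2 = c 0 * c 1 * c 2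
         rw [hc (c 1)])
      | (change c 1 * c 2 * c 0 = c 0 * c 1 * c 2
         rw [hc, mul_assoc])
      | (change c 2 * c 0 * c 1 = c 0 * c 1 * c 2
         rw [mul_assoc, hc (c 2)])
      | (change c 2 * c 1 * c 0 = c 0 * c 1 * c 2
         rw [hc, hc (c 2), mul_assoc])
  change c (σ 0) * c (σ 1) * c (σ 2) = t
  rw [key _ _ _ (fun h => absurd (σ.injective h) (by decide))
    (fun h => absurd (σ.injective h) (by decide)) (fun h => absurd (σ.injective h) (by decide))]
  exact hp

theorem continuum_of_not_col {V : SgClass.{u}} (hV : IsInclVariety V) {T : Type u} [Semigroup T]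
    (hT : V T) (hS : IsSL T) (h : ¬ Col T) :
    ∃ F : Set ℕ → SgClass.{u}, Function.Injective F ∧ ∀ A, F A ∈ InclSub V := by
  classical
  obtain ⟨x, y, z, t₂, r, h2, hr⟩ := n2_of_not_col hS h
  obtain ⟨hc, hi⟩ := hS
  unfold Col at h
  push Not at h
  obtain ⟨a, b, d, t, hp, hab, hbd, had, hχ⟩ := h
  let c : Fin 3 → T := ![a, b, d]
  have hat : a * t = t := by rw [← hp, ← mul_assoc, ← mul_assoc, hi]
  have hdt : d * t = t := by rw [← hp, hc, mul_assoc, hi]
  have hbt : b * t = t := by
    rw [← hp, hc a b, ← mul_assoc, ← mul_assoc, hi]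
  have hH : Hol c t := by
    refine ⟨⟨hc, hi⟩, hp, ?_⟩
    intro k l hkl
    fin_cases k <;> fin_cases l <;>
      first
      | exact absurd rfl hkl
      | exact hab
      | exact hbd
      | exact had
      | exact fun h => hab (by rw [hc]; exact h)
      | exact fun h => hbd (by rw [hc]; exact h)
      | exact fun h => had (by rw [hc]; exact h)
  have hcinj : Function.Injective c := by
    intro k l hkl
    by_contra hne
    obtain ⟨m, hm1, hm2, hall⟩ := third hne
    have h3 := hH.ne l m hm1.symm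
    apply h3
    have h4 := hH.prod
    -- the product of all three is the product of two
    have h5 : c l * c m * t = t := hH.ge2 l m
    have h6 : t * (c l * c m) = c l * c m := by
      apply hH.absorb
      intro j
      rcases hall j with rfl | rfl | rfl
      · rw [← mul_assoc, hi]
      · rw [hkl, ← mul_assoc, hi]
      · rw [hc (c l), ← mul_assoc, hi]
    rw [hc, h5] at h6
    exact h6.symm
  set C : Set (Fin 3 → T) := {e | (∀ i, e i * t = t) ∧ e 0 * e 1 * e 2 ≠ t} with hC
  have hU : ¬ ∃ χ : T → Fin 3, (∀ k, χ (c k) = k) ∧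
      ∀ e ∈ C, ¬ Function.Injective fun i => χ (e i) := by
    rintro ⟨χ, h1, h2⟩
    obtain ⟨p, q, s, hpt, hqt, hst, c0, c1, c2, hne⟩ := hχ χ (h1 0) (h1 1) (h1 2)
    refine h2 ![p, q, s] ⟨?_, hne⟩ ?_
    · intro i
      fin_cases i
      · exact hpt
      · exact hqt
      · exact hst
    · have e1 : (fun i => χ (![p, q, s] i)) = fun i => i := by
        funext i
        fin_cases i
        · exact c0
        · exact c1
        · exact c2
      rw [e1]
      exact fun i j hij => hij
  obtain ⟨C₀, hC₀, hfin, hU₀⟩ := exists_finite C c hU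
  obtain ⟨K, p, hL, hUK, hpr, hE, hleaf⟩ := exists_lin C₀ hfin c hcinj hU₀
  obtain ⟨K', ℓ, σ, ι, κ, hB, hι, hκ⟩ := exists_base hL hUK hleaf
  let π : K'.V → T := fun v => if p (ι v) * t = t then p (ι v) else t
  have hπ : ∀ v, p (ι v) * t = t → π v = p (ι v) := fun v hv => if_pos hv
  refine continuum_base hV hT (hH.perm σ) hT h2 hr hB π ?_ ?_ ?_
  · intro v
    change (if p (ι v) * t = t then p (ι v) else t) * t = t
    split_ifs with hv
    · exact hv
    · exact hi t
  · intro v k hk
    have h3 := hpr (ι v) _ (hι v k hk)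
    rw [hπ v (by rw [h3]; exact hH.ge _), h3]
  · intro e
    have h3 : ∀ i, p (ι (K'.tri e i)) = p (K.tri (κ e) i) := fun i => by rw [hκ]
    have h4 := hC₀ (hE (κ e))
    obtain ⟨h5, h6⟩ := h4
    have h7 : ∀ i, π (K'.tri e i) = p (K.tri (κ e) i) := by
      intro i
      rw [hπ _ (by rw [h3]; exact h5 i), h3]
    rw [h7, h7, h7]
    exact h6

end Pool.Agent.helper45.Sem
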