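import Mathlib
import Pool.Agent.helper2.Inc.FinB
import Pool.Agent.SEM.Col

/-!
# The eight types of a semilattice with the colouring condition
-/

universe u v

open Pool.Agent.helper9.Incl Pool.Agent.helper45.Inc Pool.Agent.helper2.Inc Pool.Agent.SEM

namespace Pool.Agent.helper45.Sem

/-- the argument is helper2's (`Pool.Agent.helper2.Inc.key`) -/
theorem key7 {T : Type u} [Semigroup T] (hT : SL T) (φ : Word →ₙ* T) (u : Word)
    (hb : ∃ p ∈ lts u, ∃ q ∈ lts u, φ (FreeSemigroup.of p) * φ (FreeSemigroup.of q) = φ u) :
    ∃ i : Fin 7, Q i T ∧ ∀ (S : Type u) [Semigroup S], SL S → Q i S → Ctl φ u S := by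
  classical
  set f : ℕ → T := fun y => φ (FreeSemigroup.of y) with hf
  set t := φ u with ht
  have hlive : ∀ y ∈ lts u, f y * t = t := live hT φ u
  have hclose : ∀ w : Word, (∀ y ∈ lts w, f y * t = t) → ∀ p ∈ lts w, ∀ r ∈ lts w,
      f p * f r = t → t = φ w := fun w h1 p hp r hr hpr => (close hT φ w t h1 hp hr hpr).symm
  have hcomm := hT.1
  have hidem := hT.2
  by_cases hk1 : ∃ p ∈ lts u, f p = t
  · obtain ⟨p, hp, hpt⟩ := hk1
    have hpp : f p * f p = t := by rw [hidem, hpt]
    by_cases hd : ∃ d, f d * t ≠ t
    · obtain ⟨d, hd⟩ := hd
      have hdt : f d * t * t = f d * t := by rw [mul_assoc, hidem]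
      by_cases hz : ∃ z ∈ lts u, f z ≠ t
      · -- chain of three elements
        obtain ⟨z, hz, hzt⟩ := hz
        refine ⟨2, ⟨f d * t, t, f z, hdt, hd, ?_, Ne.symm hzt⟩, ?_⟩
        · rw [hcomm]; exact hlive z hz
        · rintro S _ hS ⟨e', s', z', h1, h2, h3, h4⟩
          let g : ℕ → S := fun y => if y ∈ lts u then (if y = p then s' else z') else e'
          have gu : ∀ y ∈ lts u, g y * s' = s' := by
            intro y hy
            simp only [g, if_pos hy]
            split_ifs
            · exact hS.2 _
            · rw [hS.1]; exact h3
          have gp : g p = s' := by simp only [g, if_pos hp, if_true]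
          have hu : FreeSemigroup.lift g u = s' :=
            ev_eq hS g u s' gu hp hp (by rw [gp, hS.2])
          refine ⟨FreeSemigroup.lift g, ?_⟩
          intro w hw
          rw [hu] at hw
          have hw' := hw.symm
          have hsub : ∀ y ∈ lts w, y ∈ lts u := by
            intro y hy
            by_contra hcon
            exact sep_low hS g w h1 h2 hw' hy (by simp only [g, if_neg hcon])
          have hpw : p ∈ lts w := by
            by_contra hcon
            have h5 := ev_ge g w z' (by
              intro y hy
              have : y ≠ p := fun h => hcon (h ▸ hy)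
              simp only [g, if_pos (hsub y hy), if_neg this]
              exact hS.2 _)
            rw [hw', h3] at h5
            exact h4 h5
          exact hclose w (fun y hy => hlive y (hsub y hy)) p hpw p hpw hpp
      · push Not at hz
        refine ⟨1, ⟨f d * t, t, hdt, hd⟩, ?_⟩
        rintro S _ hS ⟨e', s', h1, h2⟩
        let g : ℕ → S := fun y => if y ∈ lts u then s' else e'
        have gu : ∀ y ∈ lts u, g y = s' := by
          intro y hy
          simp only [g, if_pos hy]
        have hu : FreeSemigroup.lift g u = s' :=
          ev_eq hS g u s' (fun y hy => by rw [gu y hy, hS.2]) hp hp (by rw [gu p hp, hS.2])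
        refine ⟨FreeSemigroup.lift g, ?_⟩
        intro w hw
        rw [hu] at hw
        have hw' := hw.symm
        have hsub : ∀ y ∈ lts w, y ∈ lts u := by
          intro y hy
          by_contra hcon
          exact sep_low hS g w h1 h2 hw' hy (by simp only [g, if_neg hcon])
        obtain ⟨y, hy⟩ := lts_nonempty w
        exact hclose w (fun y hy => hlive y (hsub y hy)) y hy y hy
          (by rw [hidem, hz y (hsub y hy)])
    · push Not at hd
      by_cases hz : ∃ z, f z ≠ t
      · obtain ⟨z, hz⟩ := hz
        refine ⟨1, ⟨t, f z, ?_, Ne.symm hz⟩, ?_⟩
        · rw [hcomm]; exact hd z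
        · rintro S _ hS ⟨e', s', h1, h2⟩
          let g : ℕ → S := fun y => if y = p then e' else s'
          have gp : g p = e' := by simp only [g, if_true]
          have hu : FreeSemigroup.lift g u = e' := by
            refine ev_eq hS g u e' (fun y hy => ?_) hp hp (by rw [gp, hS.2])
            simp only [g]
            split_ifs
            · exact hS.2 _
            · rw [hS.1]; exact h1
          refine ⟨FreeSemigroup.lift g, ?_⟩
          intro w hw
          rw [hu] at hw
          have hpw : p ∈ lts w := by
            by_contra hcon
            have h5 := ev_ge g w s' (by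
              intro y hy
              have : y ≠ p := fun h => hcon (h ▸ hy)
              simp only [g, if_neg this]
              exact hS.2 _)
            rw [← hw, h1] at h5
            exact h2 h5
          exact hclose w (fun y _ => hd y) p hpw p hpw hpp
      · push Not at hz
        refine ⟨0, ⟨t⟩, ?_⟩
        rintro S _ hS ⟨s⟩
        refine ⟨FreeSemigroup.lift (fun _ => s), ?_⟩
        intro w _
        obtain ⟨y, hy⟩ := lts_nonempty w
        exact hclose w (fun y _ => hd y) y hy y hy (by rw [hidem, hz y])
  · push Not at hk1
    obtain ⟨p, hp, q, hq, hpq⟩ := hb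
    change f p * f q = t at hpq
    have hpt := hk1 p hp
    have hqt := hk1 q hq
    by_cases hd : ∃ d, f d * t ≠ t
    · obtain ⟨d, hd⟩ := hd
      have hdt : f d * t * t = f d * t := by rw [mul_assoc, hidem]
      by_cases hc : ∃ y1 ∈ lts u, ∃ y2 ∈ lts u, ∃ y3 ∈ lts u,
          f y1 * f y2 ≠ t ∧ f y2 * f y3 ≠ t ∧ f y1 * f y3 = t
      · obtain ⟨y1, m1, y2, m2, y3, m3, c1, c2, c3⟩ := hc
        refine ⟨6, ⟨f d * t, f y1 * f y2, f y2 * f y3, f y2, t, ?_, Ne.symm c1, Ne.symm c2,
          ?_, ?_, hdt, hd⟩, ?_⟩
        · have := hlive y2 m2
          calc f y1 * f y2 * (f y2 * f y3) = f y1 * (f y2 * f y2) * f y3 := by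
                simp only [mul_assoc]
            _ = f y2 * (f y1 * f y3) := by rw [hidem, hcomm (f y1), mul_assoc]
            _ = t := by rw [c3, this]
        · rw [hcomm (f y1), ← mul_assoc, hidem]
        · rw [← mul_assoc, hidem]
        · rintro S _ hS ⟨e', x', y', z', t', h1, h2, h3, h4, h5, h6, h7⟩
          let g : ℕ → S := fun y => if y ∈ lts u then (if y = p then x' else
            if f y * f p = t then y' else z') else e'
          have hxt : x' * t' = t' := by rw [← h1, ← mul_assoc, hS.2]
          have hyt : y' * t' = t' := by rw [← h1, hS.1 x', ← mul_assoc, hS.2]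
          have hzt : z' * t' = t' := by rw [← h1, ← mul_assoc, h4]
          have gp : g p = x' := by simp only [g, if_pos hp, if_true]
          have gq : g q = y' := by
            have hne : q ≠ p := by
              rintro rfl
              rw [hidem] at hpq
              exact hpt hpq
            simp only [g, if_pos hq, if_neg hne]
            rw [if_pos]
            rw [hcomm]; exact hpq
          have hu : FreeSemigroup.lift g u = t' := by
            refine ev_eq hS g u t' (fun y hy => ?_) hp hq (by rw [gp, gq, h1])
            simp only [g, if_pos hy]
            split_ifs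
            · exact hxt
            · exact hyt
            · exact hzt
          refine ⟨FreeSemigroup.lift g, ?_⟩
          intro w hw
          rw [hu] at hw
          have hw' := hw.symm
          have hsub : ∀ y ∈ lts w, y ∈ lts u := by
            intro y hy
            by_contra hcon
            exact sep_low hS g w h6 h7 hw' hy (by simp only [g, if_neg hcon])
          have hpw : p ∈ lts w := by
            by_contra hcon
            have h8 := ev_ge g w y' (by
              intro y hy
              have : y ≠ p := fun h => hcon (h ▸ hy)
              simp only [g, if_pos (hsub y hy), if_neg this]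
              split_ifs
              · exact hS.2 _
              · exact h5)
            rw [hw', hS.1, hyt] at h8
            exact h3 h8
          have hrw : ∃ r ∈ lts w, f r * f p = t := by
            by_contra hcon
            push Not at hcon
            have h8 := ev_ge g w x' (by
              intro y hy
              simp only [g, if_pos (hsub y hy), if_neg (hcon y hy)]
              split_ifs
              · exact hS.2 _
              · exact h4)
            rw [hw', hS.1, hxt] at h8
            exact h2 h8
          obtain ⟨r, hr, hrp⟩ := hrw
          exact hclose w (fun y hy => hlive y (hsub y hy)) r hr p hpw hrp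
      · push Not at hc
        refine ⟨4, ⟨f d * t, f p, f q, t, hpq, Ne.symm hpt, Ne.symm hqt, hdt, hd⟩, ?_⟩
        rintro S _ hS ⟨e', x', y', t', h1, h2, h3, h6, h7⟩
        let g : ℕ → S := fun y => if y ∈ lts u then (if f y * f p = t then y' else x') else e'
        have hxt : x' * t' = t' := by rw [← h1, ← mul_assoc, hS.2]
        have hyt : y' * t' = t' := by rw [← h1, hS.1 x', ← mul_assoc, hS.2]
        have gp : g p = x' := by
          simp only [g, if_pos hp]
          rw [if_neg]
          rw [hidem]; exact hpt
        have gq : g q = y' := by
          simp only [g, if_pos hq]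
          rw [if_pos]
          rw [hcomm]; exact hpq
        have hu : FreeSemigroup.lift g u = t' := by
          refine ev_eq hS g u t' (fun y hy => ?_) hp hq (by rw [gp, gq, h1])
          simp only [g, if_pos hy]
          split_ifs
          · exact hyt
          · exact hxt
        refine ⟨FreeSemigroup.lift g, ?_⟩
        intro w hw
        rw [hu] at hw
        have hw' := hw.symm
        have hsub : ∀ y ∈ lts w, y ∈ lts u := by
          intro y hy
          by_contra hcon
          exact sep_low hS g w h6 h7 hw' hy (by simp only [g, if_neg hcon])
        have hpw : ∃ y ∈ lts w, f y * f p ≠ t := by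
          by_contra hcon
          push Not at hcon
          have h8 := ev_ge g w y' (by
            intro y hy
            simp only [g, if_pos (hsub y hy), if_pos (hcon y hy)]
            exact hS.2 _)
          rw [hw', hS.1, hyt] at h8
          exact h3 h8
        have hrw : ∃ r ∈ lts w, f r * f p = t := by
          by_contra hcon
          push Not at hcon
          have h8 := ev_ge g w x' (by
            intro y hy
            simp only [g, if_pos (hsub y hy), if_neg (hcon y hy)]
            exact hS.2 _)
          rw [hw', hS.1, hxt] at h8
          exact h2 h8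
        obtain ⟨y, hy, hyp⟩ := hpw
        obtain ⟨r, hr, hrp⟩ := hrw
        refine hclose w (fun y hy => hlive y (hsub y hy)) r hr y hy ?_
        by_contra hcon
        exact hc r (hsub r hr) y (hsub y hy) p hp hcon hyp hrp
    · push Not at hd
      by_cases hc : ∃ y1 y2 y3 : ℕ, f y1 * f y2 ≠ t ∧ f y2 * f y3 ≠ t ∧ f y1 * f y3 = t
      · obtain ⟨y1, y2, y3, c1, c2, c3⟩ := hc
        refine ⟨5, ⟨f y1 * f y2, f y2 * f y3, f y2, t, ?_, Ne.symm c1, Ne.symm c2,
          ?_, ?_⟩, ?_⟩
        · have := hd y2
          calc f y1 * f y2 * (f y2 * f y3) = f y1 * (f y2 * f y2) * f y3 := by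
                simp only [mul_assoc]
            _ = f y2 * (f y1 * f y3) := by rw [hidem, hcomm (f y1), mul_assoc]
            _ = t := by rw [c3, this]
        · rw [hcomm (f y1), ← mul_assoc, hidem]
        · rw [← mul_assoc, hidem]
        · rintro S _ hS ⟨x', y', z', t', h1, h2, h3, h4, h5⟩
          let g : ℕ → S := fun y => if y = p then x' else if f y * f p = t then y' else z'
          have hxt : x' * t' = t' := by rw [← h1, ← mul_assoc, hS.2]
          have hyt : y' * t' = t' := by rw [← h1, hS.1 x', ← mul_assoc, hS.2]
          have hzt : z' * t' = t' := by rw [← h1, ← mul_assoc, h4]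
          have gp : g p = x' := by simp only [g, if_true]
          have gq : g q = y' := by
            have hne : q ≠ p := by
              rintro rfl
              rw [hidem] at hpq
              exact hpt hpq
            simp only [g, if_neg hne]
            rw [if_pos]
            rw [hcomm]; exact hpq
          have hu : FreeSemigroup.lift g u = t' := by
            refine ev_eq hS g u t' (fun y hy => ?_) hp hq (by rw [gp, gq, h1])
            simp only [g]
            split_ifs
            · exact hxt
            · exact hyt
            · exact hzt
          refine ⟨FreeSemigroup.lift g, ?_⟩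
          intro w hw
          rw [hu] at hw
          have hw' := hw.symm
          have hpw : p ∈ lts w := by
            by_contra hcon
            have h8 := ev_ge g w y' (by
              intro y hy
              have : y ≠ p := fun h => hcon (h ▸ hy)
              simp only [g, if_neg this]
              split_ifs
              · exact hS.2 _
              · exact h5)
            rw [hw', hS.1, hyt] at h8
            exact h3 h8
          have hrw : ∃ r ∈ lts w, f r * f p = t := by
            by_contra hcon
            push Not at hcon
            have h8 := ev_ge g w x' (by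
              intro y hy
              simp only [g, if_neg (hcon y hy)]
              split_ifs
              · exact hS.2 _
              · exact h4)
            rw [hw', hS.1, hxt] at h8
            exact h2 h8
          obtain ⟨r, hr, hrp⟩ := hrw
          exact hclose w (fun y _ => hd y) r hr p hpw hrp
      · push Not at hc
        refine ⟨3, ⟨f p, f q, t, hpq, Ne.symm hpt, Ne.symm hqt⟩, ?_⟩
        rintro S _ hS ⟨x', y', t', h1, h2, h3⟩
        let g : ℕ → S := fun y => if f y * f p = t then y' else x'
        have hxt : x' * t' = t' := by rw [← h1, ← mul_assoc, hS.2]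
        have hyt : y' * t' = t' := by rw [← h1, hS.1 x', ← mul_assoc, hS.2]
        have gp : g p = x' := by
          simp only [g]
          rw [if_neg]
          rw [hidem]; exact hpt
        have gq : g q = y' := by
          simp only [g]
          rw [if_pos]
          rw [hcomm]; exact hpq
        have hu : FreeSemigroup.lift g u = t' := by
          refine ev_eq hS g u t' (fun y hy => ?_) hp hq (by rw [gp, gq, h1])
          simp only [g]
          split_ifs
          · exact hyt
          · exact hxt
        refine ⟨FreeSemigroup.lift g, ?_⟩
        intro w hw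
        rw [hu] at hw
        have hw' := hw.symm
        have hpw : ∃ y ∈ lts w, f y * f p ≠ t := by
          by_contra hcon
          push Not at hcon
          have h8 := ev_ge g w y' (by
            intro y hy
            simp only [g, if_pos (hcon y hy)]
            exact hS.2 _)
          rw [hw', hS.1, hyt] at h8
          exact h3 h8
        have hrw : ∃ r ∈ lts w, f r * f p = t := by
          by_contra hcon
          push Not at hcon
          have h8 := ev_ge g w x' (by
            intro y hy
            simp only [g, if_neg (hcon y hy)]
            exact hS.2 _)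
          rw [hw', hS.1, hxt] at h8
          exact h2 h8
        obtain ⟨y, hy, hyp⟩ := hpw
        obtain ⟨r, hr, hrp⟩ := hrw
        refine hclose w (fun y _ => hd y) r hr y hy ?_
        by_contra hcon
        exact hc r y p hcon hyp hrp



/-- The condition (C): if none of `a * b, a * c, b * c` is `a * b * c`, then `a * b * c` is the zero
and the semigroup has a colouring with three colours, `a, b, c` having different colours, such that
any three elements of different colours have product zero. -/
def ThreeCol (T : Type u) [Semigroup T] : Prop :=
  ∀ a b c : T, a * b * c ≠ a * b → a * b * c ≠ a * c → a * b * c ≠ b * c →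
    (∀ x, x * (a * b * c) = a * b * c) ∧
      ∃ χ : T → Fin 3, χ a = 0 ∧ χ b = 1 ∧ χ c = 2 ∧
        ∀ x y z : T, χ x = 0 → χ y = 1 → χ z = 2 → x * y * z = a * b * c

theorem ThreeCol.col {T : Type u} [Semigroup T] (h : ThreeCol T) : Col T := by
  intro a b c t ht hab hbc hac
  subst ht
  obtain ⟨-, χ, h0, h1, h2, h3⟩ := h a b c (Ne.symm hab) (Ne.symm hac) (Ne.symm hbc)
  exact ⟨χ, h0, h1, h2, fun x y z _ _ _ => h3 x y z⟩

/-- the eight types -/
def Q8 (i : Fin 8) (S : Type u) [Semigroup S] : Prop :=
  if h : i.val < 7 then Q ⟨i.val, h⟩ S
  else ∃ x y z : S, x * y * z ≠ x * y ∧ x * y * z ≠ x * z ∧ x * y * z ≠ y * z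

/-- two letters or three letters suffice -/
theorem letters {T : Type u} [Semigroup T] (hT : SL T) (hC : Col T) (φ : Word →ₙ* T) (u : Word) :
    (∃ p ∈ lts u, ∃ q ∈ lts u, φ (FreeSemigroup.of p) * φ (FreeSemigroup.of q) = φ u) ∨
    ∃ p ∈ lts u, ∃ q ∈ lts u, ∃ r ∈ lts u,
      φ (FreeSemigroup.of p) * φ (FreeSemigroup.of q) * φ (FreeSemigroup.of r) = φ u ∧
      φ (FreeSemigroup.of p) * φ (FreeSemigroup.of q) ≠ φ u ∧
      φ (FreeSemigroup.of q) * φ (FreeSemigroup.of r) ≠ φ u ∧
      φ (FreeSemigroup.of p) * φ (FreeSemigroup.of r) ≠ φ u := by
  classical
  have hex : ∃ n : ℕ, ∃ w : Word, w.length = n ∧ lts w ⊆ lts u ∧ φ w = φ u :=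
    ⟨u.length, u, rfl, subset_rfl, rfl⟩
  obtain ⟨w, hwn, hwu, hwφ⟩ := Nat.find_spec hex
  have hmin : ∀ v : Word, lts v ⊆ lts u → v.length < w.length → φ v ≠ φ u := by
    intro v hv hlt hφ
    rw [hwn] at hlt
    exact Nat.find_min hex hlt ⟨v, rfl, hv, hφ⟩
  have hof : ∀ x y : ℕ, ∀ w' : Word, lts (FreeSemigroup.of x * (FreeSemigroup.of y * w')) ⊆ lts u →
      x ∈ lts u ∧ y ∈ lts u ∧ lts w' ⊆ lts u := by
    intro x y w' h
    rw [lts_mul, lts_mul, lts_of, lts_of] at h
    refine ⟨h (by simp), h (by simp), ?_⟩
    intro z hz
    exact h (by simp [hz])
  have l1 : ∀ x : ℕ, lts (FreeSemigroup.of x) = {x} := lts_of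
  have ln : ∀ a : Word, 1 ≤ a.length := fun a => Nat.succ_le_of_lt (by
    unfold FreeSemigroup.length; omega)
  induction w using FreeSemigroup.recOnMul with
  | ih1 x =>
    left
    rw [l1] at hwu
    have hx : x ∈ lts u := hwu (Finset.mem_singleton_self x)
    exact ⟨x, hx, x, hx, by rw [hT.2]; exact hwφ⟩
  | ih2 a b _ _ =>
    clear * - hT hC hwφ hmin hof l1 ln hwu
    induction b using FreeSemigroup.recOnMul with
    | ih1 x =>
      left
      rw [lts_mul, l1, l1] at hwu
      refine ⟨a, hwu (by simp), x, hwu (by simp), ?_⟩
      rw [← hwφ, map_mul]
    | ih2 b c _ _ =>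
      obtain ⟨ha, hb, hc⟩ := hof _ _ _ hwu
      have hl : (FreeSemigroup.of a * (FreeSemigroup.of b * c)).length = 2 + c.length := by
        rw [FreeSemigroup.length_mul, FreeSemigroup.length_mul, FreeSemigroup.length_of,
          FreeSemigroup.length_of]
        omega
      rw [hl] at hmin
      have h1 := ln c
      have nab : φ (FreeSemigroup.of a) * φ (FreeSemigroup.of b) ≠ φ u := by
        rw [← map_mul]
        apply hmin
        · rw [lts_mul, l1, l1]
          intro z hz
          simp only [Finset.mem_union, Finset.mem_singleton] at hz
          rcases hz with rfl | rfl <;> assumption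
        · rw [FreeSemigroup.length_mul, FreeSemigroup.length_of, FreeSemigroup.length_of]
          omega
      have nbc : φ (FreeSemigroup.of b) * φ c ≠ φ u := by
        rw [← map_mul]
        apply hmin
        · rw [lts_mul, l1]
          intro z hz
          simp only [Finset.mem_union, Finset.mem_singleton] at hz
          rcases hz with rfl | hz
          · exact hb
          · exact hc hz
        · rw [FreeSemigroup.length_mul, FreeSemigroup.length_of]
          omega
      have nac : φ (FreeSemigroup.of a) * φ c ≠ φ u := by
        rw [← map_mul]
        apply hmin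
        · rw [lts_mul, l1]
          intro z hz
          simp only [Finset.mem_union, Finset.mem_singleton] at hz
          rcases hz with rfl | hz
          · exact ha
          · exact hc hz
        · rw [FreeSemigroup.length_mul, FreeSemigroup.length_of]
          omega
      have habc : φ (FreeSemigroup.of a) * φ (FreeSemigroup.of b) * φ c = φ u := by
        rw [← hwφ, map_mul, map_mul, mul_assoc]
      induction c using FreeSemigroup.recOnMul with
      | ih1 x =>
        right
        rw [l1] at hc
        exact ⟨a, ha, b, hb, x, hc (Finset.mem_singleton_self x), habc, nab, nbc, nac⟩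
      | ih2 c d _ _ =>
        exfalso
        have h2 := ln d
        have hc' : c ∈ lts u := hc (by rw [lts_mul, l1]; simp)
        have hd' : lts d ⊆ lts u := fun z hz => hc (by rw [lts_mul]; simp [hz])
        have hlive := live hT φ u
        have hld : φ d * φ u = φ u := absorb' φ (φ u) d (fun y hy => hlive y (hd' hy))
        have hl3 : (FreeSemigroup.of c * d).length = 1 + d.length := by
          rw [FreeSemigroup.length_mul, FreeSemigroup.length_of]
        rw [hl3] at hmin
        have hsub : ∀ v : Word, (∀ z ∈ lts v, z = a ∨ z = b ∨ z = c ∨ z ∈ lts d) →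
            lts v ⊆ lts u := by
          intro v hv z hz
          rcases hv z hz with rfl | rfl | rfl | h
          · exact ha
          · exact hb
          · exact hc'
          · exact hd' h
        have m1 : φ (FreeSemigroup.of a) * φ (FreeSemigroup.of b) * φ (FreeSemigroup.of c) ≠
            φ u := by
          rw [← map_mul, ← map_mul]
          apply hmin
          · apply hsub
            intro z hz
            simp only [lts_mul, l1, Finset.mem_union, Finset.mem_singleton] at hz
            clear * - hz
            tauto
          · rw [FreeSemigroup.length_mul, FreeSemigroup.length_mul, FreeSemigroup.length_of,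
              FreeSemigroup.length_of, FreeSemigroup.length_of]
            omega
        have m2 : φ (FreeSemigroup.of c) * φ d ≠ φ u := by
          rw [← map_mul]
          apply hmin
          · apply hsub
            intro z hz
            simp only [lts_mul, l1, Finset.mem_union, Finset.mem_singleton] at hz
            clear * - hz
            tauto
          · rw [FreeSemigroup.length_mul, FreeSemigroup.length_of]
            omega
        have m3 : φ (FreeSemigroup.of a) * φ (FreeSemigroup.of b) * φ d ≠ φ u := by
          rw [← map_mul, ← map_mul]
          apply hmin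
          · apply hsub
            intro z hz
            simp only [lts_mul, l1, Finset.mem_union, Finset.mem_singleton] at hz
            clear * - hz
            tauto
          · rw [FreeSemigroup.length_mul, FreeSemigroup.length_mul, FreeSemigroup.length_of,
              FreeSemigroup.length_of]
            omega
        have m4 : φ (FreeSemigroup.of a) * φ (FreeSemigroup.of c) * φ d ≠ φ u := by
          rw [← map_mul, ← map_mul]
          apply hmin
          · apply hsub
            intro z hz
            simp only [lts_mul, l1, Finset.mem_union, Finset.mem_singleton] at hz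
            clear * - hz
            tauto
          · rw [FreeSemigroup.length_mul, FreeSemigroup.length_mul, FreeSemigroup.length_of,
              FreeSemigroup.length_of]
            omega
        rw [map_mul] at habc
        obtain ⟨χ, c0, c1, c2, hχ⟩ := hC (φ (FreeSemigroup.of a) * φ (FreeSemigroup.of b))
          (φ (FreeSemigroup.of c)) (φ d) (φ u) (by rw [← habc, ← mul_assoc]) m1 m2 m3
        have g1 := hlive a ha
        have g2 := hlive b hb
        have g3 := hlive c hc'
        have g12 : φ (FreeSemigroup.of a) * φ (FreeSemigroup.of b) * φ u = φ u := by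
          rw [mul_assoc, g2, g1]
        rcases (by
          generalize χ (φ (FreeSemigroup.of a)) = k
          revert k; decide : χ (φ (FreeSemigroup.of a)) = 0 ∨ χ (φ (FreeSemigroup.of a)) = 1 ∨
            χ (φ (FreeSemigroup.of a)) = 2) with h | h | h
        · exact m4 (hχ _ _ _ g1 g3 hld h c1 c2)
        · apply m3
          have h5 := hχ _ _ _ g12 g1 hld c0 h c2
          rw [hT.1 _ (φ (FreeSemigroup.of a)), ← mul_assoc, hT.2] at h5
          exact h5
        · apply m1
          have h5 := hχ _ _ _ g12 g3 g1 c0 c1 h
          rw [hT.1 _ (φ (FreeSemigroup.of a)), ← mul_assoc, ← mul_assoc, hT.2] at h5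
          exact h5

theorem key8 {T : Type u} [Semigroup T] (hT : SL T) (hC : ThreeCol T) (φ : Word →ₙ* T)
    (u : Word) :
    ∃ i : Fin 8, Q8 i T ∧ ∀ (S : Type u) [Semigroup S], SL S → Q8 i S → Ctl φ u S := by
  classical
  rcases letters hT hC.col φ u with h | ⟨p, hp, q, hq, r, hr, habc, nab, nbc, nac⟩
  · obtain ⟨i, hi, h2⟩ := key7 hT φ u h
    refine ⟨⟨i.val, by omega⟩, ?_, ?_⟩
    · unfold Q8
      rw [dif_pos i.2]
      exact hi
    · intro S _ hS hQ
      unfold Q8 at hQ
      rw [dif_pos i.2] at hQ
      exact h2 S hS hQ
  · set f : ℕ → T := fun y => φ (FreeSemigroup.of y) with hf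
    have e1 : f p * f q * f r ≠ f p * f q := by
      change φ (FreeSemigroup.of p) * φ (FreeSemigroup.of q) * φ (FreeSemigroup.of r) ≠ _
      rw [habc]; exact Ne.symm nab
    have e2 : f p * f q * f r ≠ f p * f r := by
      change φ (FreeSemigroup.of p) * φ (FreeSemigroup.of q) * φ (FreeSemigroup.of r) ≠ _
      rw [habc]; exact Ne.symm nac
    have e3 : f p * f q * f r ≠ f q * f r := by
      change φ (FreeSemigroup.of p) * φ (FreeSemigroup.of q) * φ (FreeSemigroup.of r) ≠ _
      rw [habc]; exact Ne.symm nbc
    obtain ⟨hz, χ, c0, c1, c2, hχ⟩ := hC (f p) (f q) (f r) e1 e2 e3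
    have ht : f p * f q * f r = φ u := habc
    rw [ht] at hz hχ
    refine ⟨7, ?_, ?_⟩
    · unfold Q8
      rw [dif_neg (by decide)]
      exact ⟨f p, f q, f r, e1, e2, e3⟩
    · intro S _ hS hQ
      unfold Q8 at hQ
      rw [dif_neg (by decide)] at hQ
      obtain ⟨x', y', z', n1, n2, n3⟩ := hQ
      set t' := x' * y' * z' with ht'
      have xt : x' * t' = t' := by rw [ht', ← mul_assoc, ← mul_assoc, hS.2]
      have zt : z' * t' = t' := by rw [ht', hS.1, mul_assoc, hS.2]
      have yt : y' * t' = t' := by
        rw [ht', hS.1 x' y', ← mul_assoc, ← mul_assoc, hS.2]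
      let c' : Fin 3 → S := ![x', y', z']
      have hc' : ∀ k, c' k * t' = t' := by
        intro k
        fin_cases k
        · exact xt
        · exact yt
        · exact zt
      let g : ℕ → S := fun y => if f y = φ u then t' else c' (χ (f y))
      have hg : ∀ y, g y * t' = t' := by
        intro y
        change (if f y = φ u then t' else c' (χ (f y))) * t' = t'
        split_ifs
        · exact hS.2 _
        · exact hc' _
      -- the three letters
      have hne : ∀ s ∈ lts u, f s * φ u = φ u := live hT φ u
      have hlet : ∀ s, (f s = f p ∨ f s = f q ∨ f s = f r) → f s ≠ φ u := by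
        intro s hs h
        have h5 := hne p hp
        have h6 := hne q hq
        rcases hs with hs | hs | hs
        · apply nab
          change f p * f q = φ u
          rw [← hs, h, hT.1, h6]
        · apply nab
          change f p * f q = φ u
          rw [← hs, h, h5]
        · apply nac
          change f p * f r = φ u
          rw [← hs, h, h5]
      have gp : g p = x' := by
        change (if f p = φ u then t' else c' (χ (f p))) = x'
        rw [if_neg (hlet p (Or.inl rfl)), c0]
        rfl
      have gq : g q = y' := by
        change (if f q = φ u then t' else c' (χ (f q))) = y'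
        rw [if_neg (hlet q (Or.inr (Or.inl rfl))), c1]
        rfl
      have gr : g r = z' := by
        change (if f r = φ u then t' else c' (χ (f r))) = z'
        rw [if_neg (hlet r (Or.inr (Or.inr rfl))), c2]
        rfl
      have hu : FreeSemigroup.lift g u = t' := by
        have h1 := ev_le hS g u hp
        have h2 := ev_le hS g u hq
        have h3 := ev_le hS g u hr
        have h4 := ev_ge g u t' fun y _ => hg y
        rw [gp] at h1
        rw [gq] at h2
        rw [gr] at h3
        have h5 : t' * FreeSemigroup.lift g u = FreeSemigroup.lift g u := by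
          rw [ht', mul_assoc, mul_assoc, h3, h2, h1]
        rw [← h5, hS.1, h4]
      refine ⟨FreeSemigroup.lift g, ?_⟩
      intro w hw
      rw [hu] at hw
      have hw' := hw.symm
      -- a letter of each colour, or a letter of value t
      have hlow : ∀ y ∈ lts w, f y * φ w = φ w := live hT φ w
      by_cases hy : ∃ y ∈ lts w, f y = φ u
      · obtain ⟨y, hyw, hy⟩ := hy
        have h1 := hlow y hyw
        rw [hy, hT.1, hz] at h1
        exact h1
      · push Not at hy
        have key : ∀ (k : Fin 3) (s : S), (∀ j, j ≠ k → c' j * s = s) → s * t' = t' → t' ≠ s →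
            ∃ y ∈ lts w, χ (f y) = k := by
          intro k s hs hst hne'
          by_contra hcon
          push Not at hcon
          have h5 := ev_ge g w s (by
            intro y hyw
            change (if f y = φ u then t' else c' (χ (f y))) * s = s
            rw [if_neg (hy y hyw)]
            exact hs _ (hcon y hyw))
          rw [hw', hS.1, hst] at h5
          exact hne' h5
        have i1 : ∀ a b : S, a * (a * b) = a * b := fun a b => by rw [← mul_assoc, hS.2]
        have i2 : ∀ a b : S, b * (a * b) = a * b := fun a b => by rw [hS.1 a b, i1]
        obtain ⟨y0, hy0, k0⟩ := key 0 (y' * z') (by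
          intro j hj
          fin_cases j
          · exact absurd rfl hj
          · exact i1 _ _
          · exact i2 _ _) (by rw [mul_assoc, zt, yt]) n3
        obtain ⟨y1, hy1, k1⟩ := key 1 (x' * z') (by
          intro j hj
          fin_cases j
          · exact i1 _ _
          · exact absurd rfl hj
          · exact i2 _ _) (by rw [mul_assoc, zt, xt]) n2
        obtain ⟨y2, hy2, k2⟩ := key 2 (x' * y') (by
          intro j hj
          fin_cases j
          · exact i1 _ _
          · exact i2 _ _
          · exact absurd rfl hj) (by rw [mul_assoc, yt, xt]) n1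
        have h6 := hχ _ _ _ k0 k1 k2
        have h7 : φ u * φ w = φ w := by
          rw [← h6, mul_assoc, mul_assoc, hlow y2 hy2, hlow y1 hy1, hlow y0 hy0]
        rw [← h7, hT.1, hz]

end Pool.Agent.helper45.Sem
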