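import Mathlib
import Pool.Agent.helper45.Sem.Eight
import Pool.Agent.helper45.Sem.Reg

/-!
# Inclusive varieties generated by semilattices
-/

universe u v

open Pool.Agent.helper9.Incl Pool.Agent.helper45.Inc Pool.Agent.helper2.Inc Pool.Agent.SEM

namespace Pool.Agent.helper45.Sem

theorem gen_ctl {ι : Type v} {S : ι → Type u} [∀ i, Semigroup (S i)] {T : Type u} [Semigroup T]
    (h : genF S T) (φ : Word →ₙ* T) (u : Word) : ∃ i, Ctl φ u (S i) := by
  by_contra hcon
  push Not at hcon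
  obtain ⟨v, hv, hvu⟩ := h u {w | φ u ≠ φ w} (by
    intro i ψ
    have h1 := hcon i
    unfold Ctl at h1
    push Not at h1
    obtain ⟨w, h2, h3⟩ := h1 ψ
    exact ⟨w, h3, h2⟩) φ
  exact hv hvu

/-- four letters -/
def g4 {T : Type u} (a b c d : T) (y : ℕ) : T :=
  if y = 0 then a else if y = 1 then b else if y = 2 then c else d

theorem sl_gen {ι : Type v} {S : ι → Type u} [∀ i, Semigroup (S i)] (hS : ∀ i, SL (S i))
    {T : Type u} [Semigroup T] (h : genF S T) : SL T := by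
  constructor
  · intro x y
    obtain ⟨v, hv, hvu⟩ := h (FreeSemigroup.of 0 * FreeSemigroup.of 1)
      {FreeSemigroup.of 1 * FreeSemigroup.of 0} (by
        intro i ψ
        exact ⟨_, rfl, by rw [map_mul, map_mul, (hS i).1]⟩) (FreeSemigroup.lift (g4 x y x x))
    rw [Set.mem_singleton_iff.mp hv, map_mul, map_mul, FreeSemigroup.lift_of,
      FreeSemigroup.lift_of] at hvu
    exact hvu
  · intro x
    obtain ⟨v, hv, hvu⟩ := h (FreeSemigroup.of 0 * FreeSemigroup.of 0) {FreeSemigroup.of 0} (by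
        intro i ψ
        exact ⟨_, rfl, by rw [map_mul, (hS i).2]⟩) (FreeSemigroup.lift (g4 x x x x))
    rw [Set.mem_singleton_iff.mp hv, map_mul, FreeSemigroup.lift_of] at hvu
    exact hvu

section
variable {ι : Type v} {S : ι → Type u} [∀ i, Semigroup (S i)] {T : Type u} [Semigroup T]

/-- controlled evaluations, in terms of four elements -/
theorem ctl4 (h : genF S T) (a b c d : T) (u : Word) : ∃ (i : ι) (ψ : Word →ₙ* S i),
    ∀ w, ψ u = ψ w → FreeSemigroup.lift (g4 a b c d) u = FreeSemigroup.lift (g4 a b c d) w := by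
  obtain ⟨i, ψ, hψ⟩ := gen_ctl h (FreeSemigroup.lift (g4 a b c d)) u
  exact ⟨i, ψ, hψ⟩

theorem q8_gen (hS : ∀ i, SL (S i)) (h : genF S T) {k : Fin 8} (hk : Q8 k T) :
    ∃ i, Q8 k (S i) := by
  have hT := sl_gen hS h
  have l0 : ∀ a b c d : T, FreeSemigroup.lift (g4 a b c d) (FreeSemigroup.of 0) = a :=
    fun a b c d => rfl
  have l1 : ∀ a b c d : T, FreeSemigroup.lift (g4 a b c d) (FreeSemigroup.of 1) = b :=
    fun a b c d => rfl
  have l2 : ∀ a b c d : T, FreeSemigroup.lift (g4 a b c d) (FreeSemigroup.of 2) = c :=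
    fun a b c d => rfl
  have l3 : ∀ a b c d : T, FreeSemigroup.lift (g4 a b c d) (FreeSemigroup.of 3) = d :=
    fun a b c d => rfl
  fin_cases k
  · obtain ⟨x⟩ : Nonempty T := hk
    obtain ⟨i, ψ, -⟩ := ctl4 h x x x x (FreeSemigroup.of 0)
    exact ⟨i, show Nonempty (S i) from ⟨ψ (FreeSemigroup.of 0)⟩⟩
  · obtain ⟨e, s, h1, h2⟩ : ∃ e s : T, e * s = e ∧ e ≠ s := hk
    obtain ⟨i, ψ, hψ⟩ := ctl4 h e s s s (FreeSemigroup.of 0 * FreeSemigroup.of 1)
    have hi := (hS i).2
    simp only [map_mul, l0, l1, h1] at hψ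
    refine ⟨i, show ∃ e s : S i, e * s = e ∧ e ≠ s from
      ⟨ψ (FreeSemigroup.of 0) * ψ (FreeSemigroup.of 1), ψ (FreeSemigroup.of 1), ?_, ?_⟩⟩
    · rw [mul_assoc, hi]
    · intro h3
      exact h2 (by simpa only [l1] using hψ (FreeSemigroup.of 1) h3)
  · obtain ⟨e, s, z, h1, h2, h3, h4⟩ :
      ∃ e s z : T, e * s = e ∧ e ≠ s ∧ s * z = s ∧ s ≠ z := hk
    obtain ⟨i, ψ, hψ⟩ := ctl4 h e s z z (FreeSemigroup.of 1 * FreeSemigroup.of 2)
    have hi := (hS i).2
    simp only [map_mul, l1, l2, h3] at hψ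
    refine ⟨i, show ∃ e s z : S i, e * s = e ∧ e ≠ s ∧ s * z = s ∧ s ≠ z from
      ⟨ψ (FreeSemigroup.of 0) * (ψ (FreeSemigroup.of 1) * ψ (FreeSemigroup.of 2)),
        ψ (FreeSemigroup.of 1) * ψ (FreeSemigroup.of 2), ψ (FreeSemigroup.of 2), ?_, ?_, ?_, ?_⟩⟩
    · rw [mul_assoc, hi]
    · intro h5
      have h6 := hψ (FreeSemigroup.of 0 * (FreeSemigroup.of 1 * FreeSemigroup.of 2))
        (by rw [map_mul, map_mul]; exact h5.symm)
      rw [map_mul, map_mul, l0, l1, l2, h3, h1] at h6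
      exact h2 h6.symm
    · rw [mul_assoc, hi]
    · intro h5
      exact h4 (by simpa only [l2] using hψ (FreeSemigroup.of 2) h5)
  · obtain ⟨x, y, t, h1, h2, h3⟩ : ∃ x y t : T, x * y = t ∧ t ≠ x ∧ t ≠ y := hk
    obtain ⟨i, ψ, hψ⟩ := ctl4 h x y y y (FreeSemigroup.of 0 * FreeSemigroup.of 1)
    simp only [map_mul, l0, l1, h1] at hψ
    refine ⟨i, show ∃ x y t : S i, x * y = t ∧ t ≠ x ∧ t ≠ y from
      ⟨ψ (FreeSemigroup.of 0), ψ (FreeSemigroup.of 1), _, rfl, ?_, ?_⟩⟩
    · intro h5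
      exact h2 (by simpa only [l0] using hψ (FreeSemigroup.of 0) h5)
    · intro h5
      exact h3 (by simpa only [l1] using hψ (FreeSemigroup.of 1) h5)
  · obtain ⟨e, x, y, t, h1, h2, h3, h4, h5⟩ :
      ∃ e x y t : T, x * y = t ∧ t ≠ x ∧ t ≠ y ∧ e * t = e ∧ e ≠ t := hk
    obtain ⟨i, ψ, hψ⟩ := ctl4 h x y e e (FreeSemigroup.of 0 * FreeSemigroup.of 1)
    have hi := (hS i).2
    simp only [map_mul, l0, l1, h1] at hψ
    refine ⟨i, show ∃ e x y t : S i, x * y = t ∧ t ≠ x ∧ t ≠ y ∧ e * t = e ∧ e ≠ t from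
      ⟨ψ (FreeSemigroup.of 2) * (ψ (FreeSemigroup.of 0) * ψ (FreeSemigroup.of 1)),
        ψ (FreeSemigroup.of 0), ψ (FreeSemigroup.of 1), _, rfl, ?_, ?_, ?_, ?_⟩⟩
    · intro h6
      exact h2 (by simpa only [l0] using hψ (FreeSemigroup.of 0) h6)
    · intro h6
      exact h3 (by simpa only [l1] using hψ (FreeSemigroup.of 1) h6)
    · rw [mul_assoc, hi]
    · intro h6
      have h7 := hψ (FreeSemigroup.of 2 * (FreeSemigroup.of 0 * FreeSemigroup.of 1))
        (by rw [map_mul, map_mul]; exact h6.symm)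
      rw [map_mul, map_mul, l0, l1, l2, h1, h4] at h7
      exact h5 h7.symm
  · obtain ⟨x, y, z, t, h1, h2, h3, h4, h5⟩ :
      ∃ x y z t : T, x * y = t ∧ t ≠ x ∧ t ≠ y ∧ z * x = x ∧ z * y = y := hk
    obtain ⟨i, ψ, hψ⟩ := ctl4 h x y z z ((FreeSemigroup.of 2 * FreeSemigroup.of 0) *
      (FreeSemigroup.of 2 * FreeSemigroup.of 1))
    have hi := (hS i).2
    simp only [map_mul, l0, l1, l2, h1, h4, h5] at hψ
    refine ⟨i, show ∃ x y z t : S i, x * y = t ∧ t ≠ x ∧ t ≠ y ∧ z * x = x ∧ z * y = y from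
      ⟨ψ (FreeSemigroup.of 2) * ψ (FreeSemigroup.of 0), ψ (FreeSemigroup.of 2) *
        ψ (FreeSemigroup.of 1), ψ (FreeSemigroup.of 2), _, rfl, ?_, ?_, ?_, ?_⟩⟩
    · intro h6
      have h7 := hψ (FreeSemigroup.of 2 * FreeSemigroup.of 0) (by rw [map_mul]; exact h6)
      rw [map_mul, l2, l0, h4] at h7
      exact h2 h7
    · intro h6
      have h7 := hψ (FreeSemigroup.of 2 * FreeSemigroup.of 1) (by rw [map_mul]; exact h6)
      rw [map_mul, l2, l1, h5] at h7
      exact h3 h7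
    · rw [← mul_assoc, hi]
    · rw [← mul_assoc, hi]
  · obtain ⟨e, x, y, z, t, h1, h2, h3, h4, h5, h8, h9⟩ :
      ∃ e x y z t : T, x * y = t ∧ t ≠ x ∧ t ≠ y ∧ z * x = x ∧ z * y = y ∧ e * t = e ∧ e ≠ t := hk
    obtain ⟨i, ψ, hψ⟩ := ctl4 h x y z e ((FreeSemigroup.of 2 * FreeSemigroup.of 0) *
      (FreeSemigroup.of 2 * FreeSemigroup.of 1))
    have hi := (hS i).2
    simp only [map_mul, l0, l1, l2, h1, h4, h5] at hψ
    refine ⟨i, show ∃ e x y z t : S i, x * y = t ∧ t ≠ x ∧ t ≠ y ∧ z * x = x ∧ z * y = y ∧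
        e * t = e ∧ e ≠ t from
      ⟨ψ (FreeSemigroup.of 3) * ((ψ (FreeSemigroup.of 2) * ψ (FreeSemigroup.of 0)) *
        (ψ (FreeSemigroup.of 2) * ψ (FreeSemigroup.of 1))),
        ψ (FreeSemigroup.of 2) * ψ (FreeSemigroup.of 0), ψ (FreeSemigroup.of 2) *
        ψ (FreeSemigroup.of 1), ψ (FreeSemigroup.of 2), _, rfl, ?_, ?_, ?_, ?_, ?_, ?_⟩⟩
    · intro h6
      have h7 := hψ (FreeSemigroup.of 2 * FreeSemigroup.of 0) (by rw [map_mul]; exact h6)
      rw [map_mul, l2, l0, h4] at h7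
      exact h2 h7
    · intro h6
      have h7 := hψ (FreeSemigroup.of 2 * FreeSemigroup.of 1) (by rw [map_mul]; exact h6)
      rw [map_mul, l2, l1, h5] at h7
      exact h3 h7
    · rw [← mul_assoc, hi]
    · rw [← mul_assoc, hi]
    · rw [mul_assoc, hi]
    · intro h6
      have h7 := hψ (FreeSemigroup.of 3 * ((FreeSemigroup.of 2 * FreeSemigroup.of 0) *
        (FreeSemigroup.of 2 * FreeSemigroup.of 1))) (by simp only [map_mul]; exact h6.symm)
      simp only [map_mul, l0, l1, l2, l3, h4, h5, h1, h8] at h7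
      exact h9 h7.symm
  · obtain ⟨x, y, z, h1, h2, h3⟩ :
      ∃ x y z : T, x * y * z ≠ x * y ∧ x * y * z ≠ x * z ∧ x * y * z ≠ y * z := hk
    obtain ⟨i, ψ, hψ⟩ := ctl4 h x y z z (FreeSemigroup.of 0 * FreeSemigroup.of 1 *
      FreeSemigroup.of 2)
    simp only [map_mul, l0, l1, l2] at hψ
    refine ⟨i, show ∃ x y z : S i, x * y * z ≠ x * y ∧ x * y * z ≠ x * z ∧ x * y * z ≠ y * z from
      ⟨ψ (FreeSemigroup.of 0), ψ (FreeSemigroup.of 1), ψ (FreeSemigroup.of 2), ?_, ?_, ?_⟩⟩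
    · intro h6
      have h7 := hψ (FreeSemigroup.of 0 * FreeSemigroup.of 1) (by rw [map_mul]; exact h6)
      rw [map_mul, l0, l1] at h7
      exact h1 h7
    · intro h6
      have h7 := hψ (FreeSemigroup.of 0 * FreeSemigroup.of 2) (by rw [map_mul]; exact h6)
      rw [map_mul, l0, l2] at h7
      exact h2 h7
    · intro h6
      have h7 := hψ (FreeSemigroup.of 1 * FreeSemigroup.of 2) (by rw [map_mul]; exact h6)
      rw [map_mul, l1, l2] at h7
      exact h3 h7

theorem prod_perm (hT : SL T) (c : Fin 3 → T) : ∀ i j k : Fin 3, i ≠ j → i ≠ k → j ≠ k →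
    c i * c j * c k = c 0 * c 1 * c 2 := by
  have hc := hT.1
  intro i j k
  fin_cases i <;> fin_cases j <;> fin_cases k <;> intro h1 h2 h3 <;>
    first
    | exact absurd rfl h1
    | exact absurd rfl h2
    | exact absurd rfl h3
    | rfl
    | (change c 0 * c 2 * c 1 = c 0 * c 1 * c 2
       rw [mul_assoc, mul_assoc, hc (c 2)])
    | (change c 1 * c 0 * c 2 = c 0 * c 1 * c 2
       rw [hc (c 1)])
    | (change c 1 * c 2 * c 0 = c 0 * c 1 * c 2
       rw [hc, mul_assoc])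
    | (change c 2 * c 0 * c 1 = c 0 * c 1 * c 2
       rw [mul_assoc, hc (c 2)])
    | (change c 2 * c 1 * c 0 = c 0 * c 1 * c 2
       rw [hc, hc (c 2), mul_assoc])

/-- **The colouring condition passes to generated inclusive varieties.** -/
theorem threeCol_gen (hS : ∀ i, SL (S i)) (hC : ∀ i, ThreeCol (S i)) (h : genF S T) :
    ThreeCol T := by
  classical
  have hT := sl_gen hS h
  intro a b c n1 n2 n3
  refine ⟨?_, ?_⟩
  · intro x
    obtain ⟨i, ψ, hψ⟩ := ctl4 h a b c x (FreeSemigroup.of 0 * FreeSemigroup.of 1 *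
      FreeSemigroup.of 2)
    have l0 : FreeSemigroup.lift (g4 a b c x) (FreeSemigroup.of 0) = a := rfl
    have l1 : FreeSemigroup.lift (g4 a b c x) (FreeSemigroup.of 1) = b := rfl
    have l2 : FreeSemigroup.lift (g4 a b c x) (FreeSemigroup.of 2) = c := rfl
    have l3 : FreeSemigroup.lift (g4 a b c x) (FreeSemigroup.of 3) = x := rfl
    simp only [map_mul, l0, l1, l2] at hψ
    obtain ⟨hz, -⟩ := hC i (ψ (FreeSemigroup.of 0)) (ψ (FreeSemigroup.of 1))
      (ψ (FreeSemigroup.of 2))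
      (fun h6 => n1 (by
        have h7 := hψ (FreeSemigroup.of 0 * FreeSemigroup.of 1) (by rw [map_mul]; exact h6)
        rwa [map_mul, l0, l1] at h7))
      (fun h6 => n2 (by
        have h7 := hψ (FreeSemigroup.of 0 * FreeSemigroup.of 2) (by rw [map_mul]; exact h6)
        rwa [map_mul, l0, l2] at h7))
      (fun h6 => n3 (by
        have h7 := hψ (FreeSemigroup.of 1 * FreeSemigroup.of 2) (by rw [map_mul]; exact h6)
        rwa [map_mul, l1, l2] at h7))
    have h8 := hψ (FreeSemigroup.of 3 * (FreeSemigroup.of 0 * FreeSemigroup.of 1 *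
      FreeSemigroup.of 2)) (by simp only [map_mul]; exact (hz _).symm)
    simp only [map_mul, l0, l1, l2, l3] at h8
    exact h8.symm
  · by_contra hcon
    push Not at hcon
    let c' : Fin 3 → T := ![a, b, c]
    obtain ⟨C₀, hC₀, hfin, hU⟩ := exists_finite {e : Fin 3 → T | e 0 * e 1 * e 2 ≠ a * b * c} c' (by
      rintro ⟨χ, h1, h2⟩
      obtain ⟨x, y, z, c0, c1, c2, hne⟩ := hcon χ (h1 0) (h1 1) (h1 2)
      refine h2 ![x, y, z] hne ?_
      have e1 : (fun i => χ (![x, y, z] i)) = fun i => i := by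
        funext i
        fin_cases i
        · exact c0
        · exact c1
        · exact c2
      rw [e1]
      exact fun i j hij => hij)
    set V₀ : Set T := (⋃ e ∈ C₀, Set.range e) ∪ Set.range c' with hV₀
    have hfinV : V₀.Finite := (hfin.biUnion fun e _ => Set.finite_range e).union
      (Set.finite_range c')
    obtain ⟨g, hg⟩ := hfinV.countable.exists_eq_range ⟨a, Or.inr ⟨0, rfl⟩⟩
    have hn : ∀ v ∈ V₀, ∃ n, g n = v := by
      intro v hv
      rw [hg] at hv
      exact hv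
    choose! n hn using hn
    have hmem : ∀ k, c' k ∈ V₀ := fun k => Or.inr ⟨k, rfl⟩
    have hmem' : ∀ e ∈ C₀, ∀ k, e k ∈ V₀ := fun e he k =>
      Or.inl (Set.mem_iUnion₂.mpr ⟨e, he, k, rfl⟩)
    have na : g (n a) = a := hn a (hmem 0)
    have nb : g (n b) = b := hn b (hmem 1)
    have nc : g (n c) = c := hn c (hmem 2)
    obtain ⟨i, ψ, hψ⟩ := gen_ctl h (FreeSemigroup.lift g) (FreeSemigroup.of (n a) *
      FreeSemigroup.of (n b) * FreeSemigroup.of (n c))
    simp only [map_mul, FreeSemigroup.lift_of, na, nb, nc] at hψ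
    obtain ⟨-, χ, c0, c1, c2, hχ⟩ := hC i (ψ (FreeSemigroup.of (n a)))
      (ψ (FreeSemigroup.of (n b))) (ψ (FreeSemigroup.of (n c)))
      (fun h6 => n1 (by
        have h7 := hψ (FreeSemigroup.of (n a) * FreeSemigroup.of (n b))
          (by rw [map_mul]; exact h6)
        rwa [map_mul, FreeSemigroup.lift_of, FreeSemigroup.lift_of, na, nb] at h7))
      (fun h6 => n2 (by
        have h7 := hψ (FreeSemigroup.of (n a) * FreeSemigroup.of (n c))
          (by rw [map_mul]; exact h6)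
        rwa [map_mul, FreeSemigroup.lift_of, FreeSemigroup.lift_of, na, nc] at h7))
      (fun h6 => n3 (by
        have h7 := hψ (FreeSemigroup.of (n b) * FreeSemigroup.of (n c))
          (by rw [map_mul]; exact h6)
        rwa [map_mul, FreeSemigroup.lift_of, FreeSemigroup.lift_of, nb, nc] at h7))
    apply hU
    refine ⟨fun v => χ (ψ (FreeSemigroup.of (n v))), ?_, ?_⟩
    · intro k
      fin_cases k
      · exact c0
      · exact c1
      · exact c2
    · intro e he hinj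
      have hsurj := Finite.injective_iff_surjective.mp hinj
      obtain ⟨i0, hi0⟩ := hsurj 0
      obtain ⟨i1, hi1⟩ := hsurj 1
      obtain ⟨i2, hi2⟩ := hsurj 2
      have h5 := hχ _ _ _ hi0 hi1 hi2
      have h6 := hψ (FreeSemigroup.of (n (e i0)) * FreeSemigroup.of (n (e i1)) *
        FreeSemigroup.of (n (e i2))) (by simp only [map_mul]; exact h5.symm)
      simp only [map_mul, FreeSemigroup.lift_of, hn _ (hmem' e he _)] at h6
      refine hC₀ he ?_
      rw [h6, prod_perm hT e i0 i1 i2 ?_ ?_ ?_]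
      · rintro rfl
        rw [hi0] at hi1
        exact absurd hi1 (by decide)
      · rintro rfl
        rw [hi0] at hi2
        exact absurd hi2 (by decide)
      · rintro rfl
        rw [hi1] at hi2
        exact absurd hi2 (by decide)

end

end Pool.Agent.helper45.Sem
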