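import Mathlib
import Pool.Agent.helper45.Sem.Gen

/-!
# The inclusive variety of the semilattices with the colouring condition
-/

universe u v

open Pool.Agent.helper9.Incl Pool.Agent.helper45.Inc Pool.Agent.helper2.Inc Pool.Agent.SEM

namespace Pool.Agent.helper45.Sem

/-- the semilattices with the condition (C) -/
def SLC : SgClass.{u} := fun S _ => IsSL S ∧ ThreeCol S

/-- eight families of subsets of `{0, 1, 2}`, closed under unions -/
def F8 : Fin 8 → Finset (Finset (Fin 3)) :=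
  ![{∅}, {∅, {0}}, {∅, {0}, {0, 1}}, {{0}, {1}, {0, 1}}, {{0}, {1}, {0, 1}, {0, 1, 2}},
    {∅, {0}, {1}, {0, 1}}, {∅, {0}, {1}, {0, 1}, {0, 1, 2}},
    {{0}, {1}, {2}, {0, 1}, {0, 2}, {1, 2}, {0, 1, 2}}]

theorem f8_union : ∀ i, ∀ s ∈ F8 i, ∀ t ∈ F8 i, s ∪ t ∈ F8 i := by decide

/-- the semilattice of the sets in the family `F8 i` under union -/
@[ext] structure US (i : Fin 8) : Type u where
  s : Finset (Fin 3)
  mem : s ∈ F8 i

instance (i : Fin 8) : Semigroup (US.{u} i) where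
  mul x y := ⟨x.s ∪ y.s, f8_union i _ x.mem _ y.mem⟩
  mul_assoc x y z := US.ext (Finset.union_assoc x.s y.s z.s)

theorem US.mul_s {i : Fin 8} (x y : US.{u} i) : (x * y).s = x.s ∪ y.s := rfl

theorem us_sl (i : Fin 8) : SL (US.{u} i) :=
  ⟨fun _ _ => US.ext (Finset.union_comm _ _), fun _ => US.ext (Finset.union_idempotent _)⟩

/-- the level of a type -/
def lv : Fin 8 → ℕ := ![0, 1, 2, 2, 3, 3, 4, 4]

theorem q8_mono {T : Type u} [Semigroup T] (hT : SL T) {k j : Fin 8} (h : lv j < lv k)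
    (hk : Q8 k T) : Q8 j T := by
  obtain ⟨hc, hi⟩ := hT
  have i1 : ∀ a b : T, a * (a * b) = a * b := fun a b => by rw [← mul_assoc, hi]
  have i2 : ∀ a b : T, b * (a * b) = a * b := fun a b => by rw [hc a b, i1]
  have i3 : ∀ a b : T, a * b * a = a * b := fun a b => by rw [hc, i1]
  have i4 : ∀ a b : T, a * b * b = a * b := fun a b => by rw [mul_assoc, hi]
  have h10 : Q8 1 T → Q8 0 T := fun ⟨e, _⟩ => show Nonempty T from ⟨e⟩
  have h21 : Q8 2 T → Q8 1 T := fun ⟨e, s, z, h1, h2, _⟩ =>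
    show ∃ e s : T, e * s = e ∧ e ≠ s from ⟨e, s, h1, h2⟩
  have h31 : Q8 3 T → Q8 1 T := fun ⟨x, y, t, h1, h2, h3⟩ =>
    show ∃ e s : T, e * s = e ∧ e ≠ s from ⟨t, x, by rw [← h1, i3], h2⟩
  have h42 : Q8 4 T → Q8 2 T := fun ⟨e, x, y, t, h1, h2, h3, h4, h5⟩ =>
    show ∃ e s z : T, e * s = e ∧ e ≠ s ∧ s * z = s ∧ s ≠ z from
      ⟨e, t, x, h4, h5, by rw [← h1, i3], h2⟩
  have h43 : Q8 4 T → Q8 3 T := fun ⟨e, x, y, t, h1, h2, h3, h4, h5⟩ =>
    show ∃ x y t : T, x * y = t ∧ t ≠ x ∧ t ≠ y from ⟨x, y, t, h1, h2, h3⟩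
  have h52 : Q8 5 T → Q8 2 T := fun ⟨x, y, z, t, h1, h2, h3, h4, h5⟩ =>
    show ∃ e s z : T, e * s = e ∧ e ≠ s ∧ s * z = s ∧ s ≠ z from
      ⟨t, x, z, by rw [← h1, i3], h2, by rw [hc]; exact h4, fun h => h3 (by rw [← h1, h]; exact h5)⟩
  have h53 : Q8 5 T → Q8 3 T := fun ⟨x, y, z, t, h1, h2, h3, h4, h5⟩ =>
    show ∃ x y t : T, x * y = t ∧ t ≠ x ∧ t ≠ y from ⟨x, y, t, h1, h2, h3⟩
  have h64 : Q8 6 T → Q8 4 T := fun ⟨e, x, y, z, t, h1, h2, h3, h4, h5, h6, h7⟩ =>
    show ∃ e x y t : T, x * y = t ∧ t ≠ x ∧ t ≠ y ∧ e * t = e ∧ e ≠ t from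
      ⟨e, x, y, t, h1, h2, h3, h6, h7⟩
  have h65 : Q8 6 T → Q8 5 T := fun ⟨e, x, y, z, t, h1, h2, h3, h4, h5, h6, h7⟩ =>
    show ∃ x y z t : T, x * y = t ∧ t ≠ x ∧ t ≠ y ∧ z * x = x ∧ z * y = y from
      ⟨x, y, z, t, h1, h2, h3, h4, h5⟩
  have h74 : Q8 7 T → Q8 4 T := fun ⟨x, y, z, h1, h2, h3⟩ =>
    show ∃ e x y t : T, x * y = t ∧ t ≠ x ∧ t ≠ y ∧ e * t = e ∧ e ≠ t from
      ⟨x * y * z, x, y, x * y, rfl, fun h => h2 (by rw [h]), fun h => h3 (by rw [h]),
        i3 (x * y) z, h1⟩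
  have h75 : Q8 7 T → Q8 5 T := fun ⟨x, y, z, h1, h2, h3⟩ =>
    show ∃ x y z t : T, x * y = t ∧ t ≠ x ∧ t ≠ y ∧ z * x = x ∧ z * y = y from
      ⟨x * y, x * z, x, x * y * z, by rw [← mul_assoc, i3], h1, h2, i1 x y, i1 x z⟩
  fin_cases k <;> fin_cases j <;>
    first
    | exact absurd h (by decide)
    | exact h10 hk
    | exact h21 hk
    | exact h31 hk
    | exact h42 hk
    | exact h43 hk
    | exact h52 hk
    | exact h53 hk
    | exact h64 hk
    | exact h65 hk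
    | exact h74 hk
    | exact h75 hk
    | exact h10 (h21 hk)
    | exact h10 (h31 hk)
    | exact h21 (h42 hk)
    | exact h21 (h52 hk)
    | exact h10 (h21 (h42 hk))
    | exact h10 (h21 (h52 hk))
    | exact h42 (h64 hk)
    | exact h43 (h64 hk)
    | exact h42 (h74 hk)
    | exact h43 (h74 hk)
    | exact h21 (h42 (h64 hk))
    | exact h21 (h42 (h74 hk))
    | exact h10 (h21 (h42 (h64 hk)))
    | exact h10 (h21 (h42 (h74 hk)))

theorem us_q (i : Fin 8) : Q8 i (US.{u} i) := by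
  fin_cases i
  · exact show Nonempty _ from ⟨⟨∅, by decide⟩⟩
  · exact show ∃ e s : US.{u} 1, e * s = e ∧ e ≠ s from
      ⟨⟨{0}, by decide⟩, ⟨∅, by decide⟩, by ext1; decide, fun h => absurd (congrArg US.s h) (by decide)⟩
  · exact show ∃ e s z : US.{u} 2, e * s = e ∧ e ≠ s ∧ s * z = s ∧ s ≠ z from
      ⟨⟨{0, 1}, by decide⟩, ⟨{0}, by decide⟩, ⟨∅, by decide⟩, by ext1; decide,
        fun h => absurd (congrArg US.s h) (by decide), by ext1; decide,
        fun h => absurd (congrArg US.s h) (by decide)⟩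
  · exact show ∃ x y t : US.{u} 3, x * y = t ∧ t ≠ x ∧ t ≠ y from
      ⟨⟨{0}, by decide⟩, ⟨{1}, by decide⟩, ⟨{0, 1}, by decide⟩, by ext1; decide,
        fun h => absurd (congrArg US.s h) (by decide),
        fun h => absurd (congrArg US.s h) (by decide)⟩
  · exact show ∃ e x y t : US.{u} 4, x * y = t ∧ t ≠ x ∧ t ≠ y ∧ e * t = e ∧ e ≠ t from
      ⟨⟨{0, 1, 2}, by decide⟩, ⟨{0}, by decide⟩, ⟨{1}, by decide⟩, ⟨{0, 1}, by decide⟩,
        by ext1; decide, fun h => absurd (congrArg US.s h) (by decide),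
        fun h => absurd (congrArg US.s h) (by decide), by ext1; decide,
        fun h => absurd (congrArg US.s h) (by decide)⟩
  · exact show ∃ x y z t : US.{u} 5, x * y = t ∧ t ≠ x ∧ t ≠ y ∧ z * x = x ∧ z * y = y from
      ⟨⟨{0}, by decide⟩, ⟨{1}, by decide⟩, ⟨∅, by decide⟩, ⟨{0, 1}, by decide⟩,
        by ext1; decide, fun h => absurd (congrArg US.s h) (by decide),
        fun h => absurd (congrArg US.s h) (by decide), by ext1; decide, by ext1; decide⟩
  · exact show ∃ e x y z t : US.{u} 6, x * y = t ∧ t ≠ x ∧ t ≠ y ∧ z * x = x ∧ z * y = y ∧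
      e * t = e ∧ e ≠ t from
      ⟨⟨{0, 1, 2}, by decide⟩, ⟨{0}, by decide⟩, ⟨{1}, by decide⟩, ⟨∅, by decide⟩,
        ⟨{0, 1}, by decide⟩, by ext1; decide, fun h => absurd (congrArg US.s h) (by decide),
        fun h => absurd (congrArg US.s h) (by decide), by ext1; decide, by ext1; decide,
        by ext1; decide, fun h => absurd (congrArg US.s h) (by decide)⟩
  · exact show ∃ x y z : US.{u} 7, x * y * z ≠ x * y ∧ x * y * z ≠ x * z ∧ x * y * z ≠ y * z from
      ⟨⟨{0}, by decide⟩, ⟨{1}, by decide⟩, ⟨{2}, by decide⟩,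
        fun h => absurd (congrArg US.s h) (by decide),
        fun h => absurd (congrArg US.s h) (by decide),
        fun h => absurd (congrArg US.s h) (by decide)⟩

theorem us_nq0 : ¬ Q8 1 (US.{u} 0) := by
  rintro ⟨⟨e, he⟩, ⟨s, hs⟩, -, h2⟩
  have key : ∀ e ∈ F8 0, ∀ s ∈ F8 0, e = s := by decide
  exact h2 (US.ext (key e he s hs))

theorem us_nq1a : ¬ Q8 2 (US.{u} 1) := by
  rintro ⟨⟨e, he⟩, ⟨s, hs⟩, ⟨z, hz⟩, h1, h2, h3, h4⟩
  have key : ∀ e ∈ F8 1, ∀ s ∈ F8 1, ∀ z ∈ F8 1, e ∪ s = e → s ∪ z = s → e = s ∨ s = z := by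
    decide
  rcases key e he s hs z hz (congrArg US.s h1) (congrArg US.s h3) with h | h
  · exact h2 (US.ext h)
  · exact h4 (US.ext h)

theorem us_nq1b : ¬ Q8 3 (US.{u} 1) := by
  rintro ⟨⟨x, hx⟩, ⟨y, hy⟩, ⟨t, ht⟩, h1, h2, h3⟩
  have key : ∀ x ∈ F8 1, ∀ y ∈ F8 1, x ∪ y = x ∨ x ∪ y = y := by decide
  have h4 : x ∪ y = t := congrArg US.s h1
  rcases key x hx y hy with h | h
  · exact h2 (US.ext (h4.symm.trans h))
  · exact h3 (US.ext (h4.symm.trans h))

theorem us_nq2 : ¬ Q8 3 (US.{u} 2) := by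
  rintro ⟨⟨x, hx⟩, ⟨y, hy⟩, ⟨t, ht⟩, h1, h2, h3⟩
  have key : ∀ x ∈ F8 2, ∀ y ∈ F8 2, x ∪ y = x ∨ x ∪ y = y := by decide
  have h4 : x ∪ y = t := congrArg US.s h1
  rcases key x hx y hy with h | h
  · exact h2 (US.ext (h4.symm.trans h))
  · exact h3 (US.ext (h4.symm.trans h))

theorem us_nq3 : ¬ Q8 2 (US.{u} 3) := by
  rintro ⟨⟨e, he⟩, ⟨s, hs⟩, ⟨z, hz⟩, h1, h2, h3, h4⟩
  have key : ∀ e ∈ F8 3, ∀ s ∈ F8 3, ∀ z ∈ F8 3, e ∪ s = e → s ∪ z = s → e = s ∨ s = z := by
    decide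
  rcases key e he s hs z hz (congrArg US.s h1) (congrArg US.s h3) with h | h
  · exact h2 (US.ext h)
  · exact h4 (US.ext h)

theorem us_nq4 : ¬ Q8 5 (US.{u} 4) := by
  rintro ⟨⟨x, hx⟩, ⟨y, hy⟩, ⟨z, hz⟩, ⟨t, ht⟩, h1, h2, h3, h4, h5⟩
  have key : ∀ x ∈ F8 4, ∀ y ∈ F8 4, ∀ z ∈ F8 4, z ∪ x = x → z ∪ y = y →
      x ∪ y = x ∨ x ∪ y = y := by decide
  have h6 : x ∪ y = t := congrArg US.s h1
  rcases key x hx y hy z hz (congrArg US.s h4) (congrArg US.s h5) with h | h
  · exact h2 (US.ext (h6.symm.trans h))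
  · exact h3 (US.ext (h6.symm.trans h))

theorem us_nq5 : ¬ Q8 4 (US.{u} 5) := by
  rintro ⟨⟨e, he⟩, ⟨x, hx⟩, ⟨y, hy⟩, ⟨t, ht⟩, h1, h2, h3, h4, h5⟩
  have key : ∀ e ∈ F8 5, ∀ x ∈ F8 5, ∀ y ∈ F8 5, e ∪ (x ∪ y) = e →
      x ∪ y = x ∨ x ∪ y = y ∨ e = x ∪ y := by decide
  have h6 : x ∪ y = t := congrArg US.s h1
  have h7 : e ∪ t = e := congrArg US.s h4
  rw [← h6] at h7
  rcases key e he x hx y hy h7 with h | h | h
  · exact h2 (US.ext (h6.symm.trans h))
  · exact h3 (US.ext (h6.symm.trans h))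
  · exact h5 (US.ext (h.trans h6))

theorem us_nq6 : ¬ Q8 7 (US.{u} 6) := by
  rintro ⟨⟨x, hx⟩, ⟨y, hy⟩, ⟨z, hz⟩, h1, h2, h3⟩
  have key : ∀ x ∈ F8 6, ∀ y ∈ F8 6, ∀ z ∈ F8 6, x ∪ y ∪ z = x ∪ y ∨ x ∪ y ∪ z = x ∪ z ∨
      x ∪ y ∪ z = y ∪ z := by decide
  rcases key x hx y hy z hz with h | h | h
  · exact h1 (US.ext h)
  · exact h2 (US.ext h)
  · exact h3 (US.ext h)

theorem us_nq7 : ¬ Q8 6 (US.{u} 7) := by
  rintro ⟨⟨e, he⟩, ⟨x, hx⟩, ⟨y, hy⟩, ⟨z, hz⟩, ⟨t, ht⟩, h1, h2, h3, h4, h5, h6, h7⟩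
  have h1 := congrArg US.s h1
  have h2 : t ≠ x := fun h => h2 (US.ext h)
  have h3 : t ≠ y := fun h => h3 (US.ext h)
  have h4 := congrArg US.s h4
  have h5 := congrArg US.s h5
  have h6 := congrArg US.s h6
  have h7 : e ≠ t := fun h => h7 (US.ext h)
  simp only [US.mul_s] at h1 h4 h5 h6
  have key : ∀ x ∈ F8 7, ∀ y ∈ F8 7, ∀ z ∈ F8 7, z ∪ x = x → z ∪ y = y → x ∪ y ≠ x →
      x ∪ y ≠ y → x ∪ y = Finset.univ := by decide
  have h8 := key x hx y hy z hz h4 h5 (by rw [h1]; exact h2) (by rw [h1]; exact h3)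
  rw [h1] at h8
  rw [h8] at h6 h7
  apply h7
  rw [← h6]
  exact Finset.union_eq_right.mpr (Finset.subset_univ e)

/-- the types of the eight semilattices -/
theorem us_q8 {i j : Fin 8} (h : Q8 j (US.{u} i)) : j = i ∨ lv j < lv i := by
  have hm : ∀ {k j : Fin 8}, lv j < lv k → Q8 k (US.{u} i) → Q8 j (US.{u} i) :=
    fun h h' => q8_mono (us_sl i) h h'
  fin_cases i
  · fin_cases j
    · exact Or.inl rfl
    · exact absurd h us_nq0
    all_goals exact absurd (hm (by decide) h) us_nq0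
  · fin_cases j
    · exact Or.inr (by decide)
    · exact Or.inl rfl
    · exact absurd h us_nq1a
    · exact absurd h us_nq1b
    all_goals exact absurd (hm (by decide) h) us_nq1a
  · fin_cases j
    · exact Or.inr (by decide)
    · exact Or.inr (by decide)
    · exact Or.inl rfl
    · exact absurd h us_nq2
    all_goals exact absurd (hm (by decide) h) us_nq2
  · fin_cases j
    · exact Or.inr (by decide)
    · exact Or.inr (by decide)
    · exact absurd h us_nq3
    · exact Or.inl rfl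
    all_goals exact absurd (hm (by decide) h) us_nq3
  · fin_cases j
    · exact Or.inr (by decide)
    · exact Or.inr (by decide)
    · exact Or.inr (by decide)
    · exact Or.inr (by decide)
    · exact Or.inl rfl
    · exact absurd h us_nq4
    all_goals exact absurd (hm (by decide) h) us_nq4
  · fin_cases j
    · exact Or.inr (by decide)
    · exact Or.inr (by decide)
    · exact Or.inr (by decide)
    · exact Or.inr (by decide)
    · exact absurd h us_nq5
    · exact Or.inl rfl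
    all_goals exact absurd (hm (by decide) h) us_nq5
  · fin_cases j
    · exact Or.inr (by decide)
    · exact Or.inr (by decide)
    · exact Or.inr (by decide)
    · exact Or.inr (by decide)
    · exact Or.inr (by decide)
    · exact Or.inr (by decide)
    · exact Or.inl rfl
    · exact absurd h us_nq6
  · fin_cases j
    · exact Or.inr (by decide)
    · exact Or.inr (by decide)
    · exact Or.inr (by decide)
    · exact Or.inr (by decide)
    · exact Or.inr (by decide)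
    · exact Or.inr (by decide)
    · exact absurd h us_nq7
    · exact Or.inl rfl

theorem us_threeCol (i : Fin 8) : ThreeCol (US.{u} i) := by
  by_cases h7 : i = 7
  · subst h7
    intro a b c n1 n2 n3
    have m1 : a.s ∪ b.s ∪ c.s ≠ a.s ∪ b.s := fun h => n1 (US.ext h)
    have m2 : a.s ∪ b.s ∪ c.s ≠ a.s ∪ c.s := fun h => n2 (US.ext h)
    have m3 : a.s ∪ b.s ∪ c.s ≠ b.s ∪ c.s := fun h => n3 (US.ext h)
    have key : ∀ x ∈ F8 7, ∀ y ∈ F8 7, ∀ z ∈ F8 7, x ∪ y ∪ z ≠ x ∪ y → x ∪ y ∪ z ≠ x ∪ z →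
        x ∪ y ∪ z ≠ y ∪ z → x ∪ y ∪ z = Finset.univ ∧ ∃ i j k : Fin 3, i ≠ j ∧ i ≠ k ∧ j ≠ k ∧
          x = {i} ∧ y = {j} ∧ z = {k} := by decide
    obtain ⟨hu, i, j, k, hij, hik, hjk, ha, hb, hc⟩ := key _ a.mem _ b.mem _ c.mem m1 m2 m3
    refine ⟨?_, ?_⟩
    · intro x
      apply US.ext
      rw [US.mul_s, US.mul_s, US.mul_s, hu]
      exact Finset.union_eq_right.mpr (Finset.subset_univ _)
    · refine ⟨fun v => if i ∈ v.s then 0 else if j ∈ v.s then 1 else 2, ?_, ?_, ?_, ?_⟩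
      · change (if i ∈ a.s then (0 : Fin 3) else if j ∈ a.s then 1 else 2) = 0
        rw [ha, if_pos (Finset.mem_singleton_self i)]
      · change (if i ∈ b.s then (0 : Fin 3) else if j ∈ b.s then 1 else 2) = 1
        rw [hb, if_neg (by simpa using hij), if_pos (Finset.mem_singleton_self j)]
      · change (if i ∈ c.s then (0 : Fin 3) else if j ∈ c.s then 1 else 2) = 2
        rw [hc, if_neg (by simpa using hik), if_neg (by simpa using hjk)]
      · intro x y z hx hy hz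
        change (if i ∈ x.s then (0 : Fin 3) else if j ∈ x.s then 1 else 2) = 0 at hx
        change (if i ∈ y.s then (0 : Fin 3) else if j ∈ y.s then 1 else 2) = 1 at hy
        change (if i ∈ z.s then (0 : Fin 3) else if j ∈ z.s then 1 else 2) = 2 at hz
        apply US.ext
        rw [US.mul_s, US.mul_s, US.mul_s, US.mul_s, hu]
        have x1 : i ∈ x.s := by
          by_contra h
          rw [if_neg h] at hx
          split_ifs at hx <;> exact absurd hx (by decide)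
        have y1 : j ∈ y.s := by
          by_contra h
          rw [if_neg h] at hy
          split_ifs at hy <;> exact absurd hy (by decide)
        have z1 : i ∉ z.s := by
          intro h
          rw [if_pos h] at hz
          exact absurd hz (by decide)
        have z2 : j ∉ z.s := by
          intro h
          rw [if_neg z1, if_pos h] at hz
          exact absurd hz (by decide)
        have hall : ∀ m : Fin 3, m = i ∨ m = j ∨ m = k := by
          revert hij hik hjk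
          clear * -
          revert i j k
          decide
        have z3 : k ∈ z.s := by
          have hne : ∀ s ∈ F8 7, s.Nonempty := by decide
          obtain ⟨m, hm⟩ := hne _ z.mem
          rcases hall m with rfl | rfl | rfl
          · exact absurd hm z1
          · exact absurd hm z2
          · exact hm
        ext m
        simp only [Finset.mem_union, Finset.mem_univ, iff_true]
        rcases hall m with rfl | rfl | rfl
        · exact Or.inl (Or.inl x1)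
        · exact Or.inl (Or.inr y1)
        · exact Or.inr z3
  · intro a b c n1 n2 n3
    exfalso
    have h1 : Q8 7 (US.{u} i) :=
      show ∃ x y z : US.{u} i, x * y * z ≠ x * y ∧ x * y * z ≠ x * z ∧ x * y * z ≠ y * z from
        ⟨a, b, c, n1, n2, n3⟩
    rcases us_q8 h1 with h2 | h2
    · exact h7 h2.symm
    · have h3 : ∀ i : Fin 8, ¬ lv 7 < lv i := by decide
      exact h3 i h2

/-- the set of types of a class -/
def ty (W : SgClass.{u}) : Set (Fin 8) := {i | ∃ (S : Type u) (_ : Semigroup S), W S ∧ Q8 i S}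

theorem ty_gen {ι : Type v} {S : ι → Type u} [∀ i, Semigroup (S i)] (hS : ∀ i, SL (S i)) :
    ty (genF S) = {k | ∃ i, Q8 k (S i)} := by
  ext k
  constructor
  · rintro ⟨T, _, hT, hk⟩
    exact q8_gen hS hT hk
  · rintro ⟨i, hi⟩
    exact ⟨S i, inferInstance, genF_mem S i, hi⟩

theorem le_of_ty {W₁ W₂ : SgClass.{u}} (h2 : IsInclVariety W₂)
    (hW₁ : ∀ (S : Type u) [Semigroup S], W₁ S → SLC S)
    (hW₂ : ∀ (S : Type u) [Semigroup S], W₂ S → SL S) (h : ty W₁ ⊆ ty W₂) :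
    ∀ (S : Type u) [Semigroup S], W₁ S → W₂ S := by
  intro T _ hT
  apply mem_of_div h2
  intro u φ
  obtain ⟨hSL, hC⟩ := hW₁ T hT
  obtain ⟨i, hi, hctl⟩ := key8 hSL hC φ u
  obtain ⟨S, _, hS, hQ⟩ := h ⟨T, inferInstance, hT, hi⟩
  obtain ⟨ψ, hψ⟩ := hctl S (hW₂ S hS) hQ
  exact ⟨S, inferInstance, hS, ψ, hψ⟩

/-- **The semilattices with the condition (C) form the inclusive variety generated by two
semilattices.** -/
theorem slc_eq : SLC.{u} = genF (fun i : {i : Fin 8 // 6 ≤ i} => US.{u} i.1) := by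
  have hsl : ∀ i : {i : Fin 8 // 6 ≤ i}, SL (US.{u} i.1) := fun i => us_sl i.1
  have hle := le_of_ty (W₁ := SLC.{u}) (W₂ := genF (fun i : {i : Fin 8 // 6 ≤ i} => US.{u} i.1))
    (genF_isInclVariety _) (fun S _ h => h) (fun S _ h => sl_gen hsl h) (by
      intro k _
      rw [ty_gen hsl]
      have hk : ∀ k : Fin 8, ∃ i : Fin 8, 6 ≤ i ∧ (k = i ∨ lv k < lv i) := by decide
      obtain ⟨i, hi, hki⟩ := hk k
      refine ⟨⟨i, hi⟩, ?_⟩
      rcases hki with rfl | hki
      · exact us_q k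
      · exact q8_mono (us_sl i) hki (us_q i))
  funext S _
  apply propext
  constructor
  · exact hle S
  · intro h
    exact ⟨sl_gen hsl h, threeCol_gen hsl (fun i => us_threeCol i.1) h⟩

theorem slc_isInclVariety : IsInclVariety SLC.{u} := by
  rw [slc_eq]
  exact genF_isInclVariety _

/-- the down-closed sets of types -/
def Dn (D : Finset (Fin 8)) : Prop := ∀ k ∈ D, ∀ j, lv j < lv k → j ∈ D

instance : DecidablePred Dn := fun D => by unfold Dn; infer_instance

theorem card_dn : (Finset.univ.filter Dn).card = 12 := by decide +kernel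

/-- **There are exactly twelve inclusive subvarieties.** -/
theorem ncard_slc : (InclSub SLC.{u}).ncard = 12 := by
  classical
  let f : SgClass.{u} → Finset (Fin 8) := fun W => Finset.univ.filter fun i => i ∈ ty W
  have hf : ∀ (W : SgClass.{u}) (i : Fin 8), i ∈ f W ↔ i ∈ ty W := fun W i => by
    simp [f]
  have hinj : Set.InjOn f (InclSub SLC.{u}) := by
    rintro W₁ ⟨h1, h1'⟩ W₂ ⟨h2, h2'⟩ h
    have hty : ty W₁ = ty W₂ := by
      ext i
      rw [← hf, ← hf, h]
    funext S _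
    exact propext ⟨le_of_ty h2 h1' (fun S _ h => (h2' S h).1) hty.subset S,
      le_of_ty h1 h2' (fun S _ h => (h1' S h).1) hty.symm.subset S⟩
  have himg : f '' InclSub SLC.{u} = ((Finset.univ.filter Dn : Finset (Finset (Fin 8))) :
      Set (Finset (Fin 8))) := by
    ext D
    rw [Finset.coe_filter]
    constructor
    · rintro ⟨W, ⟨h1, h2⟩, rfl⟩
      refine ⟨Finset.mem_univ _, ?_⟩
      intro k hk j hj
      rw [hf] at hk ⊢
      obtain ⟨S, _, hS, hQ⟩ := hk
      exact ⟨S, inferInstance, hS, q8_mono (h2 S hS).1 hj hQ⟩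
    · rintro ⟨-, hD⟩
      have hsl : ∀ i : {i : Fin 8 // i ∈ D}, SL (US.{u} i.1) := fun i => us_sl i.1
      refine ⟨genF (fun i : {i : Fin 8 // i ∈ D} => US.{u} i.1),
        ⟨genF_isInclVariety _, ?_⟩, ?_⟩
      · intro S _ hS
        exact ⟨sl_gen hsl hS, threeCol_gen hsl (fun i => us_threeCol i.1) hS⟩
      · ext k
        rw [hf, ty_gen hsl]
        constructor
        · rintro ⟨⟨i, hi⟩, hk⟩
          rcases us_q8 hk with h | h
          · rw [h]; exact hi
          · exact hD i hi k h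
        · intro hk
          exact ⟨⟨k, hk⟩, us_q k⟩
  rw [← Set.InjOn.ncard_image hinj, himg, Set.ncard_coe_finset, card_dn]

end Pool.Agent.helper45.Sem
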