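import Mathlib
import Pool.Agent.helper45.Sem.Cont
import Pool.Agent.helper45.Sem.Lat
import Pool.Agent.helper2.Inc.Fam

/-!
# The dichotomy
-/

universe u v

open Pool.Agent.helper9.Incl Pool.Agent.helper45.Inc Pool.Agent.helper2.Inc Pool.Agent.SEM

namespace Pool.Agent.helper45.Sem

/-- a semilattice without the condition (C) -/
theorem continuum_of_not_threeCol {V : SgClass.{u}} (hV : IsInclVariety V) {T : Type u}
    [Semigroup T] (hT : V T) (hS : IsSL T) (h : ¬ ThreeCol T) :
    ∃ F : Set ℕ → SgClass.{u}, Function.Injective F ∧ ∀ A, F A ∈ InclSub V := by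
  by_cases hC : Col T
  · obtain ⟨hc, hi⟩ := hS
    unfold ThreeCol at h
    rw [not_forall] at h
    obtain ⟨a, h⟩ := h
    rw [not_forall] at h
    obtain ⟨b, h⟩ := h
    rw [not_forall] at h
    obtain ⟨c, h⟩ := h
    rw [Classical.not_imp] at h
    obtain ⟨n1, h⟩ := h
    rw [Classical.not_imp] at h
    obtain ⟨n2, h⟩ := h
    rw [Classical.not_imp] at h
    obtain ⟨n3, h⟩ := h
    obtain ⟨χ, c0, c1, c2, hχ⟩ := hC a b c _ rfl (Ne.symm n1) (Ne.symm n3) (Ne.symm n2)
    have hz : ∃ x, x * (a * b * c) ≠ a * b * c := by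
      by_contra hcon
      push Not at hcon
      exact h ⟨hcon, χ, c0, c1, c2, fun x y z hx hy hz =>
        hχ x y z (hcon x) (hcon y) (hcon z) hx hy hz⟩
    obtain ⟨x, hx⟩ := hz
    have at' : a * b * c * a = a * b * c := by
      rw [hc, ← mul_assoc, ← mul_assoc, hi]
    have bt' : a * b * c * b = a * b * c := by
      rw [hc, hc a b, ← mul_assoc, ← mul_assoc, hi]
    have ct' : a * b * c * c = a * b * c := by
      rw [mul_assoc, hi]
    have hir : Ir a b c := ⟨⟨hi a, hi b, hi c, hc a b, hc a c, hc b c⟩, n1, n2, n3⟩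
    obtain ⟨f, hf⟩ := exists_fz hir (x * (a * b * c)) (hi _)
      ⟨by rw [mul_assoc, at'], by rw [mul_assoc, bt'], by rw [mul_assoc, ct']⟩
      ⟨by rw [hc, mul_assoc, at'], by rw [hc, mul_assoc, bt'], by rw [hc, mul_assoc, ct']⟩
      (Ne.symm hx)
    exact continuum_of_fz hV hT hf
  · exact continuum_of_not_col hV hT hS hC

theorem finite_slc : (InclSub SLC.{u}).Finite :=
  Set.finite_of_ncard_ne_zero (by rw [ncard_slc]; decide)

theorem finite_of_slc {V : SgClass.{u}} (h : ∀ (S : Type u) [Semigroup S], V S → SLC S) :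
    (InclSub V).Finite :=
  finite_slc.subset fun _ hW => ⟨hW.1, fun S _ hS => h S (hW.2 S hS)⟩

end Pool.Agent.helper45.Sem
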